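import Pool.Agent.Lib.MP_05cdf2_gt.M.Rot

/-! MP_05cdf2_gt, stream K: elementary facts on chords and on the relation `U`. (complete) -/

set_option autoImplicit false

namespace TorM

section
variable {α : Type} [LinearOrder α]

theorem cr_swap1 {a b c d : α} : Cr b a c d ↔ Cr a b c d := by
  unfold Cr Cyc
  grind

theorem cr_swap2 {a b c d : α} : Cr a b d c ↔ Cr a b c d := by
  unfold Cr Cyc
  grind

theorem cr_comm {a b c d : α} : Cr c d a b ↔ Cr a b c d := by
  unfold Cr Cyc
  grind

theorem not_cr_same {a c d : α} : ¬ Cr a a c d := by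
  unfold Cr Cyc
  grind

theorem not_cr_left {a b d : α} : ¬ Cr a b a d := by
  unfold Cr Cyc
  grind

end

variable {g : ℕ}

/-- no lift of `a` crosses a lift of `b`, general position of the first chord -/
theorem U_iff {a b : F g} : U a b ↔ ∀ y x : F g, ¬ Cr y (y * a) x (x * b) := by
  constructor
  · intro h y x hc
    have h1 := (cr_mul y⁻¹ y (y * a) x (x * b)).mpr hc
    rw [inv_mul_cancel, inv_mul_cancel_left, ← mul_assoc] at h1
    exact h _ h1
  · intro h x hc
    refine h 1 x ?_
    rw [one_mul]
    exact hc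

theorem U.symm {a b : F g} (h : U a b) : U b a := by
  rw [U_iff] at *
  intro y x hc
  exact h x y (cr_comm.mp hc)

theorem U.inv_left {a b : F g} (h : U a b) : U a⁻¹ b := by
  rw [U_iff] at *
  intro y x hc
  refine h (y * a⁻¹) x ?_
  rw [inv_mul_cancel_right]
  exact cr_swap1.mp hc

theorem U.inv_right {a b : F g} (h : U a b) : U a b⁻¹ := h.symm.inv_left.symm

theorem U_one_left (b : F g) : U 1 b := fun _ h => not_cr_same h

theorem U_one_right (a : F g) : U a 1 := (U_one_left a).symm

theorem Ch.symm {X : Set (F g)} {p q : F g} (h : Ch X p q) : Ch X q p := Or.symm h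

theorem ch_mul (X : Set (F g)) (a p q : F g) : Ch X (a * p) (a * q) ↔ Ch X p q := by
  unfold Ch
  rw [mul_inv_rev, mul_inv_rev, mul_assoc, mul_assoc, inv_mul_cancel_left, inv_mul_cancel_left]

theorem Ch.mono {X Y : Set (F g)} (h : X ⊆ Y) {p q : F g} (hc : Ch X p q) : Ch Y p q :=
  hc.imp (fun a => h a) (fun a => h a)

theorem ch_self {X : Set (F g)} {x a : F g} (h : a ∈ X) : Ch X x (x * a) := by
  left
  rw [inv_mul_cancel_left]
  exact h

theorem Sys.mono {X Y : Set (F g)} (h : X ⊆ Y) (hY : Sys Y) : Sys X :=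
  fun a ha b hb => hY a (h ha) b (h hb)

/-- no two chords of a system cross -/
theorem sys_iff_ch {X : Set (F g)} :
    Sys X ↔ ∀ p q r s : F g, Ch X p q → Ch X r s → ¬ Cr p q r s := by
  constructor
  · intro h p q r s h1 h2 hc
    rcases h1 with h1 | h1 <;> rcases h2 with h2 | h2
    · refine U_iff.mp (h _ h1 _ h2) p r ?_
      rw [mul_inv_cancel_left, mul_inv_cancel_left]
      exact hc
    · refine U_iff.mp (h _ h1 _ h2) p s ?_
      rw [mul_inv_cancel_left, mul_inv_cancel_left]
      exact cr_swap2.mp hc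
    · refine U_iff.mp (h _ h1 _ h2) q r ?_
      rw [mul_inv_cancel_left, mul_inv_cancel_left]
      exact cr_swap1.mp hc
    · refine U_iff.mp (h _ h1 _ h2) q s ?_
      rw [mul_inv_cancel_left, mul_inv_cancel_left]
      exact cr_swap1.mp (cr_swap2.mp hc)
  · intro h a ha b hb x hc
    refine h 1 a x (x * b) ?_ (ch_self hb) hc
    left
    rw [inv_one, one_mul]
    exact ha

/-- an element is unlinked with all elements of `X` iff its lifts do not cross chords of `X` -/
theorem U_iff_ch {X : Set (F g)} {b : F g} :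
    (∀ a ∈ X, U b a) ↔ ∀ x p q : F g, Ch X p q → ¬ Cr x (x * b) p q := by
  constructor
  · intro h x p q h1 hc
    rcases h1 with h1 | h1
    · refine U_iff.mp (h _ h1) x p ?_
      rw [mul_inv_cancel_left]
      exact hc
    · refine U_iff.mp (h _ h1) x q ?_
      rw [mul_inv_cancel_left]
      exact cr_swap2.mp hc
  · intro h a ha x hc
    refine h 1 x (x * a) (ch_self ha) ?_
    rw [one_mul]
    exact hc

theorem sys_insert {X : Set (F g)} {b : F g} (hX : Sys X) (hb : U b b) (h : ∀ a ∈ X, U b a) :
    Sys (insert b X) := by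
  rintro a (rfl | ha) c (rfl | hc)
  · exact hb
  · exact h c hc
  · exact (h a ha).symm
  · exact hX a ha c hc

end TorM
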