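import Pool.Agent.Lib.MP_05cdf2_gt.K.ListCx

/-! MP_05cdf2_gt, stream K, job ListEx: exactness from a flow and a cone.

Hypotheses of `flow`, and a vertex `b` which can be put in front of every list of `K` all of whose entries have
priority `⊤`. Then the complex of the lists in `K` is exact.
Proof. Take `fin, H` from `flow`, extend linearly: `H' = linearCombination ℤ H`, `M = mapDomain (List.map fin)`.
By linearity `dL (H' c) + H' (dL c) = M c - c` for every chain `c`. Let `c` be supported in `K`, `dL c = 0`. Then
`c = M c - dL (H' c)`, `dL (M c) = M (dL c) = 0` (`dL_map`), and by `dL_cons`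
`dL (b :: M c) = M c - b :: dL (M c) = M c`. So `y = b :: M c - H' c` has `dL y = c`; it is supported in `K`: a list
in the support of `b :: M c` is `b :: l.map fin` with `l ∈ K`. (Supports: `Finsupp.mapDomain_support`,
`Finsupp.support_sum`/`Finsupp.mem_span`-type arguments; it may be easier to work with the submodule
`Finsupp.supported ℤ ℤ K` and `Submodule.span_induction`/`Finsupp.mem_supported`.)

`dL_degree`: if `y` is supported in `K` and `dL y = c` and `c` is supported on lists of length `n` then the part of `y`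
of length `n + 1` also has boundary `c` (compare the parts of length `n`; `dl_support`).
-/

set_option autoImplicit false

namespace TorM
open Finsupp

variable {V P : Type}

theorem listex_map_mem {W : Type} (f : V → W) (K : Set V) (L : Set W) (h : ∀ v ∈ K, f v ∈ L)
    (c : V →₀ ℤ) (hc : (c.support : Set V) ⊆ K) :
    mapDomain f c ∈ Finsupp.supported ℤ ℤ L := by
  rw [mapDomain, Finsupp.sum]
  exact Submodule.sum_mem _ fun v hv => Finsupp.single_mem_supported _ _ (h v (hc hv))

theorem listex_lin (H : List V → (List V →₀ ℤ)) (K L : Set (List V))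
    (h : ∀ l ∈ K, ∀ m ∈ (H l).support, m ∈ L) (c : List V →₀ ℤ)
    (hc : (c.support : Set (List V)) ⊆ K) :
    Finsupp.linearCombination ℤ H c ∈ Finsupp.supported ℤ ℤ L := by
  rw [Finsupp.linearCombination_apply, Finsupp.sum]
  refine Submodule.sum_mem _ fun l hl => Submodule.smul_mem _ _ ?_
  rw [Finsupp.mem_supported]
  exact fun m hm => h l (hc hl) m hm

theorem listex_supp (e : List V →₀ ℤ) (m : List V) (hm : dL e m ≠ 0) :
    ∃ l ∈ e.support, dl l m ≠ 0 := by
  unfold dL at hm
  rw [Finsupp.linearCombination_apply, Finsupp.sum, Finsupp.finsetSum_apply] at hm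
  obtain ⟨l, hl, hlm⟩ := Finset.exists_ne_zero_of_sum_ne_zero hm
  refine ⟨l, hl, fun h => hlm ?_⟩
  rw [Finsupp.smul_apply, h, smul_zero]

theorem flow_exact [LinearOrder P] (pr : V → WithTop P) (st : V → V) (μ : V → ℕ)
    (hμ : ∀ v, pr v ≠ ⊤ → μ (st v) < μ v) (K : Set (List V))
    (hK : ∀ l ∈ K, ∀ l' : List V, l'.Sublist l → l' ∈ K)
    (hst : ∀ (l₁ : List V) (v : V) (l₂ : List V), l₁ ++ v :: l₂ ∈ K → pr v ≠ ⊤ →
      (∀ w ∈ l₁, pr v < pr w) → (∀ w ∈ l₂, pr v ≤ pr w) → l₁ ++ v :: st v :: l₂ ∈ K)
    (b : V) (hb : ∀ l ∈ K, (∀ v ∈ l, pr v = ⊤) → b :: l ∈ K)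
    (c : List V →₀ ℤ) (hc : (c.support : Set (List V)) ⊆ K) (hdc : dL c = 0) :
    ∃ y : List V →₀ ℤ, (y.support : Set (List V)) ⊆ K ∧ dL y = c := by
  obtain ⟨fin, H, hfin, -, -, hKfin, hH, hdH⟩ := flow pr st μ hμ K hK hst
  have key : ∀ e : List V →₀ ℤ, dL (Finsupp.linearCombination ℤ H e) +
      Finsupp.linearCombination ℤ H (dL e) = mapDomain (List.map fin) e - e := by
    intro e
    have h1 : dL ∘ₗ Finsupp.linearCombination ℤ H + Finsupp.linearCombination ℤ H ∘ₗ dL =
        Finsupp.lmapDomain ℤ ℤ (List.map fin) - LinearMap.id := by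
      refine Finsupp.lhom_ext' fun l => LinearMap.ext_ring ?_
      simp only [LinearMap.comp_apply, LinearMap.add_apply, LinearMap.sub_apply,
        Finsupp.lsingle_apply, Finsupp.linearCombination_single, one_smul, dL_single,
        Finsupp.lmapDomain_apply, mapDomain_single, LinearMap.id_apply]
      exact hdH l
    exact congrArg (fun T : (List V →₀ ℤ) →ₗ[ℤ] (List V →₀ ℤ) => T e) h1
  refine ⟨mapDomain (List.cons b) (mapDomain (List.map fin) c) -
    Finsupp.linearCombination ℤ H c, ?_, ?_⟩
  · rw [← Finsupp.mem_supported ℤ]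
    refine Submodule.sub_mem _ ?_ ?_
    · rw [← mapDomain_comp]
      refine listex_map_mem _ K K (fun l hl => ?_) c hc
      refine hb _ (hKfin l hl) fun v hv => ?_
      obtain ⟨w, -, rfl⟩ := List.mem_map.1 hv
      exact hfin w
    · exact listex_lin H K K (fun l hl m hm => (hH l hl m hm).1) c hc
  · have h2 := key c
    rw [hdc, map_zero, add_zero] at h2
    rw [map_sub, dL_cons, dL_map, hdc, mapDomain_zero, mapDomain_zero, h2]
    abel

theorem dL_degree (K : Set (List V)) (n : ℕ) (y c : List V →₀ ℤ)
    (hy : (y.support : Set (List V)) ⊆ K) (hc : ∀ l ∈ c.support, l.length = n) (h : dL y = c) :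
    ∃ z : List V →₀ ℤ, (z.support : Set (List V)) ⊆ K ∧ (∀ l ∈ z.support, l.length = n + 1) ∧
      dL z = c := by
  classical
  refine ⟨y.filter fun l => l.length = n + 1, ?_, ?_, ?_⟩
  · intro l hl
    rw [Finset.mem_coe, Finsupp.support_filter, Finset.mem_filter] at hl
    exact hy hl.1
  · intro l hl
    rw [Finsupp.support_filter, Finset.mem_filter] at hl
    exact hl.2
  · ext m
    by_cases hm : m.length = n
    · have h1 : dL (y.filter fun l => ¬ l.length = n + 1) m = 0 := by
        by_contra hne
        obtain ⟨l, hl, hlm⟩ := listex_supp _ m hne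
        rw [Finsupp.support_filter, Finset.mem_filter] at hl
        have h2 := (dl_support l m (Finsupp.mem_support_iff.2 hlm)).2
        exact hl.2 (by omega)
      have h3 := congrArg (fun e => dL e m)
        (Finsupp.filter_add_filter_not y fun l => l.length = n + 1)
      simp only [map_add, Finsupp.add_apply] at h3
      rw [h1, add_zero, h] at h3
      exact h3
    · have h1 : c m = 0 := by
        by_contra hne
        exact hm (hc m (Finsupp.mem_support_iff.2 hne))
      rw [h1]
      by_contra hne
      obtain ⟨l, hl, hlm⟩ := listex_supp _ m hne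
      rw [Finsupp.support_filter, Finset.mem_filter] at hl
      have h2 := (dl_support l m (Finsupp.mem_support_iff.2 hlm)).2
      have h3 := hl.2
      exact hm (by omega)

end TorM
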