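import Pool.Agent.Lib.MP_05cdf2_gt.B.Grad
import Pool.Agent.Lib.MP_05cdf2_gt.K.ListEx

/-! MP_05cdf2_gt, stream K, job GList: FP_infinity from an exact complex of lists.

`K` a `G`-invariant set of lists, closed under sublists, containing `[]`, with exact complex, finitely many orbits
in each length, and stabilisers of type FP_infinity. Then `G` is of type FP_infinity. Apply `Tor.GFP_of_graded`
to `𝒢 = K` (subtype) with `MulAction` `a • l = l.map (a • ·)`, `len = length`, `e = []`.
The differential: `d' : (K →₀ ℤ) → (K →₀ ℤ)` with `mapDomain val (d' x) = dL (mapDomain val x)`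
(`mapDomain val` is injective with image the chains supported in `K`; e.g. `d' x = comapDomain val (dL (mapDomain val x))`,
`Finsupp.comapDomain`, `Finsupp.mapDomain_comapDomain`). Equivariance: `dL_map` for the map `a • ·`.
`hdeg`: `dl_support`. `hdd`: `dL_dL`. `hex`: the hypothesis `hex` for the whole complex. The orbits: the given finite sets,
pulled back to the subtype. Stabilisers: `MulAction.stabilizer G l` for `l : K` is the same subgroup as
`lstab G l`.
-/

set_option autoImplicit false

namespace TorM
open Finsupp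

/-- stabiliser of a list -/
def lstab (G : Type) {V : Type} [Group G] [MulAction G V] (l : List V) : Subgroup G where
  carrier := {a | l.map (a • ·) = l}
  one_mem' := by
    show l.map ((1 : G) • ·) = l
    simp
  mul_mem' := fun {a b} ha hb => by
    have ha' : l.map (a • ·) = l := ha
    have hb' : l.map (b • ·) = l := hb
    show l.map ((a * b) • ·) = l
    have h1 : l.map ((a * b) • ·) = (l.map (b • ·)).map (a • ·) := by
      rw [List.map_map]
      refine List.map_congr_left fun x _ => ?_
      exact mul_smul a b x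
    rw [h1, hb', ha']
  inv_mem' := fun {a} ha => by
    have ha' : l.map (a • ·) = l := ha
    show l.map (a⁻¹ • ·) = l
    conv_lhs => rw [← ha']
    rw [List.map_map]
    have h1 : ((a⁻¹ • ·) ∘ (a • ·) : V → V) = id := by
      funext x
      exact inv_smul_smul a x
    rw [h1, List.map_id]

section
variable {W : Type}

private theorem glist_single (s : List W) (a : ℤ) : dL (single s a) = a • dl s := by
  unfold dL
  rw [linearCombination_single]

private theorem glist_supp (K : Set (List W))
    (hK : ∀ l ∈ K, ∀ l' : List W, l'.Sublist l → l' ∈ K) (z : List W →₀ ℤ)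
    (hz : (z.support : Set (List W)) ⊆ K) : ((dL z).support : Set (List W)) ⊆ K := by
  intro m hm
  by_contra hne
  have hm' : m ∈ (dL z).support := hm
  rw [Finsupp.mem_support_iff] at hm'
  apply hm'
  have h1 : dL z = ∑ s ∈ z.support, z s • dl s := by
    unfold dL
    rw [linearCombination_apply, Finsupp.sum]
  rw [h1, Finsupp.finsetSum_apply]
  refine Finset.sum_eq_zero fun s hs => ?_
  rw [Finsupp.smul_apply]
  have h2 : (dl s) m = 0 := by
    by_contra h3
    exact hne (hK s (hz hs) m (dl_support s m (Finsupp.mem_support_iff.2 h3)).1)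
  rw [h2, smul_zero]

/-- inclusion -/
private noncomputable def glistι (K : Set (List W)) : (K →₀ ℤ) →+ (List W →₀ ℤ) :=
  Finsupp.mapDomain.addMonoidHom (Subtype.val : K → List W)

/-- projection -/
private noncomputable def glistπ (K : Set (List W)) : (List W →₀ ℤ) →+ (K →₀ ℤ) :=
  Finsupp.subtypeDomainAddMonoidHom

private theorem glist_ι_apply (K : Set (List W)) (x : K →₀ ℤ) (s : K) :
    glistι K x s.1 = x s :=
  mapDomain_apply Subtype.val_injective x s

private theorem glist_ι_out (K : Set (List W)) (x : K →₀ ℤ) {t : List W} (ht : t ∉ K) :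
    glistι K x t = 0 := by
  refine mapDomain_of_notMem_range x t ?_
  rintro ⟨s, rfl⟩
  exact ht s.2

private theorem glist_ιπ (K : Set (List W)) (y : List W →₀ ℤ)
    (hy : (y.support : Set (List W)) ⊆ K) : glistι K (glistπ K y) = y := by
  ext t
  by_cases ht : t ∈ K
  · exact glist_ι_apply K (glistπ K y) ⟨t, ht⟩
  · rw [glist_ι_out K _ ht]
    by_contra hne
    exact ht (hy (Finsupp.mem_support_iff.2 (Ne.symm hne)))

private theorem glist_ι_supp (K : Set (List W)) (x : K →₀ ℤ) :
    ((glistι K x).support : Set (List W)) ⊆ K := by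
  intro t ht
  by_contra hne
  exact (Finsupp.mem_support_iff.1 ht) (glist_ι_out K x hne)

private theorem glist_inj (K : Set (List W)) : Function.Injective (glistι K) :=
  mapDomain_injective Subtype.val_injective

/-- the action on the subtype -/
@[reducible] private def glistAct {G : Type} [Group G] [MulAction G W] (K : Set (List W))
    (hG : ∀ (a : G), ∀ l ∈ K, l.map (a • ·) ∈ K) : MulAction G K where
  smul a l := ⟨l.1.map (a • ·), hG a l.1 l.2⟩
  one_smul l := by
    apply Subtype.ext
    show l.1.map ((1 : G) • ·) = l.1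
    simp
  mul_smul a b l := by
    apply Subtype.ext
    show l.1.map ((a * b) • ·) = (l.1.map (b • ·)).map (a • ·)
    rw [List.map_map]
    refine List.map_congr_left fun x _ => ?_
    exact mul_smul a b x

end

theorem gfp_of_lists {G V : Type} [Group G] [MulAction G V] (K : Set (List V)) (hnil : [] ∈ K)
    (hK : ∀ l ∈ K, ∀ l' : List V, l'.Sublist l → l' ∈ K)
    (hG : ∀ (a : G), ∀ l ∈ K, l.map (a • ·) ∈ K)
    (hex : ∀ c : List V →₀ ℤ, (c.support : Set (List V)) ⊆ K → dL c = 0 →
      ∃ y : List V →₀ ℤ, (y.support : Set (List V)) ⊆ K ∧ dL y = c)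
    (horb : ∀ n : ℕ, ∃ T : Set (List V), T.Finite ∧ T ⊆ K ∧ ∀ l ∈ K, l.length = n →
      ∃ l' ∈ T, l'.length = n ∧ ∃ a : G, l'.map (a • ·) = l)
    (hst : ∀ l ∈ K, l ≠ [] → Tor.GFP (lstab G l)) : Tor.GFP G := by
  classical
  let act : MulAction G K := glistAct K hG
  have hact : ∀ (a : G) (l : K), (a • l).1 = l.1.map (a • ·) := fun a l => rfl
  let d : (K →₀ ℤ) →+ (K →₀ ℤ) := (glistπ K).comp ((dL (V := V)).toAddMonoidHom.comp (glistι K))
  have hdι : ∀ x, glistι K (d x) = dL (glistι K x) := by
    intro x
    exact glist_ιπ K _ (glist_supp K hK _ (glist_ι_supp K x))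
  have hιg : ∀ (g : G) (x : K →₀ ℤ), glistι K (mapDomain (g • ·) x) =
      mapDomain (List.map (g • ·)) (glistι K x) := by
    intro g x
    show mapDomain (Subtype.val : K → List V) (mapDomain (fun s : K => g • s) x) =
      mapDomain (List.map (fun v : V => g • v)) (mapDomain (Subtype.val : K → List V) x)
    rw [← mapDomain_comp, ← mapDomain_comp]
    rfl
  have hsing : ∀ s : K, glistι K (single s 1) = single s.1 1 := fun s =>
    mapDomain_single
  choose T hTf hTK hT using horb
  refine Tor.GFP_of_graded (G := G) (𝒢 := K) (fun l => l.1.length) ?_ d ?_ ?_ ?_ ?_ ⟨[], hnil⟩ ?_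
    (fun n => {s : K | s.1 ∈ T n}) ?_ ?_ ?_
  · intro g s
    show (s.1.map (g • ·)).length = s.1.length
    rw [List.length_map]
  · intro g x
    apply glist_inj K
    rw [hdι, hιg, hιg, hdι, dL_map]
  · intro s t ht
    have h1 : glistι K (d (single s 1)) t.1 ≠ 0 := by
      rw [glist_ι_apply]
      exact Finsupp.mem_support_iff.1 ht
    rw [hdι, hsing, dL_single] at h1
    exact (dl_support s.1 t.1 (Finsupp.mem_support_iff.2 h1)).2
  · intro x
    apply glist_inj K
    rw [hdι, hdι, dL_dL, map_zero]
  · intro x hx
    have h1 : dL (glistι K x) = 0 := by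
      rw [← hdι, hx, map_zero]
    obtain ⟨y, hy, hy'⟩ := hex _ (glist_ι_supp K x) h1
    refine ⟨glistπ K y, ?_⟩
    apply glist_inj K
    rw [hdι, glist_ιπ K y hy, hy']
  · intro s
    constructor
    · intro h
      apply Subtype.ext
      exact List.length_eq_zero_iff.1 h
    · rintro rfl
      rfl
  · intro n
    exact (hTf n).preimage Subtype.val_injective.injOn
  · intro s
    obtain ⟨l', hl', hlen, a, ha⟩ := hT s.1.length s.1 s.2 rfl
    refine ⟨⟨l', hTK _ hl'⟩, hl', a, ?_⟩
    apply Subtype.ext
    exact ha
  · intro s hs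
    have h1 : MulAction.stabilizer G s = lstab G s.1 := by
      ext g
      rw [MulAction.mem_stabilizer_iff]
      exact Subtype.ext_iff
    rw [h1]
    refine hst s.1 s.2 fun h => hs ?_
    apply Subtype.ext
    exact h

end TorM
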