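import Pool.Agent.Lib.MP_05cdf2_gt.K.Cnt

/-! MP_05cdf2_gt, stream K, job Step: the elementary step of the flow on finite systems `s : Finset (F g)` with
respect to a target system `B` (a list).

`crs B s` = the set of all crossings: triples `(k, u, w)` with `1 < u < B[k] < w`, `{u, w}` a chord of `s`.
It is finite: `k < B.length`; for given `k` and `a ∈ s` there are finitely many `x` such that `{x, x a}` crosses
`{1, B[k]}` (`cr_finite 1 (B[k]) a`; `Cr 1 τ u w` holds if `1 < u < τ < w`), and `(u, w) = (x, x a)` or `(x a, x)`.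
`pr B s` = the smallest crossing in the lexicographic order (`k`, then `u`, then `w` in reverse order), `⊤` if there is
none. `exists_first`: if `pr B s ≠ ⊤` there is `(k, u, w) ∈ crs B s` with `pr B s = enc (k, u, w)` (`Finset.min_eq_top`,
`Finset.mem_of_min`), `pr_le`: `pr B s ≤ enc (k, u, w)` for all `(k, u, w) ∈ crs B s` (`Finset.min_le`).
`st B s`: replace the element `u⁻¹ w` (and its inverse) by `u` and `w`.
`U_of_pr_top`: if there is no crossing then no lift of `a ∈ s` crosses `{1, τ}`, `τ ∈ B`: if `Cr 1 τ x (x a)` then one of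
`(x, x a)`, `(x a, x)` is `(u, w)` with `1 < u < τ < w` (`unfold Cr Cyc; grind` with `one_le`).
`isFirst_of_le`: let `X` be a set such that every chord of `X` is a chord of some finite set `s'` with
`pr B s ≤ pr B s'`, and `s ⊆ X`. Then the first crossing `(k, u, w)` of `s` satisfies `IsFirst X (B[k]) u w`: if
`(u', w')` is a chord of `X`, `1 < u' < B[k] < w'`, then `enc (k, u, w) = pr B s ≤ pr B s' ≤ enc (k, u', w')`, so in the
lexicographic order `u < u'`, or `u = u'` and `w' ≤ w`.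
`closure_st`: `u⁻¹ w` and its inverse are in the closure of `{u, w}`.
`mu_st`: `μ B s = ∑ a ∈ s, I B a`. With `a₀ = u⁻¹ w ∈ s` or `a₀⁻¹ ∈ s` (`I B` has the same value, `I_inv`), we have
`∑ over st ≤ I u + I w + ∑ over s without a₀, a₀⁻¹ < I a₀ + ∑ over s without a₀, a₀⁻¹ ≤ ∑ over s` (`I_surg`).
-/

set_option autoImplicit false

namespace TorM

variable {g : ℕ}

/-- priorities: index of the target, then `u`, then `w` backwards -/
abbrev Pr (g : ℕ) : Type := ℕ ×ₗ (F g ×ₗ (F g)ᵒᵈ)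

/-- encoding of crossings as priorities -/
def enc (k : ℕ) (u w : F g) : Pr g := toLex (k, toLex (u, OrderDual.toDual w))

/-- the crossings of `s` with the target list `B` -/
def crs (B : List (F g)) (s : Finset (F g)) : Set (Pr g) :=
  {p | ∃ (k : ℕ) (u w : F g), p = enc k u w ∧ ∃ h : k < B.length,
    1 < u ∧ u < B[k] ∧ B[k] < w ∧ Ch (s : Set (F g)) u w}

theorem step_cr {τ u w : F g} (h1 : 1 < u) (h2 : u < τ) (h3 : τ < w) : Cr 1 τ u w :=
  Or.inl ⟨Or.inl ⟨h1, h2⟩, Or.inr (Or.inr ⟨h1.trans h2, h3⟩)⟩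

theorem crs_finite (B : List (F g)) (s : Finset (F g)) : (crs B s).Finite := by
  have hfin : (⋃ k : Fin B.length, ⋃ a ∈ s,
      ((fun x : F g => enc (k : ℕ) x (x * a)) '' {x | Cr 1 B[(k : ℕ)] x (x * a)} ∪
       (fun x : F g => enc (k : ℕ) (x * a) x) '' {x | Cr 1 B[(k : ℕ)] x (x * a)})).Finite := by
    refine Set.finite_iUnion fun k => ?_
    refine Set.Finite.biUnion s.finite_toSet fun a _ => ?_
    exact ((cr_finite _ _ _).image _).union ((cr_finite _ _ _).image _)
  refine hfin.subset ?_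
  rintro p ⟨k, u, w, rfl, hk, h1, h2, h3, h4⟩
  have hc := step_cr h1 h2 h3
  rw [Set.mem_iUnion]
  refine ⟨⟨k, hk⟩, ?_⟩
  rw [Set.mem_iUnion₂]
  rcases h4 with h4 | h4
  · refine ⟨u⁻¹ * w, h4, Or.inl ⟨u, ?_, ?_⟩⟩
    · show Cr 1 B[k] u (u * (u⁻¹ * w))
      rw [mul_inv_cancel_left]
      exact hc
    · show enc k u (u * (u⁻¹ * w)) = enc k u w
      rw [mul_inv_cancel_left]
  · refine ⟨w⁻¹ * u, h4, Or.inr ⟨w, ?_, ?_⟩⟩
    · show Cr 1 B[k] w (w * (w⁻¹ * u))
      rw [mul_inv_cancel_left]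
      exact cr_swap2.mp hc
    · show enc k (w * (w⁻¹ * u)) w = enc k u w
      rw [mul_inv_cancel_left]

/-- priority of a finite set: its first crossing -/
noncomputable def pr (B : List (F g)) (s : Finset (F g)) : WithTop (Pr g) :=
  (crs_finite B s).toFinset.min

theorem exists_first {B : List (F g)} {s : Finset (F g)} (h : pr B s ≠ ⊤) :
    ∃ (k : ℕ) (u w : F g) (hk : k < B.length), pr B s = (enc k u w : WithTop (Pr g)) ∧
      1 < u ∧ u < B[k] ∧ B[k] < w ∧ Ch (s : Set (F g)) u w := by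
  have hne : (crs_finite B s).toFinset.Nonempty := by
    rw [Finset.nonempty_iff_ne_empty]
    intro h0
    exact h (Finset.min_eq_top.mpr h0)
  obtain ⟨p, hp⟩ := Finset.min_of_nonempty hne
  have hmem := Finset.mem_of_min hp
  rw [Set.Finite.mem_toFinset] at hmem
  obtain ⟨k, u, w, rfl, hk, h1, h2, h3, h4⟩ := hmem
  exact ⟨k, u, w, hk, hp, h1, h2, h3, h4⟩

theorem pr_le {B : List (F g)} {s : Finset (F g)} {k : ℕ} {u w : F g} (hk : k < B.length)
    (h1 : 1 < u) (h2 : u < B[k]) (h3 : B[k] < w) (h4 : Ch (s : Set (F g)) u w) :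
    pr B s ≤ (enc k u w : WithTop (Pr g)) := by
  refine Finset.min_le ?_
  rw [Set.Finite.mem_toFinset]
  exact ⟨k, u, w, rfl, hk, h1, h2, h3, h4⟩

theorem enc_le {k : ℕ} {u w u' w' : F g} :
    (enc k u w : WithTop (Pr g)) ≤ (enc k u' w' : WithTop (Pr g)) ↔ u < u' ∨ (u = u' ∧ w' ≤ w) := by
  rw [WithTop.coe_le_coe]
  unfold enc
  rw [Prod.Lex.toLex_le_toLex]
  constructor
  · rintro (h | ⟨_, h⟩)
    · exact absurd h (lt_irrefl _)
    · rw [Prod.Lex.toLex_le_toLex] at h
      rcases h with h | ⟨h1, h2⟩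
      · exact Or.inl h
      · exact Or.inr ⟨h1, h2⟩
  · intro h
    refine Or.inr ⟨rfl, ?_⟩
    rw [Prod.Lex.toLex_le_toLex]
    rcases h with h | ⟨h1, h2⟩
    · exact Or.inl h
    · exact Or.inr ⟨h1, h2⟩

/-- replace the element `u⁻¹ w` and its inverse by `u` and `w` -/
def cut (s : Finset (F g)) (u w : F g) : Finset (F g) :=
  insert u (insert w (s.filter fun a => a ≠ u⁻¹ * w ∧ a ≠ w⁻¹ * u))

/-- the step: cut at the first crossing -/
noncomputable def st (B : List (F g)) (s : Finset (F g)) : Finset (F g) :=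
  Option.elim (pr B s) s fun p => cut s (ofLex (ofLex p).2).1 (OrderDual.ofDual (ofLex (ofLex p).2).2)

theorem st_eq {B : List (F g)} {s : Finset (F g)} {k : ℕ} {u w : F g}
    (h : pr B s = (enc k u w : WithTop (Pr g))) : st B s = cut s u w := by
  unfold st
  rw [h]
  rfl

theorem U_of_pr_top {B : List (F g)} {s : Finset (F g)} (h : pr B s = ⊤) :
    ∀ τ ∈ B, ∀ a ∈ s, U τ a := by
  intro τ hτ a ha x hx
  obtain ⟨k, hk, rfl⟩ := List.getElem_of_mem hτ
  have hno : ∀ u w : F g, 1 < u → u < B[k] → B[k] < w → ¬ Ch (s : Set (F g)) u w := by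
    intro u w h1 h2 h3 h4
    have h5 := pr_le hk h1 h2 h3 h4
    rw [h] at h5
    exact absurd h5 (not_le.mpr (WithTop.coe_lt_top _))
  have h1 := one_le x
  have h2 := one_le (x * a)
  have h3 := one_le B[k]
  have hc : Ch (s : Set (F g)) x (x * a) := ch_self ha
  have h4 : (1 < x ∧ x < B[k] ∧ B[k] < x * a) ∨ (1 < x * a ∧ x * a < B[k] ∧ B[k] < x) := by
    unfold Cr Cyc at hx
    grind
  rcases h4 with ⟨h4, h5, h6⟩ | ⟨h4, h5, h6⟩
  · exact hno _ _ h4 h5 h6 hc
  · exact hno _ _ h4 h5 h6 hc.symm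

theorem isFirst_of_le {B : List (F g)} {s : Finset (F g)} {k : ℕ} {u w : F g} (hk : k < B.length)
    (h : pr B s = (enc k u w : WithTop (Pr g))) {X : Set (F g)}
    (hs : ∀ u' w' : F g, Ch X u' w' → ∃ s' : Finset (F g), Ch (s' : Set (F g)) u' w' ∧ pr B s ≤ pr B s')
    (hX : (s : Set (F g)) ⊆ X) (h1 : 1 < u) (h2 : u < B[k]) (h3 : B[k] < w)
    (h4 : Ch (s : Set (F g)) u w) : IsFirst X B[k] u w := by
  refine ⟨h1, h2, h3, h4.mono hX, ?_⟩
  intro u' w' g1 g2 g3 hc
  obtain ⟨s', hs', hle⟩ := hs u' w' hc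
  rw [h] at hle
  exact enc_le.mp (hle.trans (pr_le hk g1 g2 g3 hs'))

theorem closure_st {B : List (F g)} {s : Finset (F g)}
    (h : Subgroup.closure (s : Set (F g)) = ⊤) : Subgroup.closure (st B s : Set (F g)) = ⊤ := by
  by_cases hp : pr B s = ⊤
  · unfold st
    rw [hp]
    exact h
  · obtain ⟨k, u, w, hk, hp', h1, h2, h3, h4⟩ := exists_first hp
    rw [st_eq hp', eq_top_iff, ← h, Subgroup.closure_le]
    have hu : u ∈ Subgroup.closure ((cut s u w : Finset (F g)) : Set (F g)) :=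
      Subgroup.subset_closure (Finset.mem_coe.mpr (Finset.mem_insert_self _ _))
    have hw : w ∈ Subgroup.closure ((cut s u w : Finset (F g)) : Set (F g)) :=
      Subgroup.subset_closure (Finset.mem_coe.mpr
        (Finset.mem_insert_of_mem (Finset.mem_insert_self _ _)))
    intro a ha
    by_cases ha1 : a = u⁻¹ * w
    · rw [ha1]
      exact Subgroup.mul_mem _ (Subgroup.inv_mem _ hu) hw
    · by_cases ha2 : a = w⁻¹ * u
      · rw [ha2]
        exact Subgroup.mul_mem _ (Subgroup.inv_mem _ hw) hu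
      · exact Subgroup.subset_closure (Finset.mem_coe.mpr (Finset.mem_insert_of_mem
          (Finset.mem_insert_of_mem (Finset.mem_filter.mpr ⟨ha, ha1, ha2⟩))))

/-- total crossing number of a finite set -/
noncomputable def mu (B : List (F g)) (s : Finset (F g)) : ℕ := ∑ a ∈ s, I B a

theorem step_sum_insert_le (f : F g → ℕ) (x : F g) (S : Finset (F g)) :
    ∑ a ∈ insert x S, f a ≤ f x + ∑ a ∈ S, f a := by
  by_cases hx : x ∈ S
  · rw [Finset.insert_eq_of_mem hx]
    exact Nat.le_add_left _ _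
  · rw [Finset.sum_insert hx]

theorem mu_st {B : List (F g)} (hB : Sys {τ | τ ∈ B}) {s : Finset (F g)} (h : pr B s ≠ ⊤) :
    mu B (st B s) < mu B s := by
  obtain ⟨k, u, w, hk, hp', h1, h2, h3, h4⟩ := exists_first h
  rw [st_eq hp']
  unfold mu cut
  set T : Finset (F g) := s.filter fun a => a ≠ u⁻¹ * w ∧ a ≠ w⁻¹ * u with hT
  have hI : I B u + I B w < I B (u⁻¹ * w) := I_surg hB (List.getElem_mem hk) h1 h2 h3
  have hI2 : I B (w⁻¹ * u) = I B (u⁻¹ * w) := by
    rw [← I_inv B (u⁻¹ * w), mul_inv_rev, _root_.inv_inv]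
  have hle1 := step_sum_insert_le (I B) u (insert w T)
  have hle2 := step_sum_insert_le (I B) w T
  have hkey : ∀ b ∈ s, (b = u⁻¹ * w ∨ b = w⁻¹ * u) → I B b + ∑ a ∈ T, I B a ≤ ∑ a ∈ s, I B a := by
    intro b hb hb2
    have hbT : b ∉ T := by
      intro hbT
      have h5 := (Finset.mem_filter.mp hbT).2
      rcases hb2 with hb2 | hb2
      · exact h5.1 hb2
      · exact h5.2 hb2
    rw [← Finset.sum_insert hbT]
    apply Finset.sum_le_sum_of_subset
    intro a ha
    rcases Finset.mem_insert.mp ha with rfl | ha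
    · exact hb
    · exact (Finset.mem_filter.mp ha).1
  have hfin : I B (u⁻¹ * w) + ∑ a ∈ T, I B a ≤ ∑ a ∈ s, I B a := by
    rcases h4 with h4 | h4
    · exact hkey _ h4 (Or.inl rfl)
    · have h5 := hkey _ h4 (Or.inr rfl)
      rwa [hI2] at h5
  omega

end TorM
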