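import Pool.Agent.Lib.MP_05cdf2_gt.M.Std
import Pool.Agent.Lib.MP_05cdf2_gt.K.Step
import Pool.Agent.Lib.MP_05cdf2_gt.K.ListEx

/-! MP_05cdf2_gt, stream K, job Fill: the complex of filling systems is exact (contractible).

`Kf g` = lists of finite subsets of `F g`, each of them generates `F g`, and the union of all is a system.
`kf_sub`: closed under sublists. `kf_step`: the step condition of `flow_exact` for `pr B`, `st B`:
let `l = l₁ ++ s :: l₂ ∈ Kf`, `pr B s ≠ ⊤`, `pr B s ≤ pr B s'` for all `s'` in `l`. Take `(k, u, w)` from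
`exists_first`; `X = ⋃ s' ∈ l, s'`. By `isFirst_of_le`, `IsFirst X B[k] u w`; by `surgery` (`hB` gives `U τ τ`),
`insert u (insert w X)` is a system. `st B s = cut s u w ⊆ insert u (insert w X)` (`st_eq`), so the union of the lists
`l₁ ++ s :: st B s :: l₂` is contained in `insert u (insert w X)`; `st B s` generates by `closure_st`.
`fill_exact`: `flow_exact` with `B = (B0 g).toList`, `μ = mu B` (`mu_st`), `b = B0 g`: if all priorities in `l ∈ Kf` are
`⊤` then `B0 g :: l ∈ Kf` by `U_of_pr_top`, `sys_B0`, `closure_B0`.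
-/

set_option autoImplicit false

namespace TorM
open Finsupp

variable {g : ℕ}

/-- lists of filling systems with unlinked union -/
def Kf (g : ℕ) : Set (List (Finset (F g))) :=
  {l | (∀ s ∈ l, Subgroup.closure (s : Set (F g)) = ⊤) ∧ Sys {a : F g | ∃ s ∈ l, a ∈ s}}

theorem kf_sub : ∀ l ∈ Kf g, ∀ l' : List (Finset (F g)), l'.Sublist l → l' ∈ Kf g := by
  rintro l ⟨h1, h2⟩ l' hl
  refine ⟨fun s hs => h1 s (hl.subset hs), Sys.mono ?_ h2⟩
  rintro a ⟨s, hs, ha⟩
  exact ⟨s, hl.subset hs, ha⟩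

theorem kf_step (B : List (F g)) (hB : Sys {τ | τ ∈ B}) (l₁ : List (Finset (F g)))
    (s : Finset (F g)) (l₂ : List (Finset (F g))) (h : l₁ ++ s :: l₂ ∈ Kf g) (hs : pr B s ≠ ⊤)
    (h₁ : ∀ w ∈ l₁, pr B s < pr B w) (h₂ : ∀ w ∈ l₂, pr B s ≤ pr B w) :
    l₁ ++ s :: st B s :: l₂ ∈ Kf g := by
  obtain ⟨hgen, hsys⟩ := h
  obtain ⟨k, u, w, hk, hpr, h1, h2, h3, h4⟩ := exists_first hs
  have hle : ∀ s' ∈ l₁ ++ s :: l₂, pr B s ≤ pr B s' := by
    intro s' hs'
    rw [List.mem_append, List.mem_cons] at hs'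
    rcases hs' with hs' | rfl | hs'
    · exact (h₁ s' hs').le
    · exact le_rfl
    · exact h₂ s' hs'
  have hfirst : IsFirst {a : F g | ∃ s' ∈ l₁ ++ s :: l₂, a ∈ s'} B[k] u w := by
    refine isFirst_of_le hk hpr ?_ ?_ h1 h2 h3 h4
    · intro u' w' hch
      rcases hch with ⟨s', hs', ha⟩ | ⟨s', hs', ha⟩
      · exact ⟨s', Or.inl ha, hle s' hs'⟩
      · exact ⟨s', Or.inr ha, hle s' hs'⟩
    · intro a ha
      refine ⟨s, ?_, ha⟩
      rw [List.mem_append, List.mem_cons]
      exact Or.inr (Or.inl rfl)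
  have hU : U B[k] B[k] := hB _ (List.getElem_mem hk) _ (List.getElem_mem hk)
  have hsys' := surgery hsys hU hfirst
  refine ⟨?_, Sys.mono ?_ hsys'⟩
  · intro s' hs'
    rw [List.mem_append, List.mem_cons, List.mem_cons] at hs'
    rcases hs' with hs' | rfl | rfl | hs'
    · refine hgen s' ?_
      rw [List.mem_append]
      exact Or.inl hs'
    · refine hgen s' ?_
      rw [List.mem_append, List.mem_cons]
      exact Or.inr (Or.inl rfl)
    · refine closure_st (hgen s ?_)
      rw [List.mem_append, List.mem_cons]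
      exact Or.inr (Or.inl rfl)
    · refine hgen s' ?_
      rw [List.mem_append, List.mem_cons]
      exact Or.inr (Or.inr hs')
  · rintro a ⟨s', hs', ha⟩
    rw [List.mem_append, List.mem_cons, List.mem_cons] at hs'
    rcases hs' with hs' | rfl | rfl | hs'
    · refine Or.inr (Or.inr ⟨s', ?_, ha⟩)
      rw [List.mem_append]
      exact Or.inl hs'
    · refine Or.inr (Or.inr ⟨s', ?_, ha⟩)
      rw [List.mem_append, List.mem_cons]
      exact Or.inr (Or.inl rfl)
    · rw [st_eq hpr] at ha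
      unfold cut at ha
      rw [Finset.mem_insert, Finset.mem_insert, Finset.mem_filter] at ha
      rcases ha with ha | ha | ha
      · exact Or.inl ha
      · exact Or.inr (Or.inl ha)
      · refine Or.inr (Or.inr ⟨s, ?_, ha.1⟩)
        rw [List.mem_append, List.mem_cons]
        exact Or.inr (Or.inl rfl)
    · refine Or.inr (Or.inr ⟨s', ?_, ha⟩)
      rw [List.mem_append, List.mem_cons]
      exact Or.inr (Or.inr hs')

theorem fill_exact (c : List (Finset (F g)) →₀ ℤ) (hc : (c.support : Set _) ⊆ Kf g)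
    (hdc : dL c = 0) : ∃ y : List (Finset (F g)) →₀ ℤ, (y.support : Set _) ⊆ Kf g ∧ dL y = c := by
  have hB : Sys {τ : F g | τ ∈ (B0 g).toList} := by
    refine Sys.mono ?_ (sys_B0 (g := g))
    intro a ha
    exact Finset.mem_coe.mpr (Finset.mem_toList.mp ha)
  refine flow_exact (pr (B0 g).toList) (st (B0 g).toList) (mu (B0 g).toList)
    (fun v hv => mu_st hB hv) (Kf g) kf_sub
    (fun l₁ v l₂ h h1 h2 h3 => kf_step _ hB l₁ v l₂ h h1 h2 h3) (B0 g) ?_ c hc hdc
  rintro l ⟨hgen, hsys⟩ htop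
  have hU : ∀ τ ∈ B0 g, ∀ s ∈ l, ∀ a ∈ s, U τ a := fun τ hτ s hs a ha =>
    U_of_pr_top (htop s hs) τ (Finset.mem_toList.mpr hτ) a ha
  refine ⟨?_, ?_⟩
  · intro s hs
    rw [List.mem_cons] at hs
    rcases hs with rfl | hs
    · exact closure_B0
    · exact hgen s hs
  · rintro a ⟨s, hs, ha⟩ b ⟨t, ht, hb⟩
    rw [List.mem_cons] at hs ht
    rcases hs with rfl | hs <;> rcases ht with rfl | ht
    · exact sys_B0 a ha b hb
    · exact hU a ha t ht b hb
    · exact (hU b hb s hs a ha).symm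
    · exact hsys a ⟨s, hs, ha⟩ b ⟨t, ht, hb⟩

end TorM
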