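import Pool.Agent.Lib.MP_05cdf2_gt.K.Bdw

/-! MP_05cdf2_gt, stream K, job Nbr: only finitely many elements are unlinked with an unlinked basis.

If `g = 0` then `F g` is trivial. Let `g ≥ 1`, so `ζ ≠ 1` (`one_lt_zeta`; `zeta_letter`). Let `w` be the reduced word of `ζ`
in the basis (`w = ((lift e)⁻¹ ζ).toWord`), `k = |w|`, `x j` = value of `w.take j`, `x 0 = 1`, `x k = ζ`.

(1) `all_letters`: every letter occurs in `w`. Let `Φ` be the set of letters of `w`.
 a. `Φ` is closed under inverse: for `i : Fin n` let `f : F g →* Multiplicative ℤ` be the composition of `(lift e)⁻¹`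
    with the map `i ↦ 1`, other generators `↦ 0`; `f ζ = 1` by `map_zeta`, so `(i, true)` and `(i, false)` occur the
    same number of times in `w`.
 b. The head of `w` is the smallest letter (`bdw_first`).
 c. If `c ∈ Φ` is not the largest letter then the next larger letter is in `Φ`: the inverse `c'` of `c` is in `Φ`,
    `w = w₁ ++ c' :: w₂`; if `w₂ = []` then by `bdw_last` `ev l ≤ (ev c')⁻¹ = ev c` for all `l`; so `w₂ = b :: w₃`, and by
    `bdw_next` `b` is the next letter after `(ev c')⁻¹ = ev c`.
 So all letters are in `Φ`: otherwise take the smallest letter not in `Φ` and its predecessor.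

(2) `verts`: `1 < x k < ... < x 2 < x 1`, i.e. `x j < x i` for `1 ≤ i < j ≤ k`. By (1) `k ≥ 2` (`n ≥ 1` because `F g` is
 nontrivial, and `w` contains both `(i, true)` and `(i, false)`). The closed polygon with `k + 1 ≥ 3` vertices
 `X j = x (j % (k + 1))`: the vertices are distinct (reduced words `w.take j`), the sides `{x j, x (j+1)}`,
 `j < k`, are chords of `range e`, and the last side `{ζ, 1}` crosses nothing because there is no element in `(1, ζ)`
 (`zeta_le`). So by `convex` either `Cyc ζ 1 (x j)` for `0 < j < k`, which gives `1 < x j < ζ`, impossible; or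
 `Cyc (X (i+1)) (X i) (X j)` for all `i + 1 < j < i + k + 1`. Taking for `j` the vertex `1` we get `1 < x (i+1) < x i` for
 `1 ≤ i < k`.

(3) Let `U (e i) b` for all `i`; then the lifts of `b` do not cross chords of `range e` (`U_iff_ch`). Claim:
 `b = (x j)⁻¹ * x i` for some `i, j ≤ k` (finitely many). We may assume `b ≠ 1`.
 Case A: `b < ev l` for all letters `l`. Put `j = 0`, `z = b`: `1 < z < x 1`.
 Case B: let `c` be the largest letter with `ev c ≤ b`. The inverse `c'` of `c` occurs: `w = w₁ ++ c' :: w₂`, put
 `j = |w₁| + 1`, so `x (j-1) = x j * ev c`. Let `z = x j * b`. If `ev c = b` then `z = x (j-1)`, done. Otherwise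
 `Cyc 1 (ev c) b`, so `Cyc (x j) (x (j-1)) z` (`cyc_mul`). If `j < k`, `w₂ = d :: w₃`, `ev d` is the next letter after `ev c`
 (`bdw_next`), so `b < ev d` and `Cyc (x j) z (x (j+1))`.
 Suppose `z` is not one of `x 0, ..., x k`. `z < x k = ζ` is impossible (`zeta_le`). If `z > x 1`: `j ≠ 0` (Case A);
 `j ≠ 1` (`Cyc (x 1) (x 0) z` contradicts `x 1 < z`, as `x 0 = 1` is the minimum); so `1 < x j < x 1 < z` and `{x j, z}` crosses
 `{1, x 1}`, contradiction. Otherwise there is `i` with `1 ≤ i < k`, `x (i+1) < z < x i` (the last `i` with `z < x i`). If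
 `j ≠ i, i + 1` then `{x j, z}` crosses `{x (i+1), x i}`, contradiction. If `j = i` then `Cyc (x j) z (x (j+1))`
 contradicts `x (j+1) < z < x j`. If `j = i + 1` then `Cyc (x j) (x (j-1)) z` contradicts `x j < z < x (j-1)`.
 (All these are facts on finitely many points of a linear order: `unfold Cr Cyc at *; grind`.)
-/

set_option autoImplicit false

namespace TorM

variable {g : ℕ}

theorem nbr_ev_not {n : ℕ} (e : Fin n → F g) (i : Fin n) (b : Bool) :
    (ev e (i, b))⁻¹ = ev e (i, !b) := by
  cases b <;> simp [ev]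

theorem nbr_ev_inj {n : ℕ} {e : Fin n → F g} (he : UB e) {l m : Fin n × Bool}
    (h : ev e l = ev e m) : l = m := by
  have h1 : FreeGroup.lift e (FreeGroup.mk [l]) = FreeGroup.lift e (FreeGroup.mk [m]) := by
    rw [lift_mk_eq, lift_mk_eq]
    simp [h]
  have h2 := he.bij.1 h1
  have h3 := congrArg FreeGroup.toWord h2
  rw [FreeGroup.toWord_mk, FreeGroup.toWord_mk, FreeGroup.IsReduced.singleton.reduce_eq,
    FreeGroup.IsReduced.singleton.reduce_eq] at h3
  simpa using h3

theorem nbr_zeta_ne (hg : 0 < g) : (1 : F g) < zeta g :=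
  one_lt_zeta (x := FreeGroup.of (Sum.inl ⟨0, hg⟩)) (FreeGroup.of_ne_one _)

theorem nbr_ne_nil {n : ℕ} {e : Fin n → F g} {w : List (Fin n × Bool)}
    (hz : (w.map (ev e)).prod = zeta g) (hg : 0 < g) : w ≠ [] := by
  rintro rfl
  have h := nbr_zeta_ne hg
  rw [← hz] at h
  simp at h

theorem nbr_count {n : ℕ} {e : Fin n → F g} (he : UB e) {w : List (Fin n × Bool)}
    (hz : (w.map (ev e)).prod = zeta g) (i : Fin n) :
    w.count (i, true) = w.count (i, false) := by
  let φ : FreeGroup (Fin n) ≃* F g := MulEquiv.ofBijective (FreeGroup.lift e) he.bij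
  let ψ : FreeGroup (Fin n) →* Multiplicative ℤ :=
    FreeGroup.lift fun j => if j = i then Multiplicative.ofAdd (1 : ℤ) else 1
  have h1 : ψ (φ.symm (zeta g)) = 1 := map_zeta (ψ.comp φ.symm.toMonoidHom)
  have h2 : φ.symm (zeta g) = FreeGroup.mk w := by
    rw [MulEquiv.symm_apply_eq, ← hz, ← lift_mk_eq]
    rfl
  rw [h2] at h1
  have h3 : ∀ v : List (Fin n × Bool), ψ (FreeGroup.mk v) =
      Multiplicative.ofAdd ((v.count (i, true) : ℤ) - (v.count (i, false) : ℤ)) := by
    intro v
    induction v with
    | nil =>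
      rw [← FreeGroup.one_eq_mk, map_one]
      simp
    | cons a v ih =>
      have h4 : FreeGroup.mk (a :: v) = FreeGroup.mk [a] * FreeGroup.mk v := by
        rw [FreeGroup.mul_mk]
        rfl
      rw [h4, map_mul, ih]
      obtain ⟨j, b⟩ := a
      have h5 : ψ (FreeGroup.mk [(j, b)]) =
          if j = i then Multiplicative.ofAdd (if b then (1 : ℤ) else -1) else 1 := by
        show FreeGroup.lift _ (FreeGroup.mk [(j, b)]) = _
        rw [FreeGroup.lift_mk]
        by_cases hj : j = i <;> cases b <;> simp [hj]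
      rw [h5]
      by_cases hj : j = i
      · subst hj
        cases b
        · simp only [if_true, Bool.false_eq_true, if_false, List.count_cons_self, ← ofAdd_add]
          rw [List.count_cons_of_ne (by simp)]
          congr 1
          push_cast
          ring
        · simp only [if_true, List.count_cons_self, ← ofAdd_add]
          rw [List.count_cons_of_ne (by simp)]
          congr 1
          push_cast
          ring
      · rw [if_neg hj, one_mul, List.count_cons_of_ne (by simp [hj]),
          List.count_cons_of_ne (by simp [hj])]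
  rw [h3, ofAdd_eq_one] at h1
  omega

theorem nbr_mem_not {n : ℕ} {e : Fin n → F g} (he : UB e) {w : List (Fin n × Bool)}
    (hz : (w.map (ev e)).prod = zeta g) {i : Fin n} {b : Bool} (h : (i, b) ∈ w) :
    (i, !b) ∈ w := by
  have h1 := nbr_count he hz i
  rw [← List.count_pos_iff] at h ⊢
  cases b
  · show 0 < w.count (i, true)
    omega
  · show 0 < w.count (i, false)
    omega

theorem all_letters {n : ℕ} {e : Fin n → F g} (he : UB e) {w : List (Fin n × Bool)}
    (hw : FreeGroup.IsReduced w) (hz : (w.map (ev e)).prod = zeta g) (hg : 0 < g)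
    (l : Fin n × Bool) : l ∈ w := by
  by_contra hl
  obtain ⟨a, w', rfl⟩ := List.exists_cons_of_ne_nil (nbr_ne_nil hz hg)
  have hfirst := bdw_first he hw hz
  obtain ⟨l0, hl0, hmin⟩ := Finset.exists_min_image
    (Finset.univ.filter fun l : Fin n × Bool => l ∉ a :: w') (ev e) ⟨l, by simpa using hl⟩
  have hl0' : l0 ∉ a :: w' := (Finset.mem_filter.mp hl0).2
  have hal0 : ev e a < ev e l0 := by
    refine lt_of_le_of_ne (hfirst l0) fun h => hl0' ?_
    rw [← nbr_ev_inj he h]
    exact List.mem_cons_self
  obtain ⟨c, hc, hmax⟩ := Finset.exists_max_image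
    (Finset.univ.filter fun l : Fin n × Bool => ev e l < ev e l0) (ev e) ⟨a, by simpa using hal0⟩
  have hc' : ev e c < ev e l0 := (Finset.mem_filter.mp hc).2
  have hcw : c ∈ a :: w' := by
    by_contra h
    exact absurd (hmin c (Finset.mem_filter.mpr ⟨Finset.mem_univ _, h⟩)) (not_le.mpr hc')
  obtain ⟨i, b⟩ := c
  have hcw' := nbr_mem_not he hz hcw
  have hinv : (ev e (i, !b))⁻¹ = ev e (i, b) := by
    rw [nbr_ev_not, Bool.not_not]
  obtain ⟨w₁, w₂, hsplit⟩ := List.append_of_mem hcw'
  rw [hsplit] at hw hz
  rcases w₂ with _ | ⟨d, w₃⟩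
  · have h := bdw_last he hw hz l0
    rw [hinv] at h
    exact absurd h (not_le.mpr hc')
  · obtain ⟨h1, h2⟩ := bdw_next he hw hz
    rw [hinv] at h1 h2
    have h3 : ¬ ev e l0 < ev e d := fun h => h2 l0 ⟨hc', h⟩
    rcases lt_or_eq_of_le (not_lt.mp h3) with h4 | h4
    · exact absurd (hmax d (Finset.mem_filter.mpr ⟨Finset.mem_univ _, h4⟩)) (not_le.mpr h1)
    · apply hl0'
      rw [← nbr_ev_inj he h4, hsplit]
      simp

/-- values of the prefixes -/
def nbr_val {n : ℕ} (e : Fin n → F g) (w : List (Fin n × Bool)) (j : ℕ) : F g :=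
  ((w.take j).map (ev e)).prod

theorem nbr_val_zero {n : ℕ} (e : Fin n → F g) (w : List (Fin n × Bool)) :
    nbr_val e w 0 = 1 := by
  simp [nbr_val]

theorem nbr_val_succ {n : ℕ} (e : Fin n → F g) (w : List (Fin n × Bool)) {j : ℕ}
    (hj : j < w.length) : nbr_val e w (j + 1) = nbr_val e w j * ev e w[j] := by
  unfold nbr_val
  rw [List.take_succ_eq_append_getElem hj, List.map_append, List.prod_append]
  simp

theorem nbr_val_inj {n : ℕ} {e : Fin n → F g} (he : UB e) {w : List (Fin n × Bool)}
    (hw : FreeGroup.IsReduced w) {a b : ℕ} (ha : a ≤ w.length) (hb : b ≤ w.length)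
    (h : nbr_val e w a = nbr_val e w b) : a = b := by
  unfold nbr_val at h
  rw [← lift_mk_eq, ← lift_mk_eq] at h
  have h1 := congrArg FreeGroup.toWord (he.bij.1 h)
  rw [FreeGroup.toWord_mk, FreeGroup.toWord_mk,
    (redSub hw (List.take_prefix a w).isInfix).reduce_eq,
    (redSub hw (List.take_prefix b w).isInfix).reduce_eq] at h1
  have h2 := congrArg List.length h1
  rw [List.length_take, List.length_take] at h2
  omega

theorem nbr_val_ch {n : ℕ} (e : Fin n → F g) (w : List (Fin n × Bool)) {j : ℕ}
    (hj : j < w.length) : Ch (Set.range e) (nbr_val e w j) (nbr_val e w (j + 1)) := by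
  rw [nbr_val_succ e w hj]
  unfold Ch
  rw [inv_mul_cancel_left, mul_inv_rev, inv_mul_cancel_right]
  exact basis_ev_range e _

theorem nbr_length {n : ℕ} {e : Fin n → F g} (he : UB e) {w : List (Fin n × Bool)}
    (hw : FreeGroup.IsReduced w) (hz : (w.map (ev e)).prod = zeta g) (hg : 0 < g) :
    2 ≤ w.length := by
  obtain ⟨⟨i, b⟩, w', hw'⟩ := List.exists_cons_of_ne_nil (nbr_ne_nil hz hg)
  have h1 := all_letters he hw hz hg (i, !b)
  rcases w' with _ | ⟨c, w''⟩
  · rw [hw'] at h1
    simp at h1
  · rw [hw']
    simp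

theorem nbr_cr_zeta {a b : F g} : ¬ Cr (zeta g) 1 a b := by
  intro h
  have h1 := one_le a
  have h2 := one_le b
  have h3 := one_le (zeta g)
  have h4 : a ≠ 1 → zeta g ≤ a := zeta_le
  have h5 : b ≠ 1 → zeta g ≤ b := zeta_le
  unfold Cr Cyc at h
  grind

theorem verts {n : ℕ} {e : Fin n → F g} (he : UB e) {w : List (Fin n × Bool)}
    (hw : FreeGroup.IsReduced w) (hz : (w.map (ev e)).prod = zeta g) (hg : 0 < g) :
    2 ≤ w.length ∧ ∀ i j : ℕ, 1 ≤ i → i < j → j ≤ w.length →
      ((w.take j).map (ev e)).prod < ((w.take i).map (ev e)).prod := by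
  have hk := nbr_length he hw hz hg
  refine ⟨hk, ?_⟩
  change ∀ i j : ℕ, 1 ≤ i → i < j → j ≤ w.length → nbr_val e w j < nbr_val e w i
  have hzk : nbr_val e w w.length = zeta g := by
    unfold nbr_val
    rw [List.take_length, hz]
  set k := w.length with hkdef
  have hmod1 : ∀ i, i % (k + 1) < k → (i + 1) % (k + 1) = i % (k + 1) + 1 := by
    intro i hi
    rw [Nat.add_mod, Nat.mod_eq_of_lt (show 1 < k + 1 by omega)]
    exact Nat.mod_eq_of_lt (by omega)
  have hmod2 : ∀ i, ¬ i % (k + 1) < k → i % (k + 1) = k ∧ (i + 1) % (k + 1) = 0 := by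
    intro i hi
    have h1 : i % (k + 1) < k + 1 := Nat.mod_lt _ (by omega)
    have h2 : i % (k + 1) = k := by omega
    refine ⟨h2, ?_⟩
    rw [Nat.add_mod, Nat.mod_eq_of_lt (show 1 < k + 1 by omega), h2, Nat.mod_self]
  have hinj : ∀ i j, i < j → j < i + (k + 1) →
      nbr_val e w (i % (k + 1)) ≠ nbr_val e w (j % (k + 1)) := by
    intro i j hij hjk h
    have h1 : i % (k + 1) < k + 1 := Nat.mod_lt _ (by omega)
    have h2 : j % (k + 1) < k + 1 := Nat.mod_lt _ (by omega)
    have h3 := nbr_val_inj he hw (by omega) (by omega) h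
    have h4 := (Nat.modEq_iff_dvd' hij.le).mp h3
    have h5 := Nat.le_of_dvd (by omega) h4
    omega
  have hcr : ∀ i j, ¬ Cr (nbr_val e w (i % (k + 1))) (nbr_val e w ((i + 1) % (k + 1)))
      (nbr_val e w (j % (k + 1))) (nbr_val e w ((j + 1) % (k + 1))) := by
    intro i j
    by_cases hi : i % (k + 1) < k
    · by_cases hj : j % (k + 1) < k
      · rw [hmod1 i hi, hmod1 j hj]
        exact sys_iff_ch.mp he.sys _ _ _ _ (nbr_val_ch e w hi) (nbr_val_ch e w hj)
      · obtain ⟨h1, h2⟩ := hmod2 j hj
        rw [h1, h2, hzk, nbr_val_zero, cr_comm]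
        exact nbr_cr_zeta
    · obtain ⟨h1, h2⟩ := hmod2 i hi
      rw [h1, h2, hzk, nbr_val_zero]
      exact nbr_cr_zeta
  have hone : ∀ i, 1 ≤ i → i ≤ k → nbr_val e w i ≠ 1 := by
    intro i h1 h2 h3
    rw [← nbr_val_zero e w] at h3
    have := nbr_val_inj he hw h2 (by omega) h3
    omega
  have hstep : ∀ i, 1 ≤ i → i < k → nbr_val e w (i + 1) < nbr_val e w i := by
    rcases convex (k + 1) (by omega) (fun i => nbr_val e w (i % (k + 1))) (fun i => by simp)
      hinj hcr with h | h
    · exfalso
      have h1 := h k (k + 2) (by omega) (by omega)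
      have e1 : k % (k + 1) = k := Nat.mod_eq_of_lt (by omega)
      have e2 : (k + 1) % (k + 1) = 0 := Nat.mod_self _
      have e3 : (k + 2) % (k + 1) = 1 := by
        rw [show k + 2 = (k + 1) + 1 by ring, Nat.add_mod_left]
        exact Nat.mod_eq_of_lt (by omega)
      simp only [e1, e2, e3, hzk, nbr_val_zero] at h1
      have h2 := zeta_le (hone 1 le_rfl (by omega))
      have h3 := nbr_zeta_ne hg
      unfold Cyc at h1
      grind
    · intro i hi1 hik
      have h1 := h i (k + 1) (by omega) (by omega)
      have e1 : i % (k + 1) = i := Nat.mod_eq_of_lt (by omega)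
      have e2 : (k + 1) % (k + 1) = 0 := Nat.mod_self _
      have e3 : (i + 1) % (k + 1) = i + 1 := Nat.mod_eq_of_lt (by omega)
      simp only [e1, e2, e3, nbr_val_zero] at h1
      have h2 := one_le (nbr_val e w i)
      have h3 := one_le (nbr_val e w (i + 1))
      unfold Cyc at h1
      grind
  intro i j hi hij hjk
  induction j, hij using Nat.le_induction with
  | base => exact hstep i hi (by omega)
  | succ j hij ih => exact (hstep j (by omega) (by omega)).trans (ih (by omega))

theorem nbr_core {α : Type} [LinearOrder α] (x : ℕ → α) (k : ℕ) (hk : 2 ≤ k)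
    (h0 : ∀ i, 1 ≤ i → i ≤ k → x 0 < x i)
    (hx : ∀ i j, 1 ≤ i → i < j → j ≤ k → x j < x i) (z : α) (hz : x k < z)
    (hne : ∀ i, i ≤ k → z ≠ x i) (j : ℕ) (hj : j ≤ k)
    (h1 : 1 ≤ j → Cyc (x j) (x (j - 1)) z) (h2 : j < k → Cyc (x j) z (x (j + 1)))
    (hcr : ∀ i, i < k → ¬ Cr (x j) z (x i) (x (i + 1))) : False := by
  by_cases hz1 : x 1 < z
  · rcases Nat.lt_or_ge j 1 with hj1 | hj1
    · have hj0 : j = 0 := by omega
      subst hj0
      have h3 := h2 (by omega)
      have h4 := h0 1 le_rfl (by omega)
      rw [zero_add] at h3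
      unfold Cyc at h3
      grind
    · rcases Nat.lt_or_ge j 2 with hj2 | hj2
      · have hj0 : j = 1 := by omega
        subst hj0
        have h3 := h1 le_rfl
        have h4 := h0 1 le_rfl (by omega)
        rw [Nat.sub_self] at h3
        unfold Cyc at h3
        grind
      · have h3 := hcr 0 (by omega)
        have h4 := h0 j (by omega) hj
        have h5 := hx 1 j le_rfl (by omega) hj
        rw [zero_add] at h3
        apply h3
        unfold Cr Cyc
        grind
  · have hz1' : z < x 1 := lt_of_le_of_ne (not_lt.mp hz1) (hne 1 (by omega))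
    have hex : ∃ i, 1 ≤ i ∧ i < k ∧ x (i + 1) < z ∧ z < x i := by
      by_contra hcon
      push Not at hcon
      have : ∀ i, 1 ≤ i → i ≤ k → z < x i := by
        intro i hi
        induction i, hi using Nat.le_induction with
        | base => exact fun _ => hz1'
        | succ i hi ih =>
          intro hik
          have h3 := ih (by omega)
          by_contra h4
          have h5 : x (i + 1) < z := lt_of_le_of_ne (not_lt.mp h4) (hne (i + 1) hik).symm
          exact absurd (hcon i hi (by omega) h5) (not_le.mpr h3)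
      exact lt_asymm hz (this k (by omega) le_rfl)
    obtain ⟨i, hi1, hik, hi2, hi3⟩ := hex
    rcases lt_trichotomy j i with hji | hji | hji
    · apply hcr i hik
      rcases Nat.eq_zero_or_pos j with hj0 | hj0
      · subst hj0
        have h3 := h0 i hi1 (by omega)
        have h4 := h0 (i + 1) (by omega) (by omega)
        unfold Cr Cyc
        grind
      · have h3 := hx j i hj0 hji (by omega)
        unfold Cr Cyc
        grind
    · subst hji
      have h3 := h2 hik
      unfold Cyc at h3
      grind
    · rcases Nat.lt_or_ge (i + 1) j with hji2 | hji2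
      · apply hcr i hik
        have h3 := hx (i + 1) j (by omega) hji2 hj
        unfold Cr Cyc
        grind
      · have hj0 : j = i + 1 := by omega
        subst hj0
        have h3 := h1 (by omega)
        rw [Nat.add_sub_cancel] at h3
        unfold Cyc at h3
        grind

theorem nbr_finite {n : ℕ} {e : Fin n → F g} (he : UB e) : {b : F g | ∀ i, U (e i) b}.Finite := by
  rcases Nat.eq_zero_or_pos g with hg | hg
  · subst hg
    have : IsEmpty (Gen 0) := by
      unfold Gen
      infer_instance
    have : Subsingleton (F 0) := inferInstanceAs (Subsingleton (FreeGroup (Gen 0)))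
    exact Set.Subsingleton.finite fun a _ b _ => Subsingleton.elim a b
  · obtain ⟨u, hu⟩ := he.bij.2 (zeta g)
    have hw : FreeGroup.IsReduced u.toWord := FreeGroup.isReduced_toWord
    have hz : (u.toWord.map (ev e)).prod = zeta g := by
      rw [← lift_mk_eq, FreeGroup.mk_toWord, hu]
    generalize u.toWord = w at hw hz
    obtain ⟨hk, hvert⟩ := verts he hw hz hg
    change ∀ i j : ℕ, 1 ≤ i → i < j → j ≤ w.length → nbr_val e w j < nbr_val e w i at hvert
    have hzk : nbr_val e w w.length = zeta g := by
      unfold nbr_val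
      rw [List.take_length, hz]
    have hone : ∀ i, 1 ≤ i → i ≤ w.length → nbr_val e w 0 < nbr_val e w i := by
      intro i h1 h2
      rw [nbr_val_zero]
      refine one_lt fun h3 => ?_
      rw [← nbr_val_zero e w] at h3
      have := nbr_val_inj he hw h2 (by omega) h3
      omega
    refine Set.Finite.subset (((Finset.range (w.length + 1) ×ˢ Finset.range (w.length + 1)).image
      fun p : ℕ × ℕ => (nbr_val e w p.1)⁻¹ * nbr_val e w p.2).finite_toSet) ?_
    intro b hb
    have hb1 : ∀ x p q : F g, Ch (Set.range e) p q → ¬ Cr x (x * b) p q := by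
      rw [← U_iff_ch]
      rintro _ ⟨i, rfl⟩
      exact (hb i).symm
    have hfin : ∀ i j, i ≤ w.length → j ≤ w.length → nbr_val e w j * b = nbr_val e w i →
        b ∈ (((Finset.range (w.length + 1) ×ˢ Finset.range (w.length + 1)).image
      fun p : ℕ × ℕ => (nbr_val e w p.1)⁻¹ * nbr_val e w p.2 : Finset (F g)) : Set (F g)) := by
      intro i j hi hj h
      rw [Finset.mem_coe, Finset.mem_image]
      refine ⟨(j, i), ?_, ?_⟩
      · rw [Finset.mem_product, Finset.mem_range, Finset.mem_range]
        exact ⟨Nat.lt_succ_of_le hj, Nat.lt_succ_of_le hi⟩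
      · show (nbr_val e w j)⁻¹ * nbr_val e w i = b
        rw [← h, inv_mul_cancel_left]
    by_cases hbone : b = 1
    · exact hfin 0 0 (by omega) (by omega) (by rw [hbone, mul_one])
    by_contra hnot
    have hne : ∀ j, j ≤ w.length → ∀ i, i ≤ w.length → nbr_val e w j * b ≠ nbr_val e w i :=
      fun j hj i hi h => hnot (hfin i j hi hj h)
    have hzlt : ∀ j, j ≤ w.length → nbr_val e w w.length < nbr_val e w j * b := by
      intro j hj
      have h1 := hne j hj 0 (by omega)
      rw [nbr_val_zero] at h1
      have h2 := zeta_le h1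
      rw [← hzk] at h2
      exact lt_of_le_of_ne h2 (hne j hj _ le_rfl).symm
    have hfirst : nbr_val e w 1 = ev e w[0] := by
      have := nbr_val_succ e w (j := 0) (by omega)
      rw [nbr_val_zero, one_mul] at this
      exact this
    by_cases hA : ∀ l, b < ev e l
    · refine nbr_core (nbr_val e w) w.length hk hone hvert (nbr_val e w 0 * b)
        (hzlt 0 (by omega)) (fun i hi => hne 0 (by omega) i hi) 0 (by omega)
        (fun h => absurd h (by omega)) (fun _ => ?_)
        (fun i hi => hb1 _ _ _ (nbr_val_ch e w hi))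
      rw [zero_add, hfirst, nbr_val_zero, one_mul]
      left
      exact ⟨one_lt hbone, hA _⟩
    · push Not at hA
      obtain ⟨l, hl⟩ := hA
      obtain ⟨c, hc, hmax⟩ := Finset.exists_max_image
        (Finset.univ.filter fun l : Fin n × Bool => ev e l ≤ b) (ev e) ⟨l, by simpa using hl⟩
      have hc' : ev e c ≤ b := (Finset.mem_filter.mp hc).2
      obtain ⟨i, t⟩ := c
      have hmem : (i, !t) ∈ w := all_letters he hw hz hg _
      have hinv : (ev e (i, !t))⁻¹ = ev e (i, t) := by
        rw [nbr_ev_not, Bool.not_not]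
      obtain ⟨w₁, w₂, hsplit⟩ := List.append_of_mem hmem
      have hlen : w.length = w₁.length + 1 + w₂.length := by
        rw [hsplit, List.length_append, List.length_cons]
        ring
      have hget : w[w₁.length]'(by omega) = (i, !t) := by
        subst hsplit
        simp
      have hprev : nbr_val e w (w₁.length + 1) * ev e (i, t) = nbr_val e w w₁.length := by
        rw [nbr_val_succ e w (by omega), hget, ← hinv, mul_inv_cancel_right]
      have hcne : ev e (i, t) ≠ b := by
        intro h
        rw [h] at hprev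
        exact hne _ (by omega) _ (by omega) hprev
      have hclt : ev e (i, t) < b := lt_of_le_of_ne hc' hcne
      have hc1 : 1 < ev e (i, t) := by
        refine one_lt fun h => ?_
        rw [h, mul_one] at hprev
        have := nbr_val_inj he hw (by omega) (by omega) hprev
        omega
      refine nbr_core (nbr_val e w) w.length hk hone hvert (nbr_val e w (w₁.length + 1) * b)
        (hzlt _ (by omega)) (fun i hi => hne _ (by omega) i hi) (w₁.length + 1) (by omega)
        (fun _ => ?_) (fun hlt => ?_) (fun i hi => hb1 _ _ _ (nbr_val_ch e w hi))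
      · rw [Nat.add_sub_cancel, ← hprev]
        have h3 : Cyc (1 : F g) (ev e (i, t)) b := Or.inl ⟨hc1, hclt⟩
        have h4 := (cyc_mul (nbr_val e w (w₁.length + 1)) _ _ _).mpr h3
        rw [mul_one] at h4
        exact h4
      · rcases w₂ with _ | ⟨d, w₃⟩
        · rw [List.length_nil] at hlen
          omega
        · have hget2 : w[w₁.length + 1]'(by omega) = d := by
            subst hsplit
            simp
          have hw' := hw
          have hz' := hz
          rw [hsplit] at hw' hz'
          obtain ⟨h5, h6⟩ := bdw_next he hw' hz'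
          rw [hinv] at h5 h6
          have h7 : b < ev e d := by
            by_contra h8
            exact absurd (hmax d (Finset.mem_filter.mpr ⟨Finset.mem_univ _, not_lt.mp h8⟩))
              (not_le.mpr h5)
          rw [nbr_val_succ e w hlt, hget2]
          have h3 : Cyc (1 : F g) b (ev e d) := Or.inl ⟨hc1.trans hclt, h7⟩
          have h4 := (cyc_mul (nbr_val e w (w₁.length + 1)) _ _ _).mpr h3
          rw [mul_one] at h4
          exact h4

end TorM
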