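import Pool.Agent.Lib.MP_05cdf2_gt.M.Aut
import Pool.Agent.Lib.MP_05cdf2_gt.K.Nbr
import Pool.Agent.Lib.MP_05cdf2_gt.K.Fill

/-! MP_05cdf2_gt, stream K, job Reps: finitely many orbits of lists of filling systems.

`card_ub`: `Hom(F g, A) = A^(Gen g) = A^(Fin n)` for `A = Multiplicative (ZMod 2)` (`FreeGroup.lift` is an equivalence,
composition with the isomorphism `lift e`), so `2 ^ (2 g) = 2 ^ n`.
`ub_of_basis`: enumerate `t` by `t.equivFin` and transport along `card_ub`.
`reps_finite`: two bases `e, e'` with the same pattern `(l, m) ↦ (ev e l < ev e m)` (a function from the finite type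
`(Fin (2g) × Bool) × (Fin (2g) × Bool)` to `Prop`/`Bool`; finitely many functions) are related by an automorphism
fixing `ζ` (`same_pattern`). Choose one basis for each pattern which occurs.
`orbits_finite`: `n = 0`: `T = {[]}`. `n ≥ 1`: let `N r` be the finite set `nbr_finite` for `r ∈ R`, `N = ⋃ N r`, and
`T` = the lists of length `n` in `Kf g` with entries contained in `N` (finite: `List.finite_length_eq` over the
finite type of subsets of `N`, or image). Let `l ∈ Kf g` of length `n ≥ 1`, `s` its head. By `exists_basis` there is a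
basis `t ⊆ s`, by `ub_of_basis` and `reps_finite` `t = range (φ ∘ r)`, `r ∈ R`, `φ ζ = ζ`. Put
`l' = l.map (image φ⁻¹)`. It is in `Kf g` (`aut_Sys`; closure of the image), all its elements are unlinked with all
`r i` (`Sys`), so `l' ∈ T`, and `l'.map (image φ) = l`.
`stab_trivial`: let `φ ζ = ζ`, `l ∈ Kf g`, `l.map (image φ) = l`, `s` a member of `l`; then `s.image φ = s`, and `φ` is
strictly increasing (`aut_lt`), so it fixes every element of `s` (a strictly increasing bijection of a finite
linearly ordered set onto itself is the identity: e.g. `Finset` strong induction, or `x < φ x` gives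
`φ^[n] x ∈ s` strictly increasing), which generate `F g`.
-/

set_option autoImplicit false

namespace TorM

variable {g : ℕ}

theorem card_ub {n : ℕ} {e : Fin n → F g} (he : UB e) : n = 2 * g := by
  have h1 : Fin n ≃ Gen g := Equiv.ofFreeGroupEquiv (MulEquiv.ofBijective (FreeGroup.lift e) he.bij)
  have h2 := Fintype.card_congr h1
  rw [Fintype.card_fin, Fintype.card_sum, Fintype.card_fin] at h2
  omega

theorem reps_range (t : Finset (F g)) :
    Set.range (fun i => ((t.equivFin.symm i : t) : F g)) = (t : Set (F g)) := by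
  ext x
  constructor
  · rintro ⟨i, rfl⟩
    exact (t.equivFin.symm i).2
  · intro hx
    exact ⟨t.equivFin ⟨x, hx⟩, by simp⟩

theorem ub_of_basis {t : Finset (F g)} (ht : Sys (t : Set (F g)))
    (hc : Subgroup.closure (t : Set (F g)) = ⊤)
    (hi : Function.Injective (FreeGroup.lift fun a : t => (a : F g))) :
    ∃ e : Fin (2 * g) → F g, UB e ∧ Set.range e = (t : Set (F g)) := by
  have key : ∃ e : Fin t.card → F g, UB e ∧ Set.range e = (t : Set (F g)) := by
    refine ⟨fun i => ((t.equivFin.symm i : t) : F g), ⟨⟨?_, ?_⟩, ?_⟩, ?_⟩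
    · have h1 : (FreeGroup.lift fun i => ((t.equivFin.symm i : t) : F g)) =
          (FreeGroup.lift fun a : t => (a : F g)).comp
            (FreeGroup.map (fun i => t.equivFin.symm i)) := by
        apply FreeGroup.ext_hom
        intro i
        simp
      rw [h1, MonoidHom.coe_comp]
      exact hi.comp (FreeGroup.map_injective t.equivFin.symm.injective)
    · rw [← MonoidHom.range_eq_top, FreeGroup.range_lift_eq_closure, reps_range t, hc]
    · rw [reps_range t]
      exact ht
    · exact reps_range t
  obtain ⟨e, he, hr⟩ := key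
  have hn := card_ub he
  have hgen : ∀ n : ℕ, n = 2 * g → (∃ e : Fin n → F g, UB e ∧ Set.range e = (t : Set (F g))) →
      ∃ e : Fin (2 * g) → F g, UB e ∧ Set.range e = (t : Set (F g)) := by
    rintro n rfl h
    exact h
  exact hgen t.card hn ⟨e, he, hr⟩

theorem reps_finite (g : ℕ) : ∃ R : Set (Fin (2 * g) → F g), R.Finite ∧ (∀ r ∈ R, UB r) ∧
    ∀ e : Fin (2 * g) → F g, UB e → ∃ r ∈ R, ∃ φ : F g ≃* F g, φ (zeta g) = zeta g ∧
      ∀ i, φ (r i) = e i := by
  let pat : (Fin (2 * g) → F g) → (Fin (2 * g) × Bool → Fin (2 * g) × Bool → Prop) :=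
    fun e l m => ev e l < ev e m
  let P : Set (Fin (2 * g) × Bool → Fin (2 * g) × Bool → Prop) := {p | ∃ e, UB e ∧ pat e = p}
  have hPfin : Finite P := inferInstance
  have hch : ∀ p : P, ∃ e, UB e ∧ pat e = p.1 := fun p => p.2
  choose r hr using hch
  refine ⟨Set.range r, Set.finite_range r, ?_, ?_⟩
  · rintro _ ⟨p, rfl⟩
    exact (hr p).1
  · intro e he
    let p : P := ⟨pat e, e, he, rfl⟩
    refine ⟨r p, ⟨p, rfl⟩, ?_⟩
    have h1 : pat (r p) = pat e := (hr p).2
    refine same_pattern (hr p).1 he ?_
    intro l m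
    have h2 : (ev (r p) l < ev (r p) m) = (ev e l < ev e m) := congrFun (congrFun h1 l) m
    rw [h2]

theorem kf_map {l : List (Finset (F g))} (hl : l ∈ Kf g) (φ : F g ≃* F g)
    (hφ : φ (zeta g) = zeta g) : l.map (fun s => s.image φ) ∈ Kf g := by
  refine ⟨?_, ?_⟩
  · intro s hs
    rw [List.mem_map] at hs
    obtain ⟨s', hs', rfl⟩ := hs
    have h1 := hl.1 s' hs'
    rw [Finset.coe_image]
    have h2 : Subgroup.closure (φ '' (s' : Set (F g))) =
        (Subgroup.closure (s' : Set (F g))).map (φ : F g →* F g) := by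
      rw [MonoidHom.map_closure]
      rfl
    rw [h2, h1]
    exact Subgroup.map_top_of_surjective _ φ.surjective
  · have h1 : {a : F g | ∃ s ∈ l.map (fun s => s.image φ), a ∈ s} =
        φ '' {a : F g | ∃ s ∈ l, a ∈ s} := by
      ext a
      simp only [List.mem_map, Set.mem_ofPred_eq, Set.mem_image]
      constructor
      · rintro ⟨_, ⟨s', hs', rfl⟩, ha⟩
        rw [Finset.mem_image] at ha
        obtain ⟨b, hb, rfl⟩ := ha
        exact ⟨b, ⟨s', hs', hb⟩, rfl⟩
      · rintro ⟨b, ⟨s', hs', hb⟩, rfl⟩
        exact ⟨_, ⟨s', hs', rfl⟩, Finset.mem_image_of_mem _ hb⟩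
    rw [h1, aut_Sys φ hφ]
    exact hl.2

theorem orbits_finite (g n : ℕ) : ∃ T : Set (List (Finset (F g))), T.Finite ∧ T ⊆ Kf g ∧
    ∀ l ∈ Kf g, l.length = n → ∃ l' ∈ T, l'.length = n ∧ ∃ φ : F g ≃* F g,
      φ (zeta g) = zeta g ∧ l'.map (fun s => s.image φ) = l := by
  rcases Nat.eq_zero_or_pos n with hn | hn
  · refine ⟨{[]}, Set.finite_singleton _, ?_, ?_⟩
    · intro l hl
      rw [Set.mem_singleton_iff] at hl
      subst hl
      refine ⟨fun s hs => absurd hs List.not_mem_nil, ?_⟩
      rintro a ⟨s, hs, _⟩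
      exact absurd hs List.not_mem_nil
    · intro l hl hlen
      rw [hn] at hlen
      have h0 : l = [] := List.length_eq_zero_iff.mp hlen
      subst h0
      exact ⟨[], rfl, by rw [hn]; rfl, MulEquiv.refl _, rfl, rfl⟩
  · obtain ⟨R, hRfin, hRub, hR⟩ := reps_finite g
    have hN : (⋃ r ∈ R, {b : F g | ∀ i, U (r i) b}).Finite :=
      hRfin.biUnion fun r hr => nbr_finite (hRub r hr)
    refine ⟨{l | l ∈ Kf g ∧ l.length = n ∧ ∀ s ∈ l, s ⊆ hN.toFinset}, ?_, fun l hl => hl.1, ?_⟩
    · have hfin : ((fun l : List {s // s ∈ hN.toFinset.powerset} => l.map Subtype.val) ''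
          {l | l.length = n}).Finite := (List.finite_length_eq _ n).image _
      refine hfin.subset ?_
      rintro l ⟨-, hlen, hsub⟩
      have hpow : ∀ s ∈ l, s ∈ hN.toFinset.powerset := fun s hs => Finset.mem_powerset.mpr (hsub s hs)
      refine ⟨l.attach.map (fun s => (⟨s.1, hpow s.1 s.2⟩ :
        {s // s ∈ hN.toFinset.powerset})), ?_, ?_⟩
      · rw [Set.mem_ofPred_eq, List.length_map, List.length_attach, hlen]
      · show List.map Subtype.val (l.attach.map _) = l
        rw [List.map_map]
        exact List.attach_map_subtype_val l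
    · intro l hl hlen
      obtain ⟨s, hs⟩ : ∃ s, s ∈ l := by
        apply List.exists_mem_of_length_pos
        omega
      have hsub1 : (s : Set (F g)) ⊆ {a : F g | ∃ s ∈ l, a ∈ s} := by
        intro a ha
        exact ⟨s, hs, ha⟩
      have hsys : Sys (s : Set (F g)) := Sys.mono hsub1 hl.2
      obtain ⟨t, hts, htc, hti⟩ := exists_basis hsys (hl.1 s hs)
      obtain ⟨e, he, her⟩ := ub_of_basis (hsys.mono (Finset.coe_subset.mpr hts)) htc hti
      obtain ⟨r, hr, φ, hφ, hφr⟩ := hR e he
      have hφ' : φ.symm (zeta g) = zeta g := by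
        rw [MulEquiv.symm_apply_eq, hφ]
      refine ⟨l.map (fun s => s.image φ.symm), ⟨kf_map hl φ.symm hφ', ?_, ?_⟩, ?_, φ, hφ, ?_⟩
      · rw [List.length_map, hlen]
      · intro s' hs' b hb
        rw [List.mem_map] at hs'
        obtain ⟨s0, hs0, rfl⟩ := hs'
        rw [Finset.mem_image] at hb
        obtain ⟨b0, hb0, rfl⟩ := hb
        rw [Set.Finite.mem_toFinset, Set.mem_iUnion₂]
        refine ⟨r, hr, ?_⟩
        intro i
        rw [← aut_U φ hφ, hφr, MulEquiv.apply_symm_apply]
        have hei : e i ∈ t := by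
          have : e i ∈ Set.range e := ⟨i, rfl⟩
          rw [her] at this
          exact this
        exact hl.2 (e i) ⟨s, hs, hts hei⟩ b0 ⟨s0, hs0, hb0⟩
      · rw [List.length_map, hlen]
      · rw [List.map_map]
        have hid : ((fun s : Finset (F g) => s.image φ) ∘ fun s => s.image φ.symm) = id := by
          funext s
          show (s.image φ.symm).image φ = s
          rw [Finset.image_image]
          have : (φ : F g → F g) ∘ φ.symm = id := by
            funext x
            exact φ.apply_symm_apply x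
          rw [this, Finset.image_id]
        rw [hid, List.map_id]

theorem stab_trivial {l : List (Finset (F g))} (hl : l ∈ Kf g) (hne : l ≠ []) (φ : F g ≃* F g)
    (hφ : φ (zeta g) = zeta g) (h : l.map (fun s => s.image φ) = l) : ∀ x, φ x = x := by
  obtain ⟨s, l', rfl⟩ : ∃ s l', l = s :: l' := by
    cases l with
    | nil => exact absurd rfl hne
    | cons s l' => exact ⟨s, l', rfl⟩
  rw [List.map_cons, List.cons.injEq] at h
  have hs : s.image φ = s := h.1
  have hfix : ∀ x ∈ s, φ x = x := by
    by_contra hcon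
    push Not at hcon
    obtain ⟨x0, hx0, hx0'⟩ := hcon
    have hT : (s.filter (fun x => φ x ≠ x)).Nonempty := ⟨x0, Finset.mem_filter.mpr ⟨hx0, hx0'⟩⟩
    have hm := Finset.min'_mem _ hT
    set m := (s.filter (fun x => φ x ≠ x)).min' hT with hmdef
    rw [Finset.mem_filter] at hm
    have hlow : ∀ y ∈ s, y < m → φ y = y := by
      intro y hy hym
      by_contra hne'
      have := Finset.min'_le (s.filter (fun x => φ x ≠ x)) y (Finset.mem_filter.mpr ⟨hy, hne'⟩)
      exact absurd hym (not_lt.mpr this)
    rcases lt_trichotomy (φ m) m with h1 | h1 | h1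
    · have h2 : φ m ∈ s := by
        rw [← hs]
        exact Finset.mem_image_of_mem _ hm.1
      have h3 := hlow _ h2 h1
      exact hm.2 (φ.injective h3)
    · exact hm.2 h1
    · have h2 : m ∈ s.image φ := by
        rw [hs]
        exact hm.1
      rw [Finset.mem_image] at h2
      obtain ⟨m', hm', hmm⟩ := h2
      have h3 : m' < m := by
        rw [← aut_lt φ hφ, hmm]
        exact h1
      have h4 := hlow m' hm' h3
      rw [hmm] at h4
      exact absurd h3 (by rw [← h4]; exact lt_irrefl _)
  have hcl := hl.1 s List.mem_cons_self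
  have heq : (φ : F g →* F g) = MonoidHom.id (F g) :=
    MonoidHom.eq_of_eqOn_dense hcl (fun x hx => hfix x hx)
  intro x
  exact DFunLike.congr_fun heq x

end TorM
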