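import Pool.Agent.Lib.MP_05cdf2_gt.B.GrpB
import Pool.Agent.Lib.MP_05cdf2_gt.K.GList
import Pool.Agent.Lib.MP_05cdf2_gt.K.Reps

/-! MP_05cdf2_gt, stream K, job Gfp: `Gam g` is of type FP_infinity.

`gfp_of_subsingleton`: a trivial group is commutative and finitely generated (`Tor.GFP.of_comm`).
`gfp_gam`: `gfp_of_lists` with `V = Finset (F g)`, the action `φ • s = s.image φ` (`gamAct`), `K = Kf g`: `kf_sub`,
`kf_map`, `fill_exact`, `orbits_finite`, `stab_trivial` (the stabiliser is trivial, `MulEquiv.ext`).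
-/

set_option autoImplicit false

namespace TorM

variable {g : ℕ}

/-- the action of `Gam g` on finite subsets -/
@[reducible] def gamAct (g : ℕ) : MulAction (Gam g) (Finset (F g)) where
  smul φ s := s.image fun x => (φ : MulAut (F g)) x
  one_smul s := by
    show s.image (fun x => ((1 : Gam g) : MulAut (F g)) x) = s
    ext x
    simp
  mul_smul φ ψ s := by
    show s.image (fun x => ((φ * ψ : Gam g) : MulAut (F g)) x) =
      (s.image fun x => (ψ : MulAut (F g)) x).image fun x => (φ : MulAut (F g)) x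
    rw [Finset.image_image]
    rfl

theorem gfp_of_subsingleton (H : Type) [Group H] [Subsingleton H] : Tor.GFP H :=
  Tor.GFP.trivial H

theorem gfp_gam (g : ℕ) : Tor.GFP (Gam g) := by
  let _ := gamAct g
  refine gfp_of_lists (G := Gam g) (V := Finset (F g)) (Kf g) ?_ kf_sub ?_ fill_exact ?_ ?_
  · refine ⟨fun s hs => absurd hs List.not_mem_nil, ?_⟩
    rintro a ⟨s, hs, -⟩
    exact absurd hs List.not_mem_nil
  · intro a l hl
    exact kf_map hl (a : MulAut (F g)) a.2
  · intro n
    obtain ⟨T, hT, hTK, h⟩ := orbits_finite g n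
    refine ⟨T, hT, hTK, fun l hl hn => ?_⟩
    obtain ⟨l', hl', hn', φ, hφ, hφl⟩ := h l hl hn
    exact ⟨l', hl', hn', ⟨φ, hφ⟩, hφl⟩
  · intro l hl hne
    have : Subsingleton (lstab (Gam g) l) := by
      refine ⟨fun a b => ?_⟩
      have key : ∀ c : lstab (Gam g) l, ∀ x, ((c : Gam g) : MulAut (F g)) x = x := fun c =>
        stab_trivial hl hne ((c : Gam g) : MulAut (F g)) (c : Gam g).2 c.2
      apply Subtype.ext
      apply Subtype.ext
      apply MulEquiv.ext
      intro x
      rw [key a x, key b x]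
    exact gfp_of_subsingleton _

end TorM
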