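import Pool.Agent.Lib.MP_05cdf2_gt.M.Key
import Pool.Agent.Lib.MP_05cdf2_gt.K.Chord

/-! MP_05cdf2_gt, stream K, job Poly: closed polygons of non crossing chords are convex.

A closed polygon with `k ≥ 3` vertices is a `k`-periodic function `x : ℕ → α` with `x i ≠ x j` for
`i < j < i + k`.
`convex`: the sides do not cross. Fix `i`. For `i + 1 < j`, `j + 1 < i + k` the chord `{x j, x (j+1)}` does not cross
`{x i, x (i+1)}` and the four points are distinct, so `Cyc (x i) (x (i+1)) (x j) ↔ Cyc (x i) (x (i+1)) (x (j+1))`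
(`unfold Cr Cyc at *; grind`). Hence for all `j` with `i + 1 < j < i + k` the side is the same (compare with
`j = i + 2`). The side of `i` is the side of `i + 1`: `Cyc (x i) (x (i+1)) (x (i+2)) ↔
Cyc (x (i+1)) (x (i+2)) (x i)` and `x i = x (i + k)`, `i + 2 < i + k`. So all the sides are equal (induction).

`path_side`: the points of a path whose chords do not cross the chord `{p, q}` and whose vertices are different
from `p, q` are on the same side of `{p, q}`. Induction on `n`, `grind` in each step.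
-/

set_option autoImplicit false

namespace TorM

section
variable {α : Type} [LinearOrder α]

theorem poly_step {a b c d : α} (hac : a ≠ c) (had : a ≠ d)
    (hbc : b ≠ c) (hbd : b ≠ d) (h : ¬ Cr a b c d) : Cyc a b c ↔ Cyc a b d := by
  unfold Cr Cyc at *
  grind

theorem poly_total {a b c : α} (hab : a ≠ b) (hac : a ≠ c) (hbc : b ≠ c) (h : ¬ Cyc a b c) :
    Cyc b a c := by
  unfold Cyc at *
  grind

theorem poly_rot {a b c : α} : Cyc a b c ↔ Cyc b c a := by
  unfold Cyc
  tauto

theorem poly_path {p q c d : α} (h : ¬ Cr p q c d) (h1 : c ≠ p) (h2 : c ≠ q) (h3 : d ≠ p)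
    (h4 : d ≠ q) : Cyc p c q ↔ Cyc p d q := by
  unfold Cr Cyc at *
  grind

theorem convex (k : ℕ) (hk : 3 ≤ k) (x : ℕ → α) (hper : ∀ i, x (i + k) = x i)
    (hinj : ∀ i j, i < j → j < i + k → x i ≠ x j)
    (hcr : ∀ i j, ¬ Cr (x i) (x (i + 1)) (x j) (x (j + 1))) :
    (∀ i j, i + 1 < j → j < i + k → Cyc (x i) (x (i + 1)) (x j)) ∨
    (∀ i j, i + 1 < j → j < i + k → Cyc (x (i + 1)) (x i) (x j)) := by
  have side : ∀ i m, i + 2 + m < i + k →
      (Cyc (x i) (x (i + 1)) (x (i + 2 + m)) ↔ Cyc (x i) (x (i + 1)) (x (i + 2))) := by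
    intro i m
    induction m with
    | zero => intro _; rfl
    | succ m ih =>
      intro hm
      rw [← ih (by omega)]
      exact (poly_step (hinj i _ (by omega) (by omega)) (hinj i _ (by omega) (by omega))
        (hinj (i + 1) _ (by omega) (by omega)) (hinj (i + 1) _ (by omega) (by omega))
        (hcr i (i + 2 + m))).symm
  have next : ∀ i, Cyc (x (i + 1)) (x (i + 1 + 1)) (x (i + 1 + 2)) ↔
      Cyc (x i) (x (i + 1)) (x (i + 2)) := by
    intro i
    have h1 := side (i + 1) (k - 3) (by omega)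
    have h2 : i + 1 + 2 + (k - 3) = i + k := by omega
    rw [h2, hper] at h1
    rw [← h1]
    exact poly_rot.symm
  have all : ∀ i, Cyc (x i) (x (i + 1)) (x (i + 2)) ↔ Cyc (x 0) (x (0 + 1)) (x (0 + 2)) := by
    intro i
    induction i with
    | zero => rfl
    | succ i ih => exact (next i).trans ih
  have fin : ∀ i j, i + 1 < j → j < i + k →
      (Cyc (x i) (x (i + 1)) (x j) ↔ Cyc (x 0) (x (0 + 1)) (x (0 + 2))) := by
    intro i j h1 h2
    obtain ⟨m, rfl⟩ := Nat.exists_eq_add_of_le (show i + 2 ≤ j by omega)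
    exact (side i m h2).trans (all i)
  by_cases h0 : Cyc (x 0) (x (0 + 1)) (x (0 + 2))
  · left
    intro i j h1 h2
    exact (fin i j h1 h2).2 h0
  · right
    intro i j h1 h2
    exact poly_total (hinj i _ (by omega) (by omega)) (hinj i j (by omega) h2)
      (hinj (i + 1) j h1 (by omega)) fun h => h0 ((fin i j h1 h2).1 h)

theorem path_side {p q : α} (y : ℕ → α) (n : ℕ) (h : ∀ i, i < n → ¬ Cr p q (y i) (y (i + 1)))
    (hp : ∀ i, i ≤ n → y i ≠ p) (hq : ∀ i, i ≤ n → y i ≠ q) : Cyc p (y 0) q ↔ Cyc p (y n) q := by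
  induction n with
  | zero => rfl
  | succ n ih =>
    refine (ih (fun i hi => h i (by omega)) (fun i hi => hp i (by omega))
      (fun i hi => hq i (by omega))).trans ?_
    exact poly_path (h n (by omega)) (hp n (by omega)) (hq n (by omega)) (hp (n + 1) le_rfl)
      (hq (n + 1) le_rfl)

end

end TorM
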