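import Pool.Agent.Lib.MP_05cdf2_gt.K.Cycle

/-! MP_05cdf2_gt, stream K, job Basis: cycles and relations; every unlinked finite generating set contains a basis.

`ev e l` = the element `e i` or its inverse.
`no_cycle`: if `e : ι → F g` is free (`FreeGroup.lift e` injective) there is no closed polygon with `k ≥ 3` vertices in the
Cayley graph of `range e`. Let `x` be one, write `(x i)⁻¹ * x (i+1) = ev e (l i)` with letters `l i`; the word
`l 0, ..., l (k-1)` has value `1`, length `k ≥ 3`, and is reduced: if `l (i+1)` is the inverse of `l i` then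
`x (i+2) = x i`, contradiction. So it is a nontrivial reduced word in the kernel.
`exists_cycle`: `e` injective (as a function), `e i ≠ 1`, `e i ≠ (e j)⁻¹` for all `i, j`, and `FreeGroup.lift e` not injective.
Take a nonempty reduced word `l 0, ..., l (k-1)` of minimal length `k` with value `1` (`FreeGroup.toWord` of a nontrivial
element of the kernel). `k ≠ 1` as `e i ≠ 1`; `k ≠ 2`: `ev (l 0) ev (l 1) = 1` means `ev (l 1) = (ev (l 0))⁻¹`, so
`l 1` is the inverse letter of `l 0` (`ev e` is injective on letters by the assumptions), not reduced. So `k ≥ 3`. Let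
`x i` = value of the first `i % k` letters. `x i ≠ x j` for `i < j < i + k`: reduce to `0 ≤ i < j < k` (or `j = k`...;
two different residues): the subword from `i` to `j` is nonempty, reduced, has value `1` and length `< k`.
`exists_basis`: let `t ⊆ s` have minimal cardinality among the subsets with closure `⊤`. No element `a ∈ t` is in
`closure (t \ {a})`. So `1 ∉ t`; and `a ∈ t`, `a⁻¹ ∈ t` implies `a = a⁻¹` (else redundant), `a² = 1`, `a = 1`, impossible.
If `FreeGroup.lift` of the inclusion of `t` were not injective, `exists_cycle` gives a cycle; take one with minimal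
`k ≥ 3` (`Nat.find`) and apply `cycle_redundant` (`Sys t` by `Sys.mono`): contradiction.
-/

set_option autoImplicit false

namespace TorM

variable {g : ℕ}

/-- value of a letter -/
def ev {ι : Type} (e : ι → F g) (l : ι × Bool) : F g := if l.2 then e l.1 else (e l.1)⁻¹

theorem lift_mk_eq {ι : Type} (e : ι → F g) (w : List (ι × Bool)) :
    FreeGroup.lift e (FreeGroup.mk w) = (w.map (ev e)).prod := by
  rw [FreeGroup.lift_mk]
  congr 1
  refine List.map_congr_left ?_
  rintro ⟨i, b⟩ -
  cases b <;> simp [ev]

theorem basis_ev_range {ι : Type} (e : ι → F g) (l : ι × Bool) :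
    ev e l ∈ Set.range e ∨ (ev e l)⁻¹ ∈ Set.range e := by
  obtain ⟨i, b⟩ := l
  cases b
  · right
    exact ⟨i, by simp [ev]⟩
  · left
    exact ⟨i, by simp [ev]⟩

theorem basis_ev_not {ι : Type} (e : ι → F g) (i : ι) (b : Bool) :
    ev e (i, b) * ev e (i, !b) = 1 := by
  cases b <;> simp [ev]

theorem basis_ch {ι : Type} (e : ι → F g) {p q : F g} (h : Ch (Set.range e) p q) :
    ∃ l : ι × Bool, ev e l = p⁻¹ * q := by
  rcases h with ⟨i, hi⟩ | ⟨i, hi⟩
  · exact ⟨(i, true), by simp [ev, hi]⟩
  · refine ⟨(i, false), ?_⟩
    simp [ev, hi]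

theorem no_cycle {ι : Type} (e : ι → F g) (he : Function.Injective (FreeGroup.lift e)) (k : ℕ)
    (hk : 3 ≤ k) (x : ℕ → F g) : ¬ IsCycle (Set.range e) k x := by
  intro hx
  have hl : ∀ i, ∃ l : ι × Bool, ev e l = (x i)⁻¹ * x (i + 1) := fun i => basis_ch e (hx.ch i)
  choose l hl using hl
  have hprod : ∀ n, (((List.range n).map l).map (ev e)).prod = (x 0)⁻¹ * x n := by
    intro n
    induction n with
    | zero => simp
    | succ n ih =>
      rw [List.range_succ, List.map_append, List.map_append, List.prod_append, ih]
      simp [hl, mul_assoc]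
  have h1 : FreeGroup.lift e (FreeGroup.mk ((List.range k).map l)) = 1 := by
    rw [lift_mk_eq, hprod]
    have := hx.per 0
    rw [zero_add] at this
    rw [this, inv_mul_cancel]
  have h2 : FreeGroup.mk ((List.range k).map l) = 1 := by
    apply he
    rw [h1, map_one]
  have h3 : FreeGroup.IsReduced ((List.range k).map l) := by
    unfold FreeGroup.IsReduced
    rw [List.isChain_iff_getElem]
    intro i hi
    simp only [List.getElem_map, List.getElem_range]
    intro hfst
    by_contra hsnd
    have h4 : l (i + 1) = ((l i).1, !(l i).2) := by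
      refine Prod.ext hfst.symm ?_
      revert hsnd
      cases (l i).2 <;> cases (l (i + 1)).2 <;> simp
    have h5 := basis_ev_not e (l i).1 (l i).2
    rw [← h4] at h5
    have h6 : ev e (l i) * ev e (l (i + 1)) = 1 := h5
    rw [hl, hl, mul_assoc, mul_inv_cancel_left, inv_mul_eq_one] at h6
    exact hx.inj i (i + 2) (by omega) (by omega) h6
  classical
  have h4 := h3.reduce_eq
  rw [← FreeGroup.toWord_mk, h2, FreeGroup.toWord_one] at h4
  have h5 := congrArg List.length h4
  simp at h5
  omega

theorem exists_cycle {ι : Type} [DecidableEq ι] (e : ι → F g) (h1 : ∀ i, e i ≠ 1)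
    (h2 : ∀ i j, e i ≠ (e j)⁻¹) (h3 : Function.Injective e)
    (he : ¬ Function.Injective (FreeGroup.lift e)) :
    ∃ k, 3 ≤ k ∧ ∃ x : ℕ → F g, IsCycle (Set.range e) k x := by
  have hex : ∃ n, ∃ w : List (ι × Bool), w.length = n ∧ FreeGroup.IsReduced w ∧ w ≠ [] ∧
      (w.map (ev e)).prod = 1 := by
    rw [injective_iff_map_eq_one] at he
    push Not at he
    obtain ⟨a, ha1, ha2⟩ := he
    refine ⟨_, a.toWord, rfl, FreeGroup.isReduced_toWord, ?_, ?_⟩
    · intro h
      exact ha2 (FreeGroup.toWord_eq_nil_iff.mp h)
    · rw [← lift_mk_eq, FreeGroup.mk_toWord, ha1]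
  classical
  obtain ⟨w, hwl, hwr, hwn, hw1⟩ := Nat.find_spec hex
  have hmin := fun m (hm : m < Nat.find hex) => Nat.find_min hex hm
  generalize Nat.find hex = k at hwl hmin
  have hmin' : ∀ v : List (ι × Bool), v.length < k → FreeGroup.IsReduced v →
      (v.map (ev e)).prod = 1 → v = [] := by
    intro v hv1 hv2 hv3
    by_contra hv4
    exact hmin _ hv1 ⟨v, rfl, hv2, hv4, hv3⟩
  have hk0 : k ≠ 0 := by
    rintro rfl
    exact hwn (List.length_eq_zero_iff.mp hwl)
  have hk1 : k ≠ 1 := by
    rintro rfl
    obtain ⟨⟨i, b⟩, rfl⟩ := List.length_eq_one_iff.mp hwl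
    have := h1 i
    cases b <;> simp [ev] at hw1 <;> exact this hw1
  have hk2 : k ≠ 2 := by
    rintro rfl
    obtain ⟨⟨i, b⟩, ⟨j, c⟩, rfl⟩ := List.length_eq_two.mp hwl
    rw [FreeGroup.isReduced_cons_cons] at hwr
    have hr := hwr.1
    simp only at hr
    simp only [List.map_cons, List.map_nil, List.prod_cons, List.prod_nil, mul_one] at hw1
    cases b <;> cases c <;> simp only [ev, if_true, if_false, Bool.false_eq_true] at hw1 hr
    · rw [mul_eq_one_iff_eq_inv, _root_.inv_inv] at hw1
      exact h2 j i hw1.symm
    · rw [inv_mul_eq_one] at hw1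
      exact absurd (hr (h3 hw1)) (by simp)
    · rw [mul_inv_eq_one] at hw1
      exact absurd (hr (h3 hw1)) (by simp)
    · rw [mul_eq_one_iff_eq_inv] at hw1
      exact h2 i j hw1
  have hk : 3 ≤ k := by omega
  refine ⟨k, hk, fun i => ((w.take (i % k)).map (ev e)).prod, ?_, ?_, ?_⟩
  · intro i
    simp
  · have key : ∀ a b, a < b → b < k → ((w.take a).map (ev e)).prod ≠ ((w.take b).map (ev e)).prod := by
      intro a b hab hb heq
      have h4 : w.take b = w.take a ++ (w.drop a).take (b - a) := by
        rw [← List.take_add]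
        congr 1
        omega
      rw [h4, List.map_append, List.prod_append] at heq
      have h5 : (((w.drop a).take (b - a)).map (ev e)).prod = 1 := by
        have := heq
        simpa using this
      have h6 : ((w.drop a).take (b - a)).length = b - a := by
        rw [List.length_take, List.length_drop]
        omega
      have h7 := hmin' _ (by rw [h6]; omega) (redSub hwr ?_) h5
      · rw [h7] at h6
        simp at h6
        omega
      · exact (List.take_prefix _ _).isInfix.trans (List.drop_suffix _ _).isInfix
    intro i j hij hjk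
    have hkpos : 0 < k := by omega
    have hne : i % k ≠ j % k := by
      intro h
      have h8 := (Nat.modEq_iff_dvd' hij.le).mp h
      have h9 := Nat.le_of_dvd (by omega) h8
      omega
    rcases lt_or_gt_of_ne hne with h | h
    · exact key _ _ h (Nat.mod_lt _ hkpos)
    · exact (key _ _ h (Nat.mod_lt _ hkpos)).symm
  · intro i
    have hkpos : 0 < k := by omega
    have hlt : i % k < k := Nat.mod_lt _ hkpos
    have hlt' : i % k < w.length := by omega
    have hstep : ((w.take (i % k + 1)).map (ev e)).prod =
        ((w.take (i % k)).map (ev e)).prod * ev e w[i % k] := by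
      rw [List.take_succ_eq_append_getElem hlt', List.map_append, List.prod_append]
      simp
    have hnext : ((w.take ((i + 1) % k)).map (ev e)).prod =
        ((w.take (i % k + 1)).map (ev e)).prod := by
      by_cases h : i % k + 1 < k
      · have : (i + 1) % k = i % k + 1 := by
          rw [Nat.add_mod, Nat.mod_eq_of_lt (show 1 < k by omega)]
          exact Nat.mod_eq_of_lt h
        rw [this]
      · have h' : i % k + 1 = k := by omega
        have : (i + 1) % k = 0 := by
          rw [Nat.add_mod, Nat.mod_eq_of_lt (show 1 < k by omega), h', Nat.mod_self]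
        rw [this, h', ← hwl, List.take_length, hw1]
        simp
    show Ch _ ((w.take (i % k)).map (ev e)).prod ((w.take ((i + 1) % k)).map (ev e)).prod
    rw [hnext, hstep]
    unfold Ch
    rw [inv_mul_cancel_left, mul_inv_rev, inv_mul_cancel_right]
    exact basis_ev_range e _

theorem exists_basis {s : Finset (F g)} (hs : Sys (s : Set (F g)))
    (hc : Subgroup.closure (s : Set (F g)) = ⊤) :
    ∃ t ⊆ s, Subgroup.closure (t : Set (F g)) = ⊤ ∧
      Function.Injective (FreeGroup.lift fun a : t => (a : F g)) := by
  classical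
  obtain ⟨t, ht, hmin⟩ := Finset.exists_min_image
    (s.powerset.filter fun t : Finset (F g) => Subgroup.closure (t : Set (F g)) = ⊤)
    (Finset.card : Finset (F g) → ℕ)
    ⟨s, by simp [hc]⟩
  rw [Finset.mem_filter, Finset.mem_powerset] at ht
  obtain ⟨hts, htc⟩ := ht
  have hred : ∀ a ∈ t, a ∉ Subgroup.closure ((t : Set (F g)) \ {a}) := by
    intro a ha hcl
    have h1 : Subgroup.closure ((t.erase a : Finset (F g)) : Set (F g)) = ⊤ := by
      rw [Finset.coe_erase, eq_top_iff, ← htc, Subgroup.closure_le]
      intro b hb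
      by_cases hba : b = a
      · rw [hba]
        exact hcl
      · exact Subgroup.subset_closure ⟨hb, hba⟩
    have h2 := hmin (t.erase a) (by
      rw [Finset.mem_filter, Finset.mem_powerset]
      exact ⟨(Finset.erase_subset a t).trans hts, h1⟩)
    have h3 := Finset.card_erase_lt_of_mem ha
    omega
  refine ⟨t, hts, htc, ?_⟩
  by_contra hinj
  have hone : ∀ i : t, (i : F g) ≠ 1 := by
    intro i hi
    refine hred i i.2 ?_
    rw [hi]
    exact Subgroup.one_mem _
  have hinv : ∀ i j : t, (i : F g) ≠ (j : F g)⁻¹ := by
    intro i j hij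
    by_cases hs : (j : F g) = i
    · rw [hs] at hij
      have h4 : (i : F g) ^ 2 = 1 := by
        rw [pow_two]
        nth_rewrite 1 [hij]
        exact inv_mul_cancel _
      exact hone i ((pow_eq_one_iff_left (by norm_num)).mp h4)
    · refine hred i i.2 ?_
      have hmem : (j : F g) ∈ (t : Set (F g)) \ {(i : F g)} := ⟨j.2, hs⟩
      have h5 := Subgroup.inv_mem _ (Subgroup.subset_closure hmem)
      rwa [← hij] at h5
  have hex := exists_cycle (fun a : t => (a : F g)) hone hinv Subtype.val_injective hinj
  have hrange : Set.range (fun a : t => (a : F g)) = (t : Set (F g)) := by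
    simp
  rw [hrange] at hex
  have hspec := Nat.find_spec hex
  have hm := fun m (hm : m < Nat.find hex) => Nat.find_min hex hm
  obtain ⟨hk, x, hx⟩ := hspec
  obtain ⟨a, ha, hcl⟩ := cycle_redundant t.finite_toSet (hs.mono (Finset.coe_subset.mpr hts)) hk hx
    (fun k' h3 hlt hc' => absurd (And.intro h3 hc') (hm k' hlt))
  exact hred a ha hcl

end TorM
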