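import Pool.Agent.Lib.MP_05cdf2_gt.M.Zeta
import Pool.Agent.Lib.MP_05cdf2_gt.K.Basis

/-! MP_05cdf2_gt, stream K, job Bdw: the word of `ζ` in an unlinked basis is the boundary word of the pattern.

`UB e`: `e : Fin n → F g` is a basis (`FreeGroup.lift e` bijective) with unlinked values.
Let `w` be the reduced word with value `ζ` in the basis. Path: `x j` = value of the first `j` letters of `w`, `x 0 = 1`,
`x k = ζ`, `k = |w|`. TREE: two vertices of the Cayley graph of `range e` are joined by exactly one path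
without backtracking (`no_cycle`, or simply: the reduced word of `p⁻¹ q`).
SEPARATION (`bdw_side`): let `{p, q}` be a chord of `range e`, and let `u` be a list of letters (a path from `y` to
`y * value u`) all of whose vertices are different from `p` and `q`. Then `Cyc p y q ↔ Cyc p (y * value u) q`
(`path_side`, `sys_iff_ch`).

(i) `bdw_first`: if `w = a :: w'` then `ev a ≤ ev l` for every letter `l`. Suppose `ev l < ev a`. `ζ ≤ ev l` (`zeta_le`,
`ev l ≠ 1`). If `ζ = ev l` then the reduced word of `ζ` is `[l]`, so `w = [l]`, `a = l`, contradiction. So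
`1 < ζ < ev l < ev a`: the chord `{1, ev l}` separates `ζ` from `x 1 = ev a`. The path `x 1, ..., x k = ζ` does not meet `1`
(`x j` has the reduced word `w.take j`, nonempty) and does not meet `ev l` (word `[l] ≠ w.take j` as `a ≠ l`):
contradiction to SEPARATION.
(ii) `bdw_last`: if `w = w' ++ [a]` then `ev l ≤ ev (inverse of a)` for every letter `l`. Suppose
`ev l > (ev a)⁻¹`. Multiply by `ζ`: with `y = ζ * ev l`, `x (k-1) = ζ (ev a)⁻¹`: `Cyc ζ (x (k-1)) y`. If `y = 1` then
`ζ = (ev l)⁻¹`, so `w` is the one letter word inverse of `l` and `ev l = (ev a)⁻¹`, contradiction. So `y ≠ 1`,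
and as `ζ` is the successor of `1`: `Cyc ζ y 1`. The chord `{ζ, y}` separates `x (k-1)` from `1`, but the path
`x (k-1), ..., x 0 = 1` avoids `ζ` and `y` (reduced words: `x j = w.take j`, `y = w ++ [l]` with `l` not the inverse of `a`).
(iii) `bdw_next`: if `w = w₁ ++ a :: b :: w₂` then `(ev a)⁻¹ < ev b` and there is no letter `l` with
`(ev a)⁻¹ < ev l < ev b`. Let `x = value (w₁ ++ [a])`, `x⁻ = value w₁ = x (ev a)⁻¹`, `x⁺ = x ev b`. Both
`P⁻` = path from `x⁻` to `1` and `P⁺` = path from `x⁺` to `ζ` avoid `x`, and `P⁻, P⁺` are disjoint (reduced words: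
prefixes of `w` of length `≤ |w₁|`, resp. `≥ |w₁| + 2`).
First claim: `Cyc x x⁻ x⁺`. Suppose not, then `Cyc x x⁺ x⁻`. The chord `{x, x⁻}`: `x⁺` is on the side `Cyc x x⁺ x⁻`, so
`ζ` too: `Cyc x ζ x⁻` (SEPARATION for `P⁺`, which avoids `x` and `x⁻`). The chord `{x, x⁺}`: `x⁻` is not on the side
`Cyc x · x⁺`, so `1` neither: `Cyc x x⁺ 1`. (If `x⁻ = 1`, `Cyc x ζ 1` directly.) We want `Cyc x ζ 1`; then `x ∈ (1, ζ)`, more
precisely `Cyc 1 x ζ`, a contradiction as `ζ` is the successor of `1` (`zeta_le`). Show by induction along `P⁻` that every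
vertex `y` of `P⁻` satisfies `Cyc x ζ y`: it holds for `y = x⁻`; for consecutive `y, y'` of `P⁻` suppose `Cyc x ζ y`,
`Cyc x y' ζ`: then the chord `{y, y'}` separates `x` from `ζ`, hence from each vertex of the path `x, x⁺, ..., ζ`, which
avoids `y, y'`: contradiction (`path_side`). So `Cyc x ζ 1`.
Second claim: let `l` be a letter with `(ev a)⁻¹ < ev l < ev b`, `y = x ev l`: `Cyc x x⁻ y`, `Cyc x y x⁺`. The chord
`{x, y}` separates `x⁻` and `x⁺`; the paths `P⁻`, `P⁺` avoid `x` and `y` (`y` has the reduced word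
`w₁ ++ [a, l]`, `l ≠ b`, and `l` is not the inverse of `a`). So it separates `1` and `ζ`: `Cyc x 1 y` and `Cyc x y ζ`, which
gives `Cyc 1 y ζ`, contradiction.

`same_pattern`: two unlinked bases with the same order on letters: the words of `ζ` are equal. By (i) the first
letters are equal (`ev` is injective on letters; minimum), by (iii) the next letters are equal, and by (ii) and (iii)
they end at the same time (if `w = w₁ ++ [a]` and `w' = w₁ ++ a :: b :: w₂` then `ev (inverse of a)` is maximal for `e`
and smaller than `ev b` for `e'`). Then `φ = (lift e)⁻¹ then (lift e')` maps `ζ` to `ζ` and `e i` to `e' i`.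
-/

set_option autoImplicit false

namespace TorM

variable {g : ℕ}

/-- an unlinked basis -/
structure UB {n : ℕ} (e : Fin n → F g) : Prop where
  bij : Function.Bijective (FreeGroup.lift e)
  sys : Sys (Set.range e)

/-- value of a word -/
def bdwV {ι : Type} (e : ι → F g) (w : List (ι × Bool)) : F g := (w.map (ev e)).prod

/-- inverse letter -/
def bdwInv {ι : Type} (a : ι × Bool) : ι × Bool := (a.1, !a.2)

section
variable {ι : Type} (e : ι → F g)

theorem bdwV_nil : bdwV e [] = 1 := by
  simp [bdwV]

theorem bdwV_cons (a : ι × Bool) (w : List (ι × Bool)) :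
    bdwV e (a :: w) = ev e a * bdwV e w := by
  simp [bdwV]

theorem bdwV_append (u v : List (ι × Bool)) : bdwV e (u ++ v) = bdwV e u * bdwV e v := by
  simp [bdwV]

theorem bdwV_single (a : ι × Bool) : bdwV e [a] = ev e a := by
  simp [bdwV]

theorem bdw_ev_inv (a : ι × Bool) : ev e (bdwInv a) = (ev e a)⁻¹ := by
  obtain ⟨i, b⟩ := a
  cases b <;> simp [ev, bdwInv]

theorem bdw_ch (a : ι × Bool) (y : F g) : Ch (Set.range e) y (y * ev e a) := by
  obtain ⟨i, b⟩ := a
  cases b
  · right
    refine ⟨i, ?_⟩
    simp [ev]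
  · left
    refine ⟨i, ?_⟩
    simp [ev]

end

section
variable {ι : Type}

theorem bdw_red_snoc {w : List (ι × Bool)} {a l : ι × Bool} (hw : FreeGroup.IsReduced (w ++ [a]))
    (h : l ≠ bdwInv a) : FreeGroup.IsReduced (w ++ [a, l]) := by
  have h1 : FreeGroup.IsReduced ([a] ++ [l]) := by
    refine FreeGroup.isReduced_cons_cons.2 ⟨?_, FreeGroup.IsReduced.singleton⟩
    intro h2
    by_contra h3
    apply h
    obtain ⟨i, b⟩ := a
    obtain ⟨j, c⟩ := l
    simp only at h2 h3
    subst h2
    unfold bdwInv
    refine Prod.ext rfl ?_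
    revert h3
    cases b <;> cases c <;> simp
  have h2 := hw.append_overlap h1 (by simp)
  rw [List.append_assoc] at h2
  exact h2

theorem bdw_red_ne {w₁ w₂ : List (ι × Bool)} {a b : ι × Bool}
    (hw : FreeGroup.IsReduced (w₁ ++ a :: b :: w₂)) : b ≠ bdwInv a := by
  intro h
  have h1 : FreeGroup.IsReduced (a :: b :: w₂) := by
    refine redSub hw ⟨w₁, [], ?_⟩
    simp
  have h2 := (FreeGroup.isReduced_cons_cons.1 h1).1
  subst h
  have h3 := h2 rfl
  simp [bdwInv] at h3

end

variable {n : ℕ} {e : Fin n → F g}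

theorem bdw_inj (he : UB e) {u v : List (Fin n × Bool)} (hu : FreeGroup.IsReduced u)
    (hv : FreeGroup.IsReduced v) (h : bdwV e u = bdwV e v) : u = v := by
  unfold bdwV at h
  rw [← lift_mk_eq, ← lift_mk_eq] at h
  have h1 := congrArg FreeGroup.toWord (he.bij.1 h)
  rw [FreeGroup.toWord_mk, FreeGroup.toWord_mk, hu.reduce_eq, hv.reduce_eq] at h1
  exact h1

theorem bdw_ev_inj (he : UB e) {a b : Fin n × Bool} (h : ev e a = ev e b) : a = b := by
  rw [← bdwV_single, ← bdwV_single] at h
  have h1 := bdw_inj he FreeGroup.IsReduced.singleton FreeGroup.IsReduced.singleton h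
  simpa using h1

theorem bdw_ev_ne_one (he : UB e) (a : Fin n × Bool) : ev e a ≠ 1 := by
  intro h
  rw [← bdwV_single, ← bdwV_nil e] at h
  have h1 := bdw_inj he FreeGroup.IsReduced.singleton FreeGroup.IsReduced.nil h
  simp at h1

theorem bdw_side (he : Sys (Set.range e)) {p q : F g} (hpq : Ch (Set.range e) p q) :
    ∀ (u : List (Fin n × Bool)) (y : F g),
      (∀ v, v <+: u → y * bdwV e v ≠ p ∧ y * bdwV e v ≠ q) →
        (Cyc p y q ↔ Cyc p (y * bdwV e u) q)
  | [], y, _ => by rw [bdwV_nil, mul_one]
  | a :: t, y, h => by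
    have h0 := h [] List.nil_prefix
    have h1 := h [a] ⟨t, rfl⟩
    rw [bdwV_nil, mul_one] at h0
    rw [bdwV_single] at h1
    have hc := sys_iff_ch.1 he p q y (y * ev e a) hpq (bdw_ch e a y)
    have h2 := bdw_side he hpq t (y * ev e a) (fun v hv => by
      have h3 := h (a :: v) ((List.prefix_cons_inj a).2 hv)
      rw [bdwV_cons, ← mul_assoc] at h3
      exact h3)
    rw [bdwV_cons, ← mul_assoc, ← h2]
    obtain ⟨h01, h02⟩ := h0
    obtain ⟨h11, h12⟩ := h1
    clear h2 h
    generalize y * ev e a = z at *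
    unfold Cr Cyc at *
    grind

theorem bdw_first {n : ℕ} {e : Fin n → F g} (he : UB e) {a : Fin n × Bool}
    {w : List (Fin n × Bool)} (hw : FreeGroup.IsReduced (a :: w))
    (hz : ((a :: w).map (ev e)).prod = zeta g) (l : Fin n × Bool) : ev e a ≤ ev e l := by
  by_contra hlt
  rw [not_le] at hlt
  have hz' : bdwV e (a :: w) = zeta g := hz
  have hl1 := bdw_ev_ne_one he l
  have hal : a ≠ l := by
    rintro rfl
    exact lt_irrefl _ hlt
  have h1 : zeta g ≤ ev e l := zeta_le hl1
  have h2 : zeta g ≠ ev e l := by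
    intro h3
    rw [← hz', ← bdwV_single] at h3
    have h4 := bdw_inj he hw FreeGroup.IsReduced.singleton h3
    simp only [List.cons.injEq] at h4
    exact hal h4.1
  have h3 : zeta g < ev e l := lt_of_le_of_ne h1 h2
  have h4 : 1 < zeta g := one_lt_zeta hl1
  have hch : Ch (Set.range e) 1 (ev e l) := by
    have h5 := bdw_ch e l 1
    rw [one_mul] at h5
    exact h5
  have h5 := bdw_side he.sys hch w (ev e a) (fun v hv => by
    have hr : FreeGroup.IsReduced (a :: v) :=
      redSub hw (((List.prefix_cons_inj a).2 hv).isInfix)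
    rw [← bdwV_cons]
    constructor
    · intro h6
      rw [← bdwV_nil e] at h6
      have h7 := bdw_inj he hr FreeGroup.IsReduced.nil h6
      simp at h7
    · intro h6
      rw [← bdwV_single] at h6
      have h7 := bdw_inj he hr FreeGroup.IsReduced.singleton h6
      simp only [List.cons.injEq] at h7
      exact hal h7.1)
  rw [← bdwV_cons, hz'] at h5
  have h6 : Cyc 1 (zeta g) (ev e l) := Or.inl ⟨h4, h3⟩
  have h7 := h5.2 h6
  have h8 := one_le (ev e a)
  have h9 := one_le (ev e l)
  unfold Cyc at h7
  rcases h7 with ⟨h10, h11⟩ | ⟨h10, h11⟩ | ⟨h10, h11⟩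
  · exact absurd hlt (not_lt.2 h11.le)
  · exact absurd h11 (not_lt.2 h9)
  · exact absurd h10 (not_lt.2 h9)

theorem bdw_cyc_one {x y : F g} (hx : x ≠ 1) (h : x < y) : Cyc 1 x y := Or.inl ⟨one_lt hx, h⟩

theorem bdw_cyc_tr {x y z c : F g} (h : Cyc x y z) : Cyc (c * x) (c * y) (c * z) :=
  (cyc_mul c x y z).2 h

theorem bdw_last {n : ℕ} {e : Fin n → F g} (he : UB e) {a : Fin n × Bool}
    {w : List (Fin n × Bool)} (hw : FreeGroup.IsReduced (w ++ [a]))
    (hz : ((w ++ [a]).map (ev e)).prod = zeta g) (l : Fin n × Bool) : ev e l ≤ (ev e a)⁻¹ := by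
  by_contra hlt
  rw [not_le] at hlt
  have hz' : bdwV e (w ++ [a]) = zeta g := hz
  have hl1 := bdw_ev_ne_one he l
  have ha1 := bdw_ev_ne_one he a
  have hla : l ≠ bdwInv a := by
    intro h
    rw [h, bdw_ev_inv] at hlt
    exact lt_irrefl _ hlt
  have hz1 : 1 < zeta g := one_lt_zeta hl1
  have hvw : zeta g * (ev e a)⁻¹ = bdwV e w := by
    rw [← hz', bdwV_append, bdwV_single, mul_inv_cancel_right]
  have hy : zeta g * ev e l = bdwV e (w ++ [a, l]) := by
    rw [← hz', ← bdwV_single, ← bdwV_append]
    congr 1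
    simp
  have hr : FreeGroup.IsReduced (w ++ [a, l]) := bdw_red_snoc hw hla
  have h1 : Cyc (zeta g) (bdwV e w) (zeta g * ev e l) := by
    have h2 := bdw_cyc_tr (c := zeta g) (bdw_cyc_one (inv_ne_one.2 ha1) hlt)
    rw [mul_one, hvw] at h2
    exact h2
  have hy1 : zeta g * ev e l ≠ 1 := by
    intro h2
    rw [hy, ← bdwV_nil e] at h2
    have h3 := bdw_inj he hr FreeGroup.IsReduced.nil h2
    simp at h3
  have hyz : zeta g ≤ zeta g * ev e l := zeta_le hy1
  have hyz' : zeta g ≠ zeta g * ev e l := by
    intro h2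
    exact hl1 (mul_eq_left.1 h2.symm)
  have hyz2 : zeta g < zeta g * ev e l := lt_of_le_of_ne hyz hyz'
  have h5 := bdw_side he.sys (bdw_ch e l (zeta g)) w 1 (fun v hv => by
    have hv2 : v.length ≤ w.length := hv.length_le
    have hrv : FreeGroup.IsReduced v := by
      refine redSub hw ?_
      exact (hv.trans (List.prefix_append w [a])).isInfix
    rw [one_mul]
    constructor
    · intro h6
      rw [← hz'] at h6
      have h7 := congrArg List.length (bdw_inj he hrv hw h6)
      rw [List.length_append, List.length_singleton] at h7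
      omega
    · intro h6
      rw [hy] at h6
      have h7 := congrArg List.length (bdw_inj he hrv hr h6)
      rw [List.length_append] at h7
      simp only [List.length_cons, List.length_nil] at h7
      omega)
  rw [one_mul] at h5
  have h6 := h5.2 h1
  unfold Cyc at h6
  rcases h6 with ⟨h7, h8⟩ | ⟨h7, h8⟩ | ⟨h7, h8⟩
  · exact absurd hz1 (not_lt.2 h7.le)
  · exact absurd h8 (not_lt.2 hyz2.le)
  · exact absurd h7 (not_lt.2 hyz2.le)

theorem bdw_next {n : ℕ} {e : Fin n → F g} (he : UB e) {a b : Fin n × Bool}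
    {w₁ w₂ : List (Fin n × Bool)} (hw : FreeGroup.IsReduced (w₁ ++ a :: b :: w₂))
    (hz : ((w₁ ++ a :: b :: w₂).map (ev e)).prod = zeta g) :
    (ev e a)⁻¹ < ev e b ∧ ∀ l, ¬ ((ev e a)⁻¹ < ev e l ∧ ev e l < ev e b) := by
  have hz' : bdwV e (w₁ ++ a :: b :: w₂) = zeta g := hz
  have ha1 := bdw_ev_ne_one he a
  have hb1 := bdw_ev_ne_one he b
  have hz1 : 1 < zeta g := one_lt_zeta hb1
  have hab := bdw_red_ne hw
  have hra : FreeGroup.IsReduced (w₁ ++ [a]) := by
    refine redSub hw ⟨[], b :: w₂, ?_⟩
    simp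
  have hrw : FreeGroup.IsReduced w₁ := by
    refine redSub hw ⟨[], a :: b :: w₂, ?_⟩
    simp
  -- the vertices
  have hxm : bdwV e (w₁ ++ [a]) * (ev e a)⁻¹ = bdwV e w₁ := by
    rw [bdwV_append, bdwV_single, mul_inv_cancel_right]
  have hx1 : bdwV e (w₁ ++ [a]) ≠ 1 := by
    intro h
    rw [← bdwV_nil e] at h
    have h3 := bdw_inj he hra FreeGroup.IsReduced.nil h
    simp at h3
  have hzp : bdwV e (w₁ ++ [a]) * ev e b * bdwV e w₂ = zeta g := by
    rw [← hz', ← bdwV_single, ← bdwV_append, ← bdwV_append]
    congr 1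
    simp
  have hzx : bdwV e (w₁ ++ [a]) * bdwV e (b :: w₂) = zeta g := by
    rw [bdwV_cons, ← mul_assoc, hzp]
  -- prefixes of the second part
  have hpp : ∀ v, v <+: w₂ → FreeGroup.IsReduced (w₁ ++ a :: b :: v) ∧
      bdwV e (w₁ ++ [a]) * ev e b * bdwV e v = bdwV e (w₁ ++ a :: b :: v) := by
    intro v hv
    constructor
    · refine redSub hw (List.IsPrefix.isInfix ?_)
      refine (List.prefix_append_right_inj w₁).2 ?_
      exact (List.prefix_cons_inj a).2 ((List.prefix_cons_inj b).2 hv)
    · rw [← bdwV_single, ← bdwV_append, ← bdwV_append]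
      congr 1
      simp
  have first : (ev e a)⁻¹ < ev e b := by
    by_contra hlt
    rw [not_lt] at hlt
    have hne : ev e b ≠ (ev e a)⁻¹ := by
      intro h
      rw [← bdw_ev_inv] at h
      exact hab (bdw_ev_inj he h)
    have hlt2 : ev e b < (ev e a)⁻¹ := lt_of_le_of_ne hlt hne
    have h1 : Cyc (bdwV e (w₁ ++ [a])) (bdwV e (w₁ ++ [a]) * ev e b) (bdwV e w₁) := by
      have h2 := bdw_cyc_tr (c := bdwV e (w₁ ++ [a])) (bdw_cyc_one hb1 hlt2)
      rw [mul_one, hxm] at h2
      exact h2
    have hch : Ch (Set.range e) (bdwV e (w₁ ++ [a])) (bdwV e w₁) := by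
      have h2 := (bdw_ch e a (bdwV e w₁)).symm
      rw [← bdwV_single, ← bdwV_append] at h2
      exact h2
    have h2 := bdw_side he.sys hch w₂ (bdwV e (w₁ ++ [a]) * ev e b) (fun v hv => by
      obtain ⟨h3, h4⟩ := hpp v hv
      rw [h4]
      constructor
      · intro h5
        have h6 := congrArg List.length (bdw_inj he h3 hra h5)
        simp only [List.length_append, List.length_cons, List.length_nil] at h6
        omega
      · intro h5
        have h6 := congrArg List.length (bdw_inj he h3 hrw h5)
        simp only [List.length_append, List.length_cons] at h6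
        omega)
    rw [hzp] at h2
    have h3 := h2.1 h1
    -- backwards along the first part
    have key : ∀ v u : List (Fin n × Bool), w₁ = u ++ v →
        Cyc (bdwV e (w₁ ++ [a])) (zeta g) (bdwV e u) := by
      intro v
      induction v with
      | nil =>
        intro u hu
        rw [List.append_nil] at hu
        rw [← hu]
        exact h3
      | cons c v' ih =>
        intro u hu
        have h4 := ih (u ++ [c]) (by rw [hu]; simp)
        by_contra h5
        have hru : FreeGroup.IsReduced u := by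
          rw [hu] at hrw
          exact redSub hrw ⟨[], c :: v', by simp⟩
        have hruc : FreeGroup.IsReduced (u ++ [c]) := by
          rw [hu] at hrw
          exact redSub hrw ⟨[], v', by simp⟩
        have hlen : w₁.length = u.length + (v'.length + 1) := by
          rw [hu, List.length_append, List.length_cons]
        have hux : bdwV e u ≠ bdwV e (w₁ ++ [a]) := by
          intro h6
          have h7 := congrArg List.length (bdw_inj he hru hra h6)
          simp only [List.length_append, List.length_cons, List.length_nil] at h7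
          omega
        have huz : bdwV e u ≠ zeta g := by
          intro h6
          rw [← hz'] at h6
          have h7 := congrArg List.length (bdw_inj he hru hw h6)
          simp only [List.length_append, List.length_cons] at h7
          omega
        have hch2 : Ch (Set.range e) (bdwV e u) (bdwV e (u ++ [c])) := by
          have h6 := bdw_ch e c (bdwV e u)
          rw [← bdwV_single, ← bdwV_append] at h6
          exact h6
        have h6 := bdw_side he.sys hch2 (b :: w₂) (bdwV e (w₁ ++ [a])) (fun v hv => by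
          have h7 : FreeGroup.IsReduced (w₁ ++ a :: v) := by
            refine redSub hw (List.IsPrefix.isInfix ?_)
            refine (List.prefix_append_right_inj w₁).2 ?_
            exact (List.prefix_cons_inj a).2 hv
          have h8 : bdwV e (w₁ ++ [a]) * bdwV e v = bdwV e (w₁ ++ a :: v) := by
            rw [← bdwV_append]
            congr 1
            simp
          rw [h8]
          constructor
          · intro h9
            have h10 := congrArg List.length (bdw_inj he h7 hru h9)
            simp only [List.length_append, List.length_cons] at h10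
            omega
          · intro h9
            have h10 := congrArg List.length (bdw_inj he h7 hruc h9)
            simp only [List.length_append, List.length_cons, List.length_nil] at h10
            omega)
        rw [hzx] at h6
        have hxz : bdwV e (w₁ ++ [a]) ≠ zeta g := by
          intro h7
          rw [h7] at h4
          unfold Cyc at h4
          grind
        clear h2 h3 ih hch2 hch
        generalize bdwV e (w₁ ++ [a]) = X at *
        generalize bdwV e u = Y at *
        generalize bdwV e (u ++ [c]) = Z at *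
        generalize zeta g = W at *
        unfold Cyc at h4 h5 h6
        grind
    have h4 := key w₁ [] rfl
    rw [bdwV_nil] at h4
    have h5 : zeta g ≤ bdwV e (w₁ ++ [a]) := zeta_le hx1
    have h6 := one_le (zeta g)
    unfold Cyc at h4
    rcases h4 with ⟨h7, h8⟩ | ⟨h7, h8⟩ | ⟨h7, h8⟩
    · exact absurd h8 (not_lt.2 h6)
    · exact absurd h7 (not_lt.2 h6)
    · exact absurd h8 (not_lt.2 h5)
  refine ⟨first, ?_⟩
  rintro l ⟨hl1, hl2⟩
  have hl0 := bdw_ev_ne_one he l
  have hla : l ≠ bdwInv a := by
    intro h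
    rw [h, bdw_ev_inv] at hl1
    exact lt_irrefl _ hl1
  have hlb : l ≠ b := by
    rintro rfl
    exact lt_irrefl _ hl2
  have hrl : FreeGroup.IsReduced (w₁ ++ [a, l]) := bdw_red_snoc hra hla
  have hy : bdwV e (w₁ ++ [a]) * ev e l = bdwV e (w₁ ++ [a, l]) := by
    rw [← bdwV_single, ← bdwV_append]
    congr 1
    simp
  have h1 : Cyc (bdwV e (w₁ ++ [a])) (bdwV e w₁) (bdwV e (w₁ ++ [a, l])) := by
    have h2 := bdw_cyc_tr (c := bdwV e (w₁ ++ [a])) (bdw_cyc_one (inv_ne_one.2 ha1) hl1)
    rw [mul_one, hxm, hy] at h2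
    exact h2
  have h2 : Cyc (bdwV e (w₁ ++ [a])) (bdwV e (w₁ ++ [a, l]))
      (bdwV e (w₁ ++ [a]) * ev e b) := by
    have h3 := bdw_cyc_tr (c := bdwV e (w₁ ++ [a])) (bdw_cyc_one hl0 hl2)
    rw [mul_one, hy] at h3
    exact h3
  have hch : Ch (Set.range e) (bdwV e (w₁ ++ [a])) (bdwV e (w₁ ++ [a, l])) := by
    have h3 := bdw_ch e l (bdwV e (w₁ ++ [a]))
    rw [hy] at h3
    exact h3
  have h3 := bdw_side he.sys hch w₁ 1 (fun v hv => by
    have hv2 : v.length ≤ w₁.length := hv.length_le
    have hrv : FreeGroup.IsReduced v := redSub hrw hv.isInfix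
    rw [one_mul]
    constructor
    · intro h6
      have h7 := congrArg List.length (bdw_inj he hrv hra h6)
      rw [List.length_append, List.length_singleton] at h7
      omega
    · intro h6
      have h7 := congrArg List.length (bdw_inj he hrv hrl h6)
      rw [List.length_append] at h7
      simp only [List.length_cons, List.length_nil] at h7
      omega)
  rw [one_mul] at h3
  have h4 := h3.2 h1
  have h5 := bdw_side he.sys hch w₂ (bdwV e (w₁ ++ [a]) * ev e b) (fun v hv => by
    obtain ⟨h6, h7⟩ := hpp v hv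
    rw [h7]
    constructor
    · intro h8
      have h9 := congrArg List.length (bdw_inj he h6 hra h8)
      simp only [List.length_append, List.length_cons, List.length_nil] at h9
      omega
    · intro h8
      have h9 := List.append_cancel_left (bdw_inj he h6 hrl h8)
      simp only [List.cons.injEq] at h9
      exact hlb h9.2.1.symm)
  rw [hzp] at h5
  have hyz : bdwV e (w₁ ++ [a, l]) ≠ zeta g := by
    intro h8
    rw [← hz'] at h8
    have h9 := List.append_cancel_left (bdw_inj he hrl hw h8)
    simp only [List.cons.injEq] at h9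
    exact hlb h9.2.1
  have hxz : bdwV e (w₁ ++ [a]) ≠ zeta g := by
    intro h8
    rw [← hz'] at h8
    have h9 := List.append_cancel_left (bdw_inj he hra hw h8)
    simp at h9
  have hy1 : bdwV e (w₁ ++ [a, l]) ≠ 1 := by
    intro h
    rw [← bdwV_nil e] at h
    have h3 := bdw_inj he hrl FreeGroup.IsReduced.nil h
    simp at h3
  have h6 : zeta g ≤ bdwV e (w₁ ++ [a, l]) := zeta_le hy1
  have h7 := one_le (bdwV e (w₁ ++ [a, l]))
  have h8 := one_le (bdwV e (w₁ ++ [a]))
  clear h3 hch h1
  generalize bdwV e (w₁ ++ [a]) * ev e b = V at *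
  generalize bdwV e (w₁ ++ [a]) = X at *
  generalize bdwV e (w₁ ++ [a, l]) = Y at *
  generalize zeta g = W at *
  unfold Cyc at h2 h4 h5
  grind

theorem bdw_words {n : ℕ} {e e' : Fin n → F g} (he : UB e) (he' : UB e')
    (h : ∀ l m : Fin n × Bool, ev e l < ev e m ↔ ev e' l < ev e' m) :
    ∀ (t u : List (Fin n × Bool)) (a : Fin n × Bool) (t' : List (Fin n × Bool)),
      FreeGroup.IsReduced (u ++ a :: t) → FreeGroup.IsReduced (u ++ a :: t') →
      bdwV e (u ++ a :: t) = zeta g → bdwV e' (u ++ a :: t') = zeta g → t = t'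
  | [], u, a, [], _, _, _, _ => rfl
  | [], u, a, b :: t', hr, hr', hz, hz' => by
    have h1 := bdw_last he hr hz b
    have h2 := (bdw_next he' hr' hz').1
    rw [← bdw_ev_inv, ← h, bdw_ev_inv] at h2
    exact absurd h2 (not_lt.2 h1)
  | b :: t, u, a, [], hr, hr', hz, hz' => by
    have h1 := bdw_last he' hr' hz' b
    have h2 := (bdw_next he hr hz).1
    rw [← bdw_ev_inv, h, bdw_ev_inv] at h2
    exact absurd h2 (not_lt.2 h1)
  | b :: t, u, a, b' :: t', hr, hr', hz, hz' => by
    obtain ⟨h1, h2⟩ := bdw_next he hr hz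
    obtain ⟨h3, h4⟩ := bdw_next he' hr' hz'
    have h5 : (ev e a)⁻¹ < ev e b' := by
      rw [← bdw_ev_inv, h, bdw_ev_inv]
      exact h3
    have h6 : (ev e' a)⁻¹ < ev e' b := by
      rw [← bdw_ev_inv, ← h, bdw_ev_inv]
      exact h1
    have h7 : ¬ ev e b' < ev e b := fun h8 => h2 b' ⟨h5, h8⟩
    have h8 : ¬ ev e b < ev e b' := fun h9 => h4 b ⟨h6, (h b b').1 h9⟩
    have h9 : b = b' := bdw_ev_inj he (le_antisymm (not_lt.1 h7) (not_lt.1 h8))
    subst h9
    have e1 : u ++ a :: b :: t = (u ++ [a]) ++ b :: t := by simp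
    have e2 : u ++ a :: b :: t' = (u ++ [a]) ++ b :: t' := by simp
    rw [e1] at hr hz
    rw [e2] at hr' hz'
    rw [bdw_words he he' h t (u ++ [a]) b t' hr hr' hz hz']

theorem same_pattern {n : ℕ} {e e' : Fin n → F g} (he : UB e) (he' : UB e')
    (h : ∀ l m : Fin n × Bool, ev e l < ev e m ↔ ev e' l < ev e' m) :
    ∃ φ : F g ≃* F g, φ (zeta g) = zeta g ∧ ∀ i, φ (e i) = e' i := by
  obtain ⟨z, hz⟩ := he.bij.2 (zeta g)
  obtain ⟨z', hz'⟩ := he'.bij.2 (zeta g)
  have hv : bdwV e z.toWord = zeta g := by
    unfold bdwV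
    rw [← lift_mk_eq, FreeGroup.mk_toWord, hz]
  have hv' : bdwV e' z'.toWord = zeta g := by
    unfold bdwV
    rw [← lift_mk_eq, FreeGroup.mk_toWord, hz']
  have hr : FreeGroup.IsReduced z.toWord := FreeGroup.isReduced_toWord
  have hr' : FreeGroup.IsReduced z'.toWord := FreeGroup.isReduced_toWord
  have hw : z.toWord = z'.toWord := by
    revert hv hv' hr hr'
    generalize z.toWord = w
    generalize z'.toWord = w'
    intro hv hv' hr hr'
    match w, w', hv, hv', hr, hr' with
    | [], w', hv, hv', hr, hr' =>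
      rw [← hv, bdwV_nil, ← bdwV_nil e'] at hv'
      exact (bdw_inj he' hr' FreeGroup.IsReduced.nil hv').symm
    | a :: w, [], hv, hv', hr, hr' =>
      rw [← hv', bdwV_nil, ← bdwV_nil e] at hv
      exact bdw_inj he hr FreeGroup.IsReduced.nil hv
    | a :: w, a' :: w', hv, hv', hr, hr' =>
      have h1 := bdw_first he hr hv a'
      have h2 := bdw_first he' hr' hv' a
      have h3 : ¬ ev e' a' < ev e' a := by
        rw [← h]
        exact not_lt.2 h1
      have h4 : a' = a := bdw_ev_inj he' (le_antisymm h2 (not_lt.1 h3))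
      subst h4
      rw [bdw_words he he' h w [] a' w' hr hr' hv hv']
  let E := MulEquiv.ofBijective (FreeGroup.lift e) he.bij
  let E' := MulEquiv.ofBijective (FreeGroup.lift e') he'.bij
  have hzz : z = z' := FreeGroup.toWord_injective hw
  refine ⟨E.symm.trans E', ?_, ?_⟩
  · have h1 : E.symm (zeta g) = z := by
      rw [MulEquiv.symm_apply_eq]
      exact hz.symm
    rw [MulEquiv.trans_apply, h1, hzz]
    exact hz'
  · intro i
    have h1 : E.symm (e i) = FreeGroup.of i := by
      rw [MulEquiv.symm_apply_eq]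
      exact (FreeGroup.lift_apply_of).symm
    rw [MulEquiv.trans_apply, h1]
    exact FreeGroup.lift_apply_of

end TorM
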