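import Pool.Agent.Lib.MP_05cdf2_gt.M.Key
import Pool.Agent.Lib.MP_05cdf2_gt.K.Chord

/-! MP_05cdf2_gt, stream K: surgery. (complete)

`IsFirst X τ u w`: `{u, w}` is the chord of `X` which crosses `{1, τ}` closest to `1`. Then the chords `{1, u}` and
`{1, w}` do not cross the chords of `X`, and, if `τ` is simple, their lifts do not cross each other. -/

set_option autoImplicit false

namespace TorM

section
variable {α : Type} [LinearOrder α]

theorem surg_aux_old {a u w t p q : α} (h1 : a < u) (h2 : u < t) (h3 : t < w) (ha : ∀ z : α, a ≤ z)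
    (hX : ¬ Cr u w p q)
    (hf : ∀ u' w', (u' = p ∧ w' = q) ∨ (u' = q ∧ w' = p) → a < u' → u' < t → t < w' →
      u < u' ∨ (u = u' ∧ w' ≤ w)) :
    ¬ Cr a u p q ∧ ¬ Cr a w p q := by
  have hp := ha p
  have hq := ha q
  have h4 := hf p q (Or.inl ⟨rfl, rfl⟩)
  have h5 := hf q p (Or.inr ⟨rfl, rfl⟩)
  unfold Cr Cyc at *
  constructor <;> grind

theorem surg_aux_new1 {a u w t y yu yt yw : α} (h1 : a < u) (h2 : u < t) (h3 : t < w)
    (g1 : Cyc y yu yt) (g2 : Cyc y yt yw)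
    (c2 : ¬ Cr a u yu yw) (c3 : ¬ Cr a w yu yw) (c4 : ¬ Cr u w y yu)
    (c6 : ¬ Cr a t y yt) :
    ¬ Cr a u y yu := by
  unfold Cr Cyc at *
  grind

theorem surg_aux_new2 {a u w t y yu yt yw : α} (h1 : a < u) (h2 : u < t) (h3 : t < w)
    (g1 : Cyc y yu yt) (g2 : Cyc y yt yw) (n3 : yw ≠ w)
    (c2 : ¬ Cr a u yu yw) (c3 : ¬ Cr a w yu yw)
    (c5 : ¬ Cr u w y yw) (c6 : ¬ Cr a t y yt) :
    ¬ Cr a u y yw := by
  unfold Cr Cyc at *
  grind

theorem surg_aux_new3 {a u w t y yu yt yw : α} (h1 : a < u) (h2 : u < t) (h3 : t < w)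
    (g1 : Cyc y yu yt) (g2 : Cyc y yt yw)
    (c3 : ¬ Cr a w yu yw)
    (c5 : ¬ Cr u w y yw) (c6 : ¬ Cr a t y yt) :
    ¬ Cr a w y yw := by
  unfold Cr Cyc at *
  grind

end

variable {g : ℕ}

/-- the chord `{u, w}` of `X` crosses `{1, τ}`, and it is the closest one to `1` -/
structure IsFirst (X : Set (F g)) (τ u w : F g) : Prop where
  one_lt : 1 < u
  lt_t : u < τ
  t_lt : τ < w
  ch : Ch X u w
  first : ∀ u' w' : F g, 1 < u' → u' < τ → τ < w' → Ch X u' w' → u < u' ∨ (u = u' ∧ w' ≤ w)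

theorem surg_old {X : Set (F g)} (hX : Sys X) {τ u w : F g} (h : IsFirst X τ u w) :
    ∀ a ∈ X, U u a ∧ U w a := by
  have key : ∀ p q : F g, Ch X p q → ¬ Cr 1 u p q ∧ ¬ Cr 1 w p q := by
    intro p q hpq
    refine surg_aux_old h.one_lt h.lt_t h.t_lt one_le (sys_iff_ch.mp hX _ _ _ _ h.ch hpq) ?_
    rintro u' w' (⟨rfl, rfl⟩ | ⟨rfl, rfl⟩) h1 h2 h3
    · exact h.first _ _ h1 h2 h3 hpq
    · exact h.first _ _ h1 h2 h3 hpq.symm
  intro a ha
  exact ⟨fun x => (key _ _ (ch_self ha)).1, fun x => (key _ _ (ch_self ha)).2⟩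

theorem surg_new {X : Set (F g)} (hX : Sys X) {τ u w : F g} (hτ : U τ τ) (h : IsFirst X τ u w) :
    U u u ∧ U u w ∧ U w w := by
  have hold := surg_old hX h
  have hu := U_iff_ch.mp fun a ha => (hold a ha).1
  have hw := U_iff_ch.mp fun a ha => (hold a ha).2
  have g1 : ∀ y : F g, Cyc y (y * u) (y * τ) := by
    intro y
    have h1 : Cyc (y * 1) (y * u) (y * τ) := (cyc_mul y 1 u τ).mpr (Or.inl ⟨h.one_lt, h.lt_t⟩)
    rwa [mul_one] at h1
  have g2 : ∀ y : F g, Cyc y (y * τ) (y * w) := by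
    intro y
    have h1 : Cyc (y * 1) (y * τ) (y * w) :=
      (cyc_mul y 1 τ w).mpr (Or.inl ⟨h.one_lt.trans h.lt_t, h.t_lt⟩)
    rwa [mul_one] at h1
  have c2 : ∀ y : F g, ¬ Cr 1 u (y * u) (y * w) := fun y => by
    have h1 := hu 1 _ _ ((ch_mul X y u w).mpr h.ch)
    rwa [one_mul] at h1
  have c3 : ∀ y : F g, ¬ Cr 1 w (y * u) (y * w) := fun y => by
    have h1 := hw 1 _ _ ((ch_mul X y u w).mpr h.ch)
    rwa [one_mul] at h1
  have c4 : ∀ y : F g, ¬ Cr u w y (y * u) := fun y => by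
    have h1 := hu y _ _ h.ch
    rwa [cr_comm] at h1
  have c5 : ∀ y : F g, ¬ Cr u w y (y * w) := fun y => by
    have h1 := hw y _ _ h.ch
    rwa [cr_comm] at h1
  refine ⟨fun y => ?_, fun y => ?_, fun y => ?_⟩
  · exact surg_aux_new1 h.one_lt h.lt_t h.t_lt (g1 y) (g2 y) (c2 y) (c3 y) (c4 y) (hτ y)
  · rcases eq_or_ne y 1 with rfl | hy
    · rw [one_mul]
      exact not_cr_left
    · refine surg_aux_new2 h.one_lt h.lt_t h.t_lt (g1 y) (g2 y) ?_ (c2 y) (c3 y) (c5 y) (hτ y)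
      intro h2
      exact hy (mul_eq_right.mp h2)
  · exact surg_aux_new3 h.one_lt h.lt_t h.t_lt (g1 y) (g2 y) (c3 y) (c5 y) (hτ y)

/-- surgery -/
theorem surgery {X : Set (F g)} (hX : Sys X) {τ u w : F g} (hτ : U τ τ) (h : IsFirst X τ u w) :
    Sys (insert u (insert w X)) := by
  obtain ⟨h1, h2, h3⟩ := surg_new hX hτ h
  have hold := surg_old hX h
  refine sys_insert (sys_insert hX h3 fun a ha => (hold a ha).2) h1 ?_
  rintro a (rfl | ha)
  · exact h2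
  · exact (hold a ha).1

end TorM
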