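import Pool.Agent.Lib.MP_05cdf2_gt.M.Fin
import Pool.Agent.Lib.MP_05cdf2_gt.K.Surg

/-! MP_05cdf2_gt, stream K, job Cnt: crossing numbers decrease under surgery.

`I B a` = the total number of lifts of elements of `B` (a list) which cross the chord `{1, a}`. All the sets are
finite (`cr_finite`, after `cr_comm`).
`I_inv`: `x ↦ a x` is a bijection from `{x | Cr x (x τ) 1 a⁻¹}` to `{x | Cr x (x τ) 1 a}`: multiply by `a` (`cr_mul`),
`a * a⁻¹ = 1`, `cr_swap2`. (`Set.ncard_image_of_injective` with the injection `x ↦ a * x`.)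
`I_surg`: for `σ ∈ B` let `A = {x | Cr x (x σ) u w}`; `x ↦ u x` maps `{x | Cr x (x σ) 1 (u⁻¹ w)}` bijectively onto `A`.
The chord `{x, x σ}` does not cross `{1, τ}` (`hB`, `U_iff`). Hence (`unfold Cr Cyc at *; grind`, with `one_le x`,
`one_le (x σ)`): if it crosses `{1, u}` then it crosses `{u, w}` and does not cross `{1, w}`; if it crosses `{1, w}`
then it crosses `{u, w}`. So the sets for `u` and `w` are disjoint subsets of `A`: `≤` for every `σ`. For `σ = τ` the
element `x = 1` of `A` is in none of the two: strict inequality. Sum over the list (induction on the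
list, or `List.sum_lt_sum`; first prove the termwise statements).
-/

set_option autoImplicit false

namespace TorM

variable {g : ℕ}

/-- total number of crossings of the chord `{1, a}` with lifts of elements of `B` -/
noncomputable def I (B : List (F g)) (a : F g) : ℕ :=
  (B.map fun τ => {x : F g | Cr x (x * τ) 1 a}.ncard).sum

theorem cnt_finite (τ a b : F g) : {x : F g | Cr x (x * τ) a b}.Finite := by
  have h : {x : F g | Cr x (x * τ) a b} = {x : F g | Cr a b x (x * τ)} := by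
    ext x
    exact cr_comm
  rw [h]
  exact cr_finite a b τ

theorem cnt_mul (σ c a b : F g) : {x : F g | Cr x (x * σ) (c * a) (c * b)}.ncard =
    {x : F g | Cr x (x * σ) a b}.ncard := by
  rw [← Set.ncard_image_of_injective {x : F g | Cr x (x * σ) a b} (mul_right_injective c)]
  congr 1
  ext x
  simp only [Set.mem_ofPred_eq, Set.mem_image]
  constructor
  · intro h
    refine ⟨c⁻¹ * x, ?_, mul_inv_cancel_left c x⟩
    rw [← cr_mul c, mul_inv_cancel_left, ← mul_assoc, mul_inv_cancel_left]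
    exact h
  · rintro ⟨y, hy, rfl⟩
    rw [mul_assoc]
    exact (cr_mul c _ _ _ _).mpr hy

theorem I_inv (B : List (F g)) (a : F g) : I B a⁻¹ = I B a := by
  unfold I
  congr 1
  apply List.map_congr_left
  intro τ _
  rw [← cnt_mul τ a 1 a⁻¹, mul_one, mul_inv_cancel]
  congr 1
  ext x
  exact cr_swap2

section
variable {α : Type} [LinearOrder α]

theorem cnt_a {o u t w p q : α} (h1 : o < u) (h2 : u < t) (h3 : t < w) (hp : o ≤ p) (hq : o ≤ q)
    (h : ¬ Cr p q o t) (hc : Cr p q o u) : Cr p q u w ∧ ¬ Cr p q o w := by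
  unfold Cr Cyc at *
  grind

theorem cnt_b {o u t w p q : α} (h1 : o < u) (h2 : u < t) (h3 : t < w) (hp : o ≤ p) (hq : o ≤ q)
    (h : ¬ Cr p q o t) (hc : Cr p q o w) : Cr p q u w := by
  unfold Cr Cyc at *
  grind

theorem cnt_c {o u t w : α} (h1 : o < u) (h2 : u < t) (h3 : t < w) : Cr o t u w := by
  unfold Cr Cyc at *
  grind

end

theorem I_surg {B : List (F g)} (hB : Sys {τ | τ ∈ B}) {τ : F g} (hτ : τ ∈ B) {u w : F g}
    (h1 : 1 < u) (h2 : u < τ) (h3 : τ < w) : I B u + I B w < I B (u⁻¹ * w) := by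
  have hmul : ∀ σ : F g, {x : F g | Cr x (x * σ) 1 (u⁻¹ * w)}.ncard =
      {x : F g | Cr x (x * σ) u w}.ncard := by
    intro σ
    rw [← cnt_mul σ u 1 (u⁻¹ * w), mul_one, mul_inv_cancel_left]
  have hn : ∀ σ ∈ B, ∀ x : F g, ¬ Cr x (x * σ) 1 τ := by
    intro σ hσ x hc
    refine U_iff.mp (hB σ hσ τ hτ) x 1 ?_
    rw [one_mul]
    exact hc
  have hun : ∀ σ ∈ B, {x : F g | Cr x (x * σ) 1 u}.ncard + {x : F g | Cr x (x * σ) 1 w}.ncard =
      ({x : F g | Cr x (x * σ) 1 u} ∪ {x : F g | Cr x (x * σ) 1 w}).ncard := by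
    intro σ hσ
    refine (Set.ncard_union_eq ?_ (cnt_finite σ 1 u) (cnt_finite σ 1 w)).symm
    rw [Set.disjoint_left]
    intro x hx
    exact (cnt_a h1 h2 h3 (one_le x) (one_le _) (hn σ hσ x) hx).2
  have hsub : ∀ σ ∈ B, ({x : F g | Cr x (x * σ) 1 u} ∪ {x : F g | Cr x (x * σ) 1 w}) ⊆
      {x : F g | Cr x (x * σ) u w} := by
    rintro σ hσ x (hx | hx)
    · exact (cnt_a h1 h2 h3 (one_le x) (one_le _) (hn σ hσ x) hx).1
    · exact cnt_b h1 h2 h3 (one_le x) (one_le _) (hn σ hσ x) hx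
  unfold I
  rw [← List.sum_map_add]
  apply List.sum_lt_sum
  · intro σ hσ
    rw [hmul, hun σ hσ]
    exact Set.ncard_le_ncard (hsub σ hσ) (cnt_finite σ u w)
  · refine ⟨τ, hτ, ?_⟩
    rw [hmul, hun τ hτ]
    refine Set.ncard_lt_ncard ((Set.ssubset_iff_of_subset (hsub τ hτ)).2 ⟨1, ?_, ?_⟩)
      (cnt_finite τ u w)
    · have h4 := cnt_c h1 h2 h3
      simpa using h4
    · rintro (h | h)
      · exact not_cr_left (a := (1 : F g)) h
      · exact not_cr_left (a := (1 : F g)) h

end TorM
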