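import Pool.Agent.Lib.MP_05cdf2_gt.K.Poly

/-! MP_05cdf2_gt, stream K, job Cycle: a shortest closed polygon in the Cayley graph of an unlinked finite set `t`
shows that one of the elements of `t` is redundant.

`IsCycle t k x`: `x : ℕ → F g` is `k`-periodic, injective on a period, consecutive points are joined by chords of `t`.
`cycle_redundant`: `k ≥ 3` minimal. By `convex` (`sys_iff_ch`) the polygon is convex; if it is clockwise replace `x` by
`i ↦ x (N - i)` for a large multiple `N`... (or better: `x' i = x (k * i - i)`, i.e. `x' i = x ((k - 1) * i)`, which is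
`x (-i)`: it is a cycle, counterclockwise). So assume `Cyc (x i) (x (i+1)) (x j)` for `i + 1 < j < i + k`.
Let `γ i = (x i)⁻¹ * x (i + 1)`; `γ i ∈ t` or `(γ i)⁻¹ ∈ t`, `γ` is `k`-periodic. `γ i ≠ 1`.
(1) NO DIAGONALS: if `i + 1 < j < i + k - 1` then `¬ Ch t (x i) (x j)`: otherwise `x i, x (i+1), ..., x j` is a closed
polygon with `j - i + 1 < k` vertices (and `≥ 3`), periodic extension `m ↦ x (i + m % (j - i + 1))`, contradicting
minimality.
(2) For `i ≥ 1`: `γ i < (γ (i-1))⁻¹` and there is no letter `δ` (`δ ∈ t` or `δ⁻¹ ∈ t`) with `γ i < δ < (γ (i-1))⁻¹`.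
Multiply by `x i` (`cyc_mul`): `Cyc (x i) (x (i+1)) (x (i-1))` holds since `x (i-1) = x (i+k-1)` (`k ≥ 3`), hence
`Cyc 1 (γ i) (γ (i-1))⁻¹`. If `γ i < δ < (γ (i-1))⁻¹` then `z = x i * δ` satisfies `Cyc (x i) (x (i+1)) z`,
`Cyc (x i) z (x (i-1))`, and `Ch t (x i) z`. `z` is not a vertex (no diagonals, and `z ≠ x i, x (i+1), x (i-1)`); so there is
`j` with `i + 1 ≤ j`, `j + 1 ≤ i + k - 1` and `Cyc (x j) z (x (j+1))` (the vertices `x (i+1), ..., x (i+k-1)` are in
counterclockwise order; take the last `j` with `Cyc (x i) (x j) z`), and the chord `{x i, z}` crosses `{x j, x (j+1)}`,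
contradiction to `Sys t` (`sys_iff_ch`, `ch_self`).
(3) `γ` is injective on a period: if `γ i = γ j` (`i, j ≥ 1`) then by (2) `(γ (i-1))⁻¹` and `(γ (j-1))⁻¹` are both the smallest
letter larger than `γ i`, so `γ (i-1) = γ (j-1)`. Using periodicity this gives (for `i < j < i + k`, `d = j - i`)
`γ (m + d) = γ m` for all `m`. Then `h = x (m + d) * (x m)⁻¹` does not depend on `m`, and `x (k * d) = h ^ k * x 0` but
`x (k * d) = x 0`; so `h ^ k = 1`, `h = 1` (a free group is torsion free: `FreeGroup` has an instance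
`IsMulTorsionFree`, `pow_eq_one_iff`), `x d = x 0`, contradiction.
(4) Let `γ i` be the maximum of the finite set of all `γ`'s, `1 ≤ i`. Then `δ := γ (i-1)` has `δ⁻¹ > γ i`, so `δ⁻¹` is
none of the `γ`'s. By (3) and periodicity, `γ m ∉ {δ, δ⁻¹}` for `i - 1 < m < i - 1 + k`. As
`x (i - 1) = x (i - 1 + k) = x i * γ i * ... * γ (i + k - 2)` and `x i = x (i-1) δ`: `δ⁻¹ = γ i * ... * γ (i + k - 2)`, a
product of elements of `t \ {δ, δ⁻¹}` and their inverses. If `δ ∈ t` put `a = δ`, else `a = δ⁻¹ ∈ t`.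
-/

set_option autoImplicit false

namespace TorM

variable {g : ℕ}

/-- closed polygon with `k` vertices in the Cayley graph of `t` -/
structure IsCycle (t : Set (F g)) (k : ℕ) (x : ℕ → F g) : Prop where
  per : ∀ i, x (i + k) = x i
  inj : ∀ i j, i < j → j < i + k → x i ≠ x j
  ch : ∀ i, Ch t (x i) (x (i + 1))

theorem cycle_per {x : ℕ → F g} {k : ℕ} (hper : ∀ i, x (i + k) = x i) (i n : ℕ) :
    x (i + n * k) = x i := by
  induction n with
  | zero => rw [Nat.zero_mul, Nat.add_zero]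
  | succ n ih => rw [Nat.succ_mul, ← Nat.add_assoc, hper, ih]

theorem cycle_mod {x : ℕ → F g} {k : ℕ} (hper : ∀ i, x (i + k) = x i) (a : ℕ) :
    x a = x (a % k) := by
  have h1 : a = a % k + (a / k) * k := by
    rw [Nat.mul_comm]
    exact (Nat.mod_add_div a k).symm
  have h2 := cycle_per hper (a % k) (a / k)
  rw [← h1] at h2
  exact h2

theorem cycle_eq_iff {t : Set (F g)} {k : ℕ} {x : ℕ → F g} (hx : IsCycle t k x) (hk : 0 < k)
    (a b : ℕ) : x a = x b ↔ a % k = b % k := by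
  constructor
  · intro h
    rw [cycle_mod hx.per a, cycle_mod hx.per b] at h
    by_contra hne
    have ha := Nat.mod_lt a hk
    have hb := Nat.mod_lt b hk
    rcases Nat.lt_or_gt_of_ne hne with h1 | h1
    · exact hx.inj _ _ h1 (by omega) h
    · exact hx.inj _ _ h1 (by omega) h.symm
  · intro h
    rw [cycle_mod hx.per a, h, ← cycle_mod hx.per b]

theorem cycle_no_diag {t : Set (F g)} {k : ℕ} {x : ℕ → F g} (hx : IsCycle t k x)
    (hmin : ∀ k', 3 ≤ k' → k' < k → ¬ ∃ x' : ℕ → F g, IsCycle t k' x') (i j : ℕ)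
    (h1 : i + 1 < j) (h2 : j + 1 < i + k) : ¬ Ch t (x i) (x j) := by
  intro hc
  obtain ⟨L, hL⟩ : ∃ L, L = j - i + 1 := ⟨_, rfl⟩
  have hL3 : 3 ≤ L := by omega
  have hLk : L < k := by omega
  have hL0 : 0 < L := by omega
  refine hmin L hL3 hLk ⟨fun m => x (i + m % L), ?_, ?_, ?_⟩
  · intro m
    show x (i + (m + L) % L) = x (i + m % L)
    rw [Nat.add_mod_right]
  · intro m m' h3 h4 h5
    have ha := Nat.mod_lt m hL0
    have hb := Nat.mod_lt m' hL0
    have hne : m % L ≠ m' % L := by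
      intro h
      have h6 : L ∣ m' - m := (Nat.modEq_iff_dvd' h3.le).1 h
      have h7 := Nat.le_of_dvd (by omega) h6
      omega
    rcases Nat.lt_or_gt_of_ne hne with h6 | h6
    · exact hx.inj _ _ (by omega) (by omega) h5
    · exact hx.inj _ _ (by omega) (by omega) h5.symm
  · intro m
    have ha := Nat.mod_lt m hL0
    show Ch t (x (i + m % L)) (x (i + (m + 1) % L))
    have h3 : (m + 1) % L = (m % L + 1) % L := by
      rw [Nat.add_mod, Nat.mod_eq_of_lt (show 1 < L by omega)]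
    rw [h3]
    by_cases h : m % L + 1 < L
    · rw [Nat.mod_eq_of_lt h, ← Nat.add_assoc]
      exact hx.ch _
    · have h4 : m % L + 1 = L := by omega
      rw [h4, Nat.mod_self, Nat.add_zero]
      have h5 : i + m % L = j := by omega
      rw [h5]
      exact hc.symm

theorem cycle_cyc_one {u v : F g} : Cyc 1 u v ↔ 1 < u ∧ u < v := by
  have h1 := one_le u
  have h2 := one_le v
  unfold Cyc
  grind

theorem cycle_order {α : Type} [LinearOrder α] {p z a b : α} (h1 : Cyc p a z) (h2 : ¬ Cyc p b z)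
    (h3 : Cyc p a b) (h4 : z ≠ b) : Cr p z a b := by
  unfold Cr Cyc at *
  grind

theorem cycle_next {t : Set (F g)} (ht : Sys t) {k : ℕ} (hk : 3 ≤ k) {x : ℕ → F g}
    (hx : IsCycle t k x) (hnd : ∀ i j, i + 1 < j → j + 1 < i + k → ¬ Ch t (x i) (x j))
    (hccw : ∀ i j, i + 1 < j → j < i + k → Cyc (x i) (x (i + 1)) (x j)) (i : ℕ) :
    (x (i + 1))⁻¹ * x (i + 2) < ((x i)⁻¹ * x (i + 1))⁻¹ ∧
      ∀ δ : F g, (δ ∈ t ∨ δ⁻¹ ∈ t) → (x (i + 1))⁻¹ * x (i + 2) < δ →
        ((x i)⁻¹ * x (i + 1))⁻¹ ≤ δ := by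
  obtain ⟨p, hp⟩ : ∃ p, p = x (i + 1) := ⟨_, rfl⟩
  obtain ⟨a, ha⟩ : ∃ a, a = x (i + 2) := ⟨_, rfl⟩
  obtain ⟨b, hb⟩ : ∃ b, b = x i := ⟨_, rfl⟩
  have h1 : Cyc p a b := by
    have h := hccw (i + 1) (i + k) (by omega) (by omega)
    rw [hx.per] at h
    rw [hp, ha, hb]
    exact h
  have h2 : Cyc 1 (p⁻¹ * a) (p⁻¹ * b) := by
    have h := (cyc_mul p⁻¹ p a b).2 h1
    rwa [inv_mul_cancel] at h
  rw [← hp, ← ha, ← hb]
  have e1 : (b⁻¹ * p)⁻¹ = p⁻¹ * b := by
    rw [mul_inv_rev, _root_.inv_inv]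
  rw [e1]
  refine ⟨(cycle_cyc_one.1 h2).2, fun δ hδ hlt => ?_⟩
  by_contra hcon
  have hlt2 : δ < p⁻¹ * b := not_le.1 hcon
  have hz1 : Cyc p a (p * δ) := by
    have h := (cyc_mul p 1 (p⁻¹ * a) δ).2 (cycle_cyc_one.2 ⟨(cycle_cyc_one.1 h2).1, hlt⟩)
    rwa [mul_one, mul_inv_cancel_left] at h
  have hz2 : Cyc p (p * δ) b := by
    have h := (cyc_mul p 1 δ (p⁻¹ * b)).2
      (cycle_cyc_one.2 ⟨(cycle_cyc_one.1 h2).1.trans hlt, hlt2⟩)
    rwa [mul_one, mul_inv_cancel_left] at h
  have hch : Ch t p (p * δ) := by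
    rcases hδ with h | h
    · left
      rw [inv_mul_cancel_left]
      exact h
    · right
      rw [mul_inv_rev, mul_assoc, inv_mul_cancel, mul_one]
      exact h
  obtain ⟨n, hn, hq1, hq2⟩ : ∃ n, n < k - 2 ∧ Cyc p (x (i + 2 + n)) (p * δ) ∧
      ¬ Cyc p (x (i + 2 + n + 1)) (p * δ) := by
    by_contra hno
    push Not at hno
    have hall : ∀ n, n ≤ k - 2 → Cyc p (x (i + 2 + n)) (p * δ) := by
      intro n
      induction n with
      | zero =>
        intro _
        rw [Nat.add_zero, ← ha]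
        exact hz1
      | succ n ih =>
        intro hn
        exact hno n (by omega) (ih (by omega))
    have h := hall (k - 2) le_rfl
    have h3 : i + 2 + (k - 2) = i + k := by omega
    rw [h3, hx.per, ← hb] at h
    unfold Cyc at h hz2
    grind
  have hj1 : Cyc p (x (i + 2 + n)) (x (i + 2 + n + 1)) := by
    have h := hccw (i + 2 + n) (i + 1 + k) (by omega) (by omega)
    rw [hx.per, ← hp] at h
    exact h.rot.rot
  have hne : p * δ ≠ x (i + 2 + n + 1) := by
    intro h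
    by_cases hjk : i + 2 + n + 1 = i + k
    · rw [hjk, hx.per, ← hb] at h
      rw [h] at hz2
      unfold Cyc at hz2
      grind
    · refine hnd (i + 1) (i + 2 + n + 1) (by omega) (by omega) ?_
      rw [← hp, ← h]
      exact hch
  exact sys_iff_ch.mp ht p (p * δ) _ _ hch (hx.ch (i + 2 + n)) (cycle_order hq1 hq2 hj1 hne)

theorem cycle_down {t : Set (F g)} (ht : Sys t) {k : ℕ} (hk : 3 ≤ k) {x : ℕ → F g}
    (hx : IsCycle t k x) (hnd : ∀ i j, i + 1 < j → j + 1 < i + k → ¬ Ch t (x i) (x j))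
    (hccw : ∀ i j, i + 1 < j → j < i + k → Cyc (x i) (x (i + 1)) (x j)) :
    ∀ n i j : ℕ, (x (i + n))⁻¹ * x (i + n + 1) = (x (j + n))⁻¹ * x (j + n + 1) →
      (x i)⁻¹ * x (i + 1) = (x j)⁻¹ * x (j + 1) := by
  have key : ∀ i j : ℕ, (x (i + 1))⁻¹ * x (i + 2) = (x (j + 1))⁻¹ * x (j + 2) →
      ((x i)⁻¹ * x (i + 1))⁻¹ ≤ ((x j)⁻¹ * x (j + 1))⁻¹ := by
    intro i j h
    refine (cycle_next ht hk hx hnd hccw i).2 _ ?_ ?_
    · rcases hx.ch j with h1 | h1
      · right
        rwa [_root_.inv_inv]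
      · left
        rwa [mul_inv_rev, _root_.inv_inv]
    · rw [h]
      exact (cycle_next ht hk hx hnd hccw j).1
  intro n
  induction n with
  | zero =>
    intro i j h
    exact h
  | succ n ih =>
    intro i j h
    refine ih i j ?_
    exact inv_injective (le_antisymm (key (i + n) (j + n) h) (key (j + n) (i + n) h.symm))

theorem cycle_gam_ne {t : Set (F g)} (ht : Sys t) {k : ℕ} (hk : 3 ≤ k) {x : ℕ → F g}
    (hx : IsCycle t k x) (hnd : ∀ i j, i + 1 < j → j + 1 < i + k → ¬ Ch t (x i) (x j))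
    (hccw : ∀ i j, i + 1 < j → j < i + k → Cyc (x i) (x (i + 1)) (x j)) (i j : ℕ)
    (hij : i < j) (hjk : j < i + k) :
    (x i)⁻¹ * x (i + 1) ≠ (x j)⁻¹ * x (j + 1) := by
  intro heq
  obtain ⟨d, hd⟩ : ∃ d, d = j - i := ⟨_, rfl⟩
  have hper : ∀ a n, (x (a + n * k))⁻¹ * x (a + n * k + 1) = (x a)⁻¹ * x (a + 1) := by
    intro a n
    have h1 : a + n * k + 1 = a + 1 + n * k := by omega
    rw [h1, cycle_per hx.per, cycle_per hx.per]
  have hshift : ∀ m, (x m)⁻¹ * x (m + 1) = (x (m + d))⁻¹ * x (m + d + 1) := by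
    intro m
    have hmk : m ≤ m * k := Nat.le_mul_of_pos_right m (by omega)
    refine cycle_down ht hk hx hnd hccw (i + m * k - m) m (m + d) ?_
    have h1 : m + (i + m * k - m) = i + m * k := by omega
    have h2 : m + d + (i + m * k - m) = j + m * k := by omega
    rw [h1, h2, hper, hper]
    exact heq
  have hmul : ∀ m, x (m + d) = (x d * (x 0)⁻¹) * x m := by
    intro m
    induction m with
    | zero => rw [Nat.zero_add, inv_mul_cancel_right]
    | succ m ih =>
      have h1 : x (m + 1) = x m * ((x m)⁻¹ * x (m + 1)) := by rw [mul_inv_cancel_left]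
      have h2 : x (m + 1 + d) = x (m + d) * ((x (m + d))⁻¹ * x (m + d + 1)) := by
        rw [mul_inv_cancel_left, Nat.add_right_comm]
      rw [h2, ← hshift m, ih, mul_assoc, mul_inv_cancel_left]
  have hpow : ∀ n, x (n * d) = (x d * (x 0)⁻¹) ^ n * x 0 := by
    intro n
    induction n with
    | zero => rw [Nat.zero_mul, pow_zero, one_mul]
    | succ n ih => rw [Nat.succ_mul, hmul, ih, pow_succ', ← mul_assoc]
  have h1 := hpow k
  have h2 : x (k * d) = x 0 := by
    have h := cycle_per hx.per 0 d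
    rwa [Nat.zero_add, Nat.mul_comm] at h
  rw [h2] at h1
  have h3 : (x d * (x 0)⁻¹) ^ k = 1 := by
    have h := congrArg (fun y => y * (x 0)⁻¹) h1
    simp only [mul_inv_cancel_right, mul_inv_cancel] at h
    exact h.symm
  have h4 : x d * (x 0)⁻¹ = 1 := (pow_eq_one_iff_left (by omega)).1 h3
  exact hx.inj 0 d (by omega) (by omega) (mul_inv_eq_one.1 h4).symm

theorem cycle_ccw {t : Set (F g)} (ht : Sys t) {k : ℕ} (hk : 3 ≤ k) {x : ℕ → F g}
    (hx : IsCycle t k x) (hnd : ∀ i j, i + 1 < j → j + 1 < i + k → ¬ Ch t (x i) (x j))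
    (hccw : ∀ i j, i + 1 < j → j < i + k → Cyc (x i) (x (i + 1)) (x j)) :
    ∃ a ∈ t, a ∈ Subgroup.closure (t \ {a}) := by
  obtain ⟨i0, hi0, hmax⟩ := Finset.exists_max_image (Finset.range k)
    (fun m => (x m)⁻¹ * x (m + 1)) ⟨0, Finset.mem_range.2 (by omega)⟩
  have hper : ∀ a n, (x (a + n * k))⁻¹ * x (a + n * k + 1) = (x a)⁻¹ * x (a + 1) := by
    intro a n
    have h1 : a + n * k + 1 = a + 1 + n * k := by omega
    rw [h1, cycle_per hx.per, cycle_per hx.per]
  have hmax' : ∀ m, (x m)⁻¹ * x (m + 1) ≤ (x i0)⁻¹ * x (i0 + 1) := by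
    intro m
    have h1 : m = m % k + (m / k) * k := by
      rw [Nat.mul_comm]
      exact (Nat.mod_add_div m k).symm
    have h2 := hper (m % k) (m / k)
    rw [← h1] at h2
    rw [h2]
    exact hmax _ (Finset.mem_range.2 (Nat.mod_lt _ (by omega)))
  obtain ⟨i, hi⟩ : ∃ i, i + 1 = i0 + k := ⟨i0 + k - 1, by omega⟩
  have hi1 : (x (i + 1))⁻¹ * x (i + 2) = (x i0)⁻¹ * x (i0 + 1) := by
    have h := hper i0 1
    rw [Nat.one_mul, ← hi] at h
    exact h
  obtain ⟨δ, hδ⟩ : ∃ δ, δ = (x i)⁻¹ * x (i + 1) := ⟨_, rfl⟩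
  have hbig : ∀ m, (x m)⁻¹ * x (m + 1) ≠ δ⁻¹ := by
    intro m h
    have h1 := (cycle_next ht hk hx hnd hccw i).1
    rw [hi1, ← hδ, ← h] at h1
    exact absurd (hmax' m) (not_le.2 h1)
  have hother : ∀ m, i < m → m < i + k → (x m)⁻¹ * x (m + 1) ≠ δ := by
    intro m h1 h2 h3
    exact cycle_gam_ne ht hk hx hnd hccw i m h1 h2 (hδ.symm.trans h3.symm)
  obtain ⟨a, hat, haδ⟩ : ∃ a ∈ t, a = δ ∨ a = δ⁻¹ := by
    rcases hx.ch i with h | h
    · exact ⟨_, h, Or.inl hδ.symm⟩
    · refine ⟨_, h, Or.inr ?_⟩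
      rw [hδ, mul_inv_rev, _root_.inv_inv]
  have hgen : ∀ m, i < m → m < i + k → (x m)⁻¹ * x (m + 1) ∈ Subgroup.closure (t \ {a}) := by
    intro m h1 h2
    have h3 := hbig m
    have h4 := hother m h1 h2
    rcases hx.ch m with h | h
    · refine Subgroup.subset_closure ⟨h, ?_⟩
      intro h5
      rw [Set.mem_singleton_iff] at h5
      rcases haδ with h6 | h6
      · exact h4 (h5.trans h6)
      · exact h3 (h5.trans h6)
    · have e1 : (x m)⁻¹ * x (m + 1) = ((x (m + 1))⁻¹ * x m)⁻¹ := by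
        rw [mul_inv_rev, _root_.inv_inv]
      rw [e1]
      refine Subgroup.inv_mem _ (Subgroup.subset_closure ⟨h, ?_⟩)
      intro h5
      rw [Set.mem_singleton_iff] at h5
      rw [h5] at e1
      rcases haδ with h6 | h6
      · exact h3 (by rw [e1, h6])
      · exact h4 (by rw [e1, h6, _root_.inv_inv])
  have hprod : ∀ n, n < k → (x (i + 1))⁻¹ * x (i + 1 + n) ∈ Subgroup.closure (t \ {a}) := by
    intro n
    induction n with
    | zero =>
      intro _
      rw [Nat.add_zero, inv_mul_cancel]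
      exact Subgroup.one_mem _
    | succ n ih =>
      intro hn
      have h1 : (x (i + 1))⁻¹ * x (i + 1 + (n + 1)) =
          ((x (i + 1))⁻¹ * x (i + 1 + n)) * ((x (i + 1 + n))⁻¹ * x (i + 1 + n + 1)) := by
        rw [mul_assoc, mul_inv_cancel_left]
        rfl
      rw [h1]
      exact Subgroup.mul_mem _ (ih (by omega)) (hgen _ (by omega) (by omega))
  have hδm : δ⁻¹ ∈ Subgroup.closure (t \ {a}) := by
    have h1 := hprod (k - 1) (by omega)
    have h2 : i + 1 + (k - 1) = i + k := by omega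
    rw [h2, hx.per] at h1
    rw [hδ, mul_inv_rev, _root_.inv_inv]
    exact h1
  refine ⟨a, hat, ?_⟩
  rcases haδ with h | h
  · rw [h] at hδm ⊢
    have h1 := Subgroup.inv_mem _ hδm
    rwa [_root_.inv_inv] at h1
  · rw [h]
    rw [h] at hδm
    exact hδm

theorem cycle_redundant {t : Set (F g)} (hfin : t.Finite) (ht : Sys t) {k : ℕ} (hk : 3 ≤ k)
    {x : ℕ → F g} (hx : IsCycle t k x)
    (hmin : ∀ k', 3 ≤ k' → k' < k → ¬ ∃ x' : ℕ → F g, IsCycle t k' x') :
    ∃ a ∈ t, a ∈ Subgroup.closure (t \ {a}) := by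
  rcases convex k hk x hx.per hx.inj
    (fun i j => sys_iff_ch.mp ht _ _ _ _ (hx.ch i) (hx.ch j)) with hc | hc
  · exact cycle_ccw ht hk hx (cycle_no_diag hx hmin) hc
  · obtain ⟨c, rfl⟩ : ∃ c, k = c + 1 := ⟨k - 1, by omega⟩
    have hrev : ∀ m d, d ≤ c + 1 → x (m + c * d) = x (m + (c + 1 - d)) := by
      intro m d hd
      have h1 : m + c * d + (c + 1) = m + (c + 1 - d) + d * (c + 1) := by
        have h2 : d * (c + 1) = c * d + d := by ring
        omega
      rw [← hx.per (m + c * d), h1, cycle_per hx.per]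
    have hx' : IsCycle t (c + 1) (fun i => x (c * i)) := by
      refine ⟨?_, ?_, ?_⟩
      · intro i
        show x (c * (i + (c + 1))) = x (c * i)
        have h1 : c * (i + (c + 1)) = c * i + c * (c + 1) := by ring
        rw [h1, cycle_per hx.per]
      · intro i j h1 h2 h3
        have h4 : j = i + (j - i) := by omega
        have h5 : c * j = c * i + c * (j - i) := by
          conv_lhs => rw [h4]
          ring
        have h6 : x (c * i) = x (c * j) := h3
        rw [h5, hrev _ _ (by omega)] at h6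
        exact hx.inj (c * i) (c * i + (c + 1 - (j - i))) (by omega) (by omega) h6
      · intro i
        show Ch t (x (c * i)) (x (c * (i + 1)))
        have h1 := (hx.ch (c * (i + 1))).symm
        have h2 : c * (i + 1) + 1 = c * i + (c + 1) := by ring
        rw [h2, hx.per] at h1
        exact h1
    refine cycle_ccw ht hk hx' (cycle_no_diag hx' hmin) ?_
    intro i j h1 h2
    show Cyc (x (c * i)) (x (c * (i + 1))) (x (c * j))
    have h4 : j = i + 1 + (j - i - 1) := by omega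
    have h5 : c * j = c * (i + 1) + c * (j - i - 1) := by
      conv_lhs => rw [h4]
      ring
    have h6 : c * (i + 1) + 1 = c * i + (c + 1) := by ring
    have h7 : x (c * i) = x (c * (i + 1) + 1) := by rw [h6, hx.per]
    rw [h7, h5, hrev _ _ (by omega)]
    exact hc (c * (i + 1)) _ (by omega) (by omega)

end TorM
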