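import Mathlib

/-! MP_05cdf2_gt, stream K, job ListCx: the complex of lists and the abstract flow lemma.

`dl (x :: l) = l - x :: dl l`, `dl [] = 0`; `dL` its linear extension to `List V →₀ ℤ`.

`dl_append`: `dl (l₁ ++ l₂) = (dl l₁) ++ l₂ + (-1)^|l₁| l₁ ++ (dl l₂)`, induction on `l₁`.
`dL_dL`: `dL (dL x) = 0`; `dL (x :: c) = c - x :: dL c` for every chain `c` (`dL_cons`); induction on the list.
`dl_support`: the lists in `dl l` are sublists of `l` of length `|l| - 1`. Induction.

FLOW. Data: `pr : V → WithTop P` (priority; `⊤` = finished), `st : V → V`, `μ : V → ℕ` with `μ (st v) < μ v` if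
`pr v ≠ ⊤`; a set `K` of lists closed under sublists; `hst`: if `l₁ ++ v :: l₂ ∈ K`, `v` is the FIRST entry of minimal
priority and `pr v ≠ ⊤`, then `l₁ ++ v :: st v :: l₂ ∈ K`.

`fin v` := iterate `st` until the priority is `⊤` (well founded recursion on `μ`). For a list with not all priorities
`⊤` there is a unique decomposition `l = l₁ ++ v :: l₂` with `pr v ≠ ⊤`, `pr v < pr w` for `w ∈ l₁`, `pr v ≤ pr w` for
`w ∈ l₂`. Define `H l` (well founded recursion on `(l.map μ).sum`): `H l = 0` if all priorities are `⊤`, otherwise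
`H l = (-1)^|l₁| (l₁ ++ v :: st v :: l₂) + H (l₁ ++ st v :: l₂)`. (Or avoid the recursion: prove the
existence of a function with this property, `WellFounded.fix`.)
Then for ALL lists `dL (H l) + H (dl l) = (l.map fin) - l` (`H` extended linearly), by strong induction on
`(l.map μ).sum`, then on the length. If all priorities are `⊤`: the same for the faces, both sides are `0`
(`fin v = v`). Otherwise let `l' = l₁ ++ st v :: l₂`, `l.map fin = l'.map fin`, `T = (-1)^|l₁| (l₁ ++ v :: st v :: l₂)`.
By induction `dL (H l') + H (dl l') = l'.map fin - l'`. By `dl_append`: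
`dL T = (-1)^|l₁| (dl l₁) ++ v :: st v :: l₂ + (l₁ ++ st v :: l₂) - (l₁ ++ v :: l₂) + l₁ ++ v :: st v :: (dl l₂)`
(the last sign: `(-1)^|l₁| (-1)^(|l₁| + 2) = 1`). And
`dl l = (dl l₁) ++ v :: l₂ + (-1)^|l₁| (l₁ ++ l₂) - (-1)^|l₁| l₁ ++ v :: (dl l₂)`, `dl l'` is the same with `st v`
instead of `v`. For a face `m` of `l₁` (with one entry less) the decomposition of `m ++ v :: l₂` is the given one, so
`H (m ++ v :: l₂) - H (m ++ st v :: l₂) = (-1)^|m| (m ++ v :: st v :: l₂)`, `|m| = |l₁| - 1`; for a face `m` of `l₂`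
`H (l₁ ++ v :: m) - H (l₁ ++ st v :: m) = (-1)^|l₁| (l₁ ++ v :: st v :: m)`. Therefore
`H (dl l) - H (dl l') = - (-1)^|l₁| (dl l₁) ++ v :: st v :: l₂ - l₁ ++ v :: st v :: (dl l₂)`, and adding up
`dL T + H (dl l) - H (dl l') = l' - l`. 
Moreover for `l ∈ K`: `l' ∈ K` (sublist of `l₁ ++ v :: st v :: l₂`), so `H l` is supported in `K` and
`l.map fin ∈ K`, all priorities in `l.map fin` are `⊤`.
-/

set_option autoImplicit false

namespace TorM
open Finsupp

variable {V P : Type}

/-- boundary of a list -/
noncomputable def dl : List V → (List V →₀ ℤ)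
  | [] => 0
  | x :: l => single l 1 - mapDomain (List.cons x) (dl l)

/-- boundary of a chain -/
noncomputable def dL : (List V →₀ ℤ) →ₗ[ℤ] (List V →₀ ℤ) := Finsupp.linearCombination ℤ dl

theorem dL_single (l : List V) : dL (single l 1) = dl l := by
  unfold dL
  rw [linearCombination_single, one_smul]

/-- the map of chains induced by a map of lists, as a linear map -/
noncomputable def listcxM {V W : Type} (f : List V → List W) : (List V →₀ ℤ) →ₗ[ℤ] (List W →₀ ℤ) :=
  Finsupp.lmapDomain ℤ ℤ f

theorem listcxM_apply {V W : Type} (f : List V → List W) (c : List V →₀ ℤ) :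
    listcxM f c = mapDomain f c := rfl

theorem listcxM_single {V W : Type} (f : List V → List W) (l : List V) (n : ℤ) :
    listcxM f (single l n) = single (f l) n := by
  rw [listcxM_apply, mapDomain_single]

theorem listcxM_comp {V W U : Type} (f : List V → List W) (h : List W → List U)
    (c : List V →₀ ℤ) : listcxM h (listcxM f c) = listcxM (fun l => h (f l)) c := by
  rw [listcxM_apply, listcxM_apply, listcxM_apply, ← mapDomain_comp]
  rfl

theorem listcx_dl_cons (x : V) (l : List V) :
    dl (x :: l) = single l 1 - listcxM (List.cons x) (dl l) := rfl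

theorem listcx_append (l₁ l₂ : List V) : dl (l₁ ++ l₂) =
    listcxM (fun m => m ++ l₂) (dl l₁) + (-1) ^ l₁.length • listcxM (fun m => l₁ ++ m) (dl l₂) := by
  induction l₁ with
  | nil =>
    have h : (fun m : List V => [] ++ m) = id := by
      funext m
      simp
    rw [h, List.nil_append, List.length_nil, pow_zero, one_smul, listcxM_apply, listcxM_apply,
      mapDomain_id]
    simp [dl]
  | cons x l₁ ih =>
    rw [List.cons_append, listcx_dl_cons, ih, listcx_dl_cons, map_sub, map_add, listcxM_single,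
      map_smul, listcxM_comp, listcxM_comp, listcxM_comp, List.length_cons, pow_succ]
    simp only [List.cons_append, mul_neg, mul_one, neg_smul]
    abel

theorem dl_append (l₁ l₂ : List V) : dl (l₁ ++ l₂) =
    mapDomain (fun m => m ++ l₂) (dl l₁) + (-1) ^ l₁.length • mapDomain (fun m => l₁ ++ m) (dl l₂) :=
  listcx_append l₁ l₂

theorem listcx_dL_cons (x : V) (c : List V →₀ ℤ) :
    dL (listcxM (List.cons x) c) = c - listcxM (List.cons x) (dL c) := by
  have h : (dL (V := V)) ∘ₗ listcxM (List.cons x) =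
      LinearMap.id - (listcxM (List.cons x)) ∘ₗ dL := by
    refine Finsupp.lhom_ext' fun l => LinearMap.ext_ring ?_
    simp only [LinearMap.comp_apply, LinearMap.sub_apply, LinearMap.id_apply,
      Finsupp.lsingle_apply, listcxM_single, dL_single]
    rfl
  exact LinearMap.congr_fun h c

theorem dL_cons (x : V) (c : List V →₀ ℤ) :
    dL (mapDomain (List.cons x) c) = c - mapDomain (List.cons x) (dL c) :=
  listcx_dL_cons x c

theorem listcx_dL_dl (l : List V) : dL (dl l) = 0 := by
  induction l with
  | nil => simp [dl]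
  | cons x l ih =>
    rw [listcx_dl_cons, map_sub, dL_single, listcx_dL_cons, ih, map_zero]
    abel

theorem dL_dL (c : List V →₀ ℤ) : dL (dL c) = 0 := by
  have h : (dL (V := V)) ∘ₗ dL = 0 := by
    refine Finsupp.lhom_ext' fun l => LinearMap.ext_ring ?_
    simp only [LinearMap.comp_apply, Finsupp.lsingle_apply, dL_single, listcx_dL_dl,
      LinearMap.zero_apply]
  exact LinearMap.congr_fun h c

theorem dl_support (l : List V) : ∀ m ∈ (dl l).support, m.Sublist l ∧ m.length + 1 = l.length := by
  classical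
  induction l with
  | nil =>
    intro m hm
    simp [dl] at hm
  | cons x l ih =>
    intro m hm
    have h1 : m ∈ (single l (1 : ℤ)).support ∪ (mapDomain (List.cons x) (dl l)).support :=
      Finsupp.support_sub hm
    rcases Finset.mem_union.1 h1 with h | h
    · have h2 := Finsupp.support_single_subset h
      rw [Finset.mem_singleton] at h2
      rw [h2]
      exact ⟨List.sublist_cons_self x l, rfl⟩
    · have h2 := Finsupp.mapDomain_support h
      obtain ⟨m', hm', rfl⟩ := Finset.mem_image.1 h2
      obtain ⟨h3, h4⟩ := ih m' hm'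
      exact ⟨h3.cons_cons x, by rw [List.length_cons, List.length_cons, h4]⟩

theorem listcx_map_dl {W : Type} (f : V → W) (l : List V) :
    dl (l.map f) = listcxM (List.map f) (dl l) := by
  induction l with
  | nil => simp [dl]
  | cons x l ih =>
    rw [List.map_cons, listcx_dl_cons, listcx_dl_cons, map_sub, listcxM_single, ih, listcxM_comp,
      listcxM_comp]
    rfl

/-- `dL` commutes with maps of vertices -/
theorem dL_map {W : Type} (f : V → W) (c : List V →₀ ℤ) :
    dL (mapDomain (List.map f) c) = mapDomain (List.map f) (dL c) := by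
  have h : (dL (V := W)) ∘ₗ listcxM (List.map f) = (listcxM (List.map f)) ∘ₗ dL := by
    refine Finsupp.lhom_ext' fun l => LinearMap.ext_ring ?_
    simp only [LinearMap.comp_apply, Finsupp.lsingle_apply, listcxM_single, dL_single]
    exact listcx_map_dl f l
  exact LinearMap.congr_fun h c

section flow

variable [LinearOrder P] (pr : V → WithTop P) (st : V → V) (μ : V → ℕ)

/-- the first entry of minimal priority, if not all priorities are `⊤` -/
def listcxDec : List V → Option (List V × V × List V)
  | [] => none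
  | x :: l =>
    match listcxDec l with
    | none => if pr x = ⊤ then none else Option.some ([], x, l)
    | Option.some (l₁, v, l₂) => if pr x ≤ pr v then Option.some ([], x, l) else Option.some (x :: l₁, v, l₂)

/-- the property of the decomposition -/
def listcxP (l l₁ : List V) (v : V) (l₂ : List V) : Prop :=
  l = l₁ ++ v :: l₂ ∧ pr v ≠ ⊤ ∧ (∀ w ∈ l₁, pr v < pr w) ∧ ∀ w ∈ l₂, pr v ≤ pr w

theorem listcxDec_spec (l : List V) : (listcxDec pr l = none ∧ ∀ w ∈ l, pr w = ⊤) ∨
    ∃ l₁ v l₂, listcxDec pr l = Option.some (l₁, v, l₂) ∧ listcxP pr l l₁ v l₂ := by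
  induction l with
  | nil => exact Or.inl ⟨rfl, by simp⟩
  | cons x l ih =>
    rcases ih with ⟨h1, h2⟩ | ⟨l₁, v, l₂, h1, h2⟩
    · by_cases hx : pr x = ⊤
      · left
        refine ⟨by simp [listcxDec, h1, hx], ?_⟩
        intro w hw
        rcases List.mem_cons.1 hw with rfl | hw
        · exact hx
        · exact h2 w hw
      · right
        refine ⟨[], x, l, by simp [listcxDec, h1, hx], rfl, hx, by simp, ?_⟩
        intro w hw
        rw [h2 w hw]
        exact le_top
    · right
      obtain ⟨e, hv, ha, hb⟩ := h2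
      by_cases hx : pr x ≤ pr v
      · refine ⟨[], x, l, by simp [listcxDec, h1, hx], rfl, ?_, by simp, ?_⟩
        · intro h
          rw [h, top_le_iff] at hx
          exact hv hx
        · intro w hw
          rw [e, List.mem_append, List.mem_cons] at hw
          rcases hw with hw | rfl | hw
          · exact hx.trans (ha w hw).le
          · exact hx
          · exact hx.trans (hb w hw)
      · refine ⟨x :: l₁, v, l₂, by simp [listcxDec, h1, hx], by rw [e]; rfl, hv, ?_, hb⟩
        intro w hw
        rcases List.mem_cons.1 hw with rfl | hw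
        · exact lt_of_not_ge hx
        · exact ha w hw

theorem listcxDec_eq {l l₁ l₂ : List V} {v : V} (h : listcxP pr l l₁ v l₂) :
    listcxDec pr l = Option.some (l₁, v, l₂) := by
  obtain ⟨e, hv, ha, hb⟩ := h
  subst e
  induction l₁ with
  | nil =>
    rcases listcxDec_spec pr l₂ with ⟨h1, _⟩ | ⟨a, u, b, h1, h2⟩
    · simp [listcxDec, h1, hv]
    · have hu : u ∈ l₂ := by
        rw [h2.1]
        simp
      simp [listcxDec, h1, hb u hu]
  | cons x l₁ ih =>
    have h1 := ih fun w hw => ha w (List.mem_cons_of_mem x hw)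
    have h2 : ¬ pr x ≤ pr v := not_le.2 (ha x List.mem_cons_self)
    simp [listcxDec, h1, h2]

theorem listcxDec_P {l l₁ l₂ : List V} {v : V} (h : listcxDec pr l = Option.some (l₁, v, l₂)) :
    listcxP pr l l₁ v l₂ := by
  rcases listcxDec_spec pr l with ⟨h1, _⟩ | ⟨a, u, b, h1, h2⟩
  · rw [h1] at h
    cases h
  · rw [h1] at h
    cases h
    exact h2

theorem listcx_lt (hμ : ∀ v, pr v ≠ ⊤ → μ (st v) < μ v) {l l₁ l₂ : List V} {v : V}
    (h : listcxP pr l l₁ v l₂) : ((l₁ ++ st v :: l₂).map μ).sum < (l.map μ).sum := by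
  obtain ⟨e, hv, -, -⟩ := h
  have := hμ v hv
  rw [e]
  simp only [List.map_append, List.map_cons, List.sum_append, List.sum_cons]
  omega

/-- the homotopy of the flow -/
noncomputable def listcxH (hμ : ∀ v, pr v ≠ ⊤ → μ (st v) < μ v) (l : List V) : List V →₀ ℤ :=
  match h : listcxDec pr l with
  | none => 0
  | Option.some (l₁, v, l₂) =>
    (-1 : ℤ) ^ l₁.length • single (l₁ ++ v :: st v :: l₂) (1 : ℤ) +
      listcxH hμ (l₁ ++ st v :: l₂)
termination_by (l.map μ).sum
decreasing_by exact listcx_lt pr st μ hμ (listcxDec_P pr h)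

/-- the end of the flow line -/
noncomputable def listcxFin (hμ : ∀ v, pr v ≠ ⊤ → μ (st v) < μ v) (v : V) : V :=
  if h : pr v = ⊤ then v else listcxFin hμ (st v)
termination_by μ v
decreasing_by exact hμ v h

variable {pr st μ}

theorem listcxH_none (hμ : ∀ v, pr v ≠ ⊤ → μ (st v) < μ v) {l : List V}
    (h : ∀ w ∈ l, pr w = ⊤) : listcxH pr st μ hμ l = 0 := by
  rw [listcxH]
  rcases listcxDec_spec pr l with ⟨h1, _⟩ | ⟨a, u, b, h1, h2⟩
  · split
    · rfl
    · rename_i h3
      rw [h1] at h3
      cases h3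
  · exact absurd (h u (by rw [h2.1]; simp)) h2.2.1

theorem listcxH_some (hμ : ∀ v, pr v ≠ ⊤ → μ (st v) < μ v) {l l₁ l₂ : List V} {v : V}
    (h : listcxP pr l l₁ v l₂) : listcxH pr st μ hμ l =
      (-1 : ℤ) ^ l₁.length • single (l₁ ++ v :: st v :: l₂) (1 : ℤ) +
        listcxH pr st μ hμ (l₁ ++ st v :: l₂) := by
  have h1 := listcxDec_eq pr h
  conv_lhs => rw [listcxH]
  split
  · rename_i h3
    rw [h1] at h3
    cases h3
  · rename_i a u b h3
    rw [h1] at h3
    cases h3
    rfl

theorem listcxFin_top (hμ : ∀ v, pr v ≠ ⊤ → μ (st v) < μ v) {v : V} (h : pr v = ⊤) :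
    listcxFin pr st μ hμ v = v := by
  rw [listcxFin, dif_pos h]

theorem listcxFin_st (hμ : ∀ v, pr v ≠ ⊤ → μ (st v) < μ v) {v : V} (h : pr v ≠ ⊤) :
    listcxFin pr st μ hμ v = listcxFin pr st μ hμ (st v) := by
  conv_lhs => rw [listcxFin, dif_neg h]

theorem listcxFin_spec (hμ : ∀ v, pr v ≠ ⊤ → μ (st v) < μ v) (n : ℕ) : ∀ v, μ v = n →
    pr (listcxFin pr st μ hμ v) = ⊤ ∧ ∃ k : ℕ, listcxFin pr st μ hμ v = st^[k] v := by
  induction n using Nat.strong_induction_on with
  | _ n ih =>
    intro v hv
    by_cases h : pr v = ⊤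
    · rw [listcxFin_top hμ h]
      exact ⟨h, 0, rfl⟩
    · rw [listcxFin_st hμ h]
      obtain ⟨h1, k, h2⟩ := ih (μ (st v)) (by rw [← hv]; exact hμ v h) (st v) rfl
      exact ⟨h1, k + 1, by rw [h2, Function.iterate_succ_apply]⟩

theorem listcx_map_fin (hμ : ∀ v, pr v ≠ ⊤ → μ (st v) < μ v) {l l₁ l₂ : List V} {v : V}
    (h : listcxP pr l l₁ v l₂) : l.map (listcxFin pr st μ hμ) =
      (l₁ ++ st v :: l₂).map (listcxFin pr st μ hμ) := by
  rw [h.1, List.map_append, List.map_append, List.map_cons, List.map_cons, listcxFin_st hμ h.2.1]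

theorem listcx_map_top (hμ : ∀ v, pr v ≠ ⊤ → μ (st v) < μ v) {l : List V}
    (h : ∀ w ∈ l, pr w = ⊤) : l.map (listcxFin pr st μ hμ) = l := by
  conv_rhs => rw [← List.map_id l]
  exact List.map_congr_left fun w hw => listcxFin_top hμ (h w hw)

/-- comparison of linear combinations -/
theorem listcx_lin (H : List V → (List V →₀ ℤ)) (f k h : List V → List V) (t : ℤ)
    (c : List V →₀ ℤ) (hc : ∀ m ∈ c.support, H (f m) - H (k m) = t • single (h m) (1 : ℤ)) :
    Finsupp.linearCombination ℤ H (listcxM f c) - Finsupp.linearCombination ℤ H (listcxM k c) =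
      t • listcxM h c := by
  rw [listcxM_apply, listcxM_apply, listcxM_apply, Finsupp.linearCombination_mapDomain,
    Finsupp.linearCombination_mapDomain, Finsupp.linearCombination_apply,
    Finsupp.linearCombination_apply, Finsupp.sum, Finsupp.sum, ← Finset.sum_sub_distrib,
    Finsupp.mapDomain, Finsupp.sum, Finset.smul_sum]
  refine Finset.sum_congr rfl fun m hm => ?_
  rw [Function.comp_apply, Function.comp_apply, ← smul_sub, hc m hm, smul_comm]
  congr 1
  rw [Finsupp.smul_single, smul_eq_mul, mul_one]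

theorem listcx_identity (hμ : ∀ v, pr v ≠ ⊤ → μ (st v) < μ v) (n : ℕ) : ∀ l : List V,
    (l.map μ).sum = n → dL (listcxH pr st μ hμ l) +
      Finsupp.linearCombination ℤ (listcxH pr st μ hμ) (dl l) =
        single (l.map (listcxFin pr st μ hμ)) 1 - single l 1 := by
  induction n using Nat.strong_induction_on with
  | _ n ih =>
    intro l hl
    rcases listcxDec_spec pr l with ⟨_, h0⟩ | ⟨l₁, v, l₂, _, hP⟩
    · rw [listcxH_none hμ h0, listcx_map_top hμ h0, map_zero, sub_self, zero_add,
        Finsupp.linearCombination_apply]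
      refine Finset.sum_eq_zero fun m hm => ?_
      have h1 := (dl_support l m hm).1
      show (dl l) m • listcxH pr st μ hμ m = 0
      rw [listcxH_none hμ fun w hw => h0 w (h1.subset hw), smul_zero]
    · set l' := l₁ ++ st v :: l₂ with hl'
      have hlt := listcx_lt pr st μ hμ hP
      have ih' := ih _ (by rw [← hl]; exact hlt) l' rfl
      rw [← listcx_map_fin hμ hP] at ih'
      rw [listcxH_some hμ hP, map_add, map_smul, dL_single]
      set LH := Finsupp.linearCombination ℤ (listcxH pr st μ hμ) with hLH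
      set s : ℤ := (-1) ^ l₁.length with hs
      have hss : s * s = 1 := by
        rw [hs, ← mul_pow]
        norm_num
      obtain ⟨e, hv, ha, hb⟩ := hP
      -- the boundaries
      have d1 : dl (l₁ ++ v :: st v :: l₂) = listcxM (fun m => m ++ v :: st v :: l₂) (dl l₁) +
          s • (single l' 1 - single l 1 + listcxM (fun m => l₁ ++ v :: st v :: m) (dl l₂)) := by
        rw [listcx_append, listcx_dl_cons, listcx_dl_cons, map_sub, map_sub, map_sub,
          listcxM_single, listcxM_single, listcxM_single, listcxM_comp, listcxM_comp, ← hs, hl', e]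
        congr 2
        abel
      have d2 : ∀ u : V, dl (l₁ ++ u :: l₂) = listcxM (fun m => m ++ u :: l₂) (dl l₁) +
          s • (single (l₁ ++ l₂) 1 - listcxM (fun m => l₁ ++ u :: m) (dl l₂)) := by
        intro u
        rw [listcx_append, listcx_dl_cons, map_sub, listcxM_single, listcxM_comp]
      have c1 : LH (listcxM (fun m => m ++ v :: l₂) (dl l₁)) -
          LH (listcxM (fun m => m ++ st v :: l₂) (dl l₁)) =
            (-s) • listcxM (fun m => m ++ v :: st v :: l₂) (dl l₁) := by
        refine listcx_lin _ _ _ _ _ _ fun m hm => ?_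
        obtain ⟨h1, h2⟩ := dl_support l₁ m hm
        have hP' : listcxP pr (m ++ v :: l₂) m v l₂ :=
          ⟨rfl, hv, fun w hw => ha w (h1.subset hw), hb⟩
        rw [listcxH_some hμ hP', add_sub_cancel_right]
        congr 1
        rw [hs, ← h2, pow_succ]
        ring
      have c2 : LH (listcxM (fun m => l₁ ++ v :: m) (dl l₂)) -
          LH (listcxM (fun m => l₁ ++ st v :: m) (dl l₂)) =
            s • listcxM (fun m => l₁ ++ v :: st v :: m) (dl l₂) := by
        refine listcx_lin _ _ _ _ _ _ fun m hm => ?_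
        obtain ⟨h1, h2⟩ := dl_support l₂ m hm
        have hP' : listcxP pr (l₁ ++ v :: m) l₁ v m :=
          ⟨rfl, hv, ha, fun w hw => hb w (h1.subset hw)⟩
        rw [listcxH_some hμ hP', add_sub_cancel_right]
      have c3 : LH (dl l) - LH (dl l') = (-s) • listcxM (fun m => m ++ v :: st v :: l₂) (dl l₁) -
          listcxM (fun m => l₁ ++ v :: st v :: m) (dl l₂) := by
        have e1 : LH (dl l) - LH (dl l') =
            (LH (listcxM (fun m => m ++ v :: l₂) (dl l₁)) -
              LH (listcxM (fun m => m ++ st v :: l₂) (dl l₁))) -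
            s • (LH (listcxM (fun m => l₁ ++ v :: m) (dl l₂)) -
              LH (listcxM (fun m => l₁ ++ st v :: m) (dl l₂))) := by
          rw [hl', e, d2, d2]
          simp only [map_add, map_smul, map_sub, smul_sub]
          abel
        rw [e1, c1, c2, smul_smul, hss, one_smul]
      have d3 : s • dl (l₁ ++ v :: st v :: l₂) =
          s • listcxM (fun m => m ++ v :: st v :: l₂) (dl l₁) +
            (single l' 1 - single l 1 + listcxM (fun m => l₁ ++ v :: st v :: m) (dl l₂)) := by
        rw [d1, smul_add, smul_smul, hss, one_smul]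
      have key : s • dl (l₁ ++ v :: st v :: l₂) + (LH (dl l) - LH (dl l')) =
          single l' 1 - single l 1 := by
        rw [d3, c3, neg_smul]
        abel
      calc s • dl (l₁ ++ v :: st v :: l₂) + dL (listcxH pr st μ hμ l') + LH (dl l)
          = (s • dl (l₁ ++ v :: st v :: l₂) + (LH (dl l) - LH (dl l'))) +
            (dL (listcxH pr st μ hμ l') + LH (dl l')) := by abel
        _ = _ := by
          rw [key, ih']
          abel

theorem listcx_K (hμ : ∀ v, pr v ≠ ⊤ → μ (st v) < μ v) (K : Set (List V))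
    (hK : ∀ l ∈ K, ∀ l' : List V, l'.Sublist l → l' ∈ K)
    (hst : ∀ (l₁ : List V) (v : V) (l₂ : List V), l₁ ++ v :: l₂ ∈ K → pr v ≠ ⊤ →
      (∀ w ∈ l₁, pr v < pr w) → (∀ w ∈ l₂, pr v ≤ pr w) → l₁ ++ v :: st v :: l₂ ∈ K)
    (n : ℕ) : ∀ l ∈ K, (l.map μ).sum = n → l.map (listcxFin pr st μ hμ) ∈ K ∧
      ∀ m ∈ (listcxH pr st μ hμ l).support, m ∈ K ∧ m.length = l.length + 1 := by
  classical
  induction n using Nat.strong_induction_on with
  | _ n ih =>
    intro l hlK hl
    rcases listcxDec_spec pr l with ⟨_, h0⟩ | ⟨l₁, v, l₂, _, hP⟩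
    · rw [listcxH_none hμ h0, listcx_map_top hμ h0]
      exact ⟨hlK, by simp⟩
    · have hlt := listcx_lt pr st μ hμ hP
      have hT : l₁ ++ v :: st v :: l₂ ∈ K :=
        hst l₁ v l₂ (by rw [← hP.1]; exact hlK) hP.2.1 hP.2.2.1 hP.2.2.2
      have hl'K : l₁ ++ st v :: l₂ ∈ K := by
        refine hK _ hT _ ?_
        exact List.Sublist.append_left (List.sublist_cons_self v _) l₁
      obtain ⟨h1, h2⟩ := ih _ (by rw [← hl]; exact hlt) _ hl'K rfl
      rw [listcx_map_fin hμ hP, listcxH_some hμ hP]
      refine ⟨h1, fun m hm => ?_⟩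
      have hlen : (l₁ ++ st v :: l₂).length = l.length := by
        rw [hP.1]
        simp
      rcases Finset.mem_union.1 (Finsupp.support_add hm) with h | h
      · have h3 := Finsupp.support_single_subset (Finsupp.support_smul h)
        rw [Finset.mem_singleton] at h3
        rw [h3]
        refine ⟨hT, ?_⟩
        rw [hP.1]
        simp
        omega
      · obtain ⟨h3, h4⟩ := h2 m h
        exact ⟨h3, by rw [h4, hlen]⟩

end flow

theorem flow [LinearOrder P] (pr : V → WithTop P) (st : V → V) (μ : V → ℕ)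
    (hμ : ∀ v, pr v ≠ ⊤ → μ (st v) < μ v) (K : Set (List V))
    (hK : ∀ l ∈ K, ∀ l' : List V, l'.Sublist l → l' ∈ K)
    (hst : ∀ (l₁ : List V) (v : V) (l₂ : List V), l₁ ++ v :: l₂ ∈ K → pr v ≠ ⊤ →
      (∀ w ∈ l₁, pr v < pr w) → (∀ w ∈ l₂, pr v ≤ pr w) → l₁ ++ v :: st v :: l₂ ∈ K) :
    ∃ (fin : V → V) (H : List V → (List V →₀ ℤ)),
      (∀ v, pr (fin v) = ⊤) ∧ (∀ v, pr v = ⊤ → fin v = v) ∧ (∀ v, ∃ n : ℕ, fin v = st^[n] v) ∧
      (∀ l ∈ K, l.map fin ∈ K) ∧
      (∀ l ∈ K, ∀ m ∈ (H l).support, m ∈ K ∧ m.length = l.length + 1) ∧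
      ∀ l, dL (H l) + Finsupp.linearCombination ℤ H (dl l) = single (l.map fin) 1 - single l 1 :=
  ⟨listcxFin pr st μ hμ, listcxH pr st μ hμ, fun v => (listcxFin_spec hμ _ v rfl).1,
    fun _ hv => listcxFin_top hμ hv, fun v => (listcxFin_spec hμ _ v rfl).2,
    fun l hl => (listcx_K hμ K hK hst _ l hl rfl).1,
    fun l hl => (listcx_K hμ K hK hst _ l hl rfl).2, fun l => listcx_identity hμ _ l rfl⟩

end TorM
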